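import Pool.Agent.H916Z.NT3c

/-!
# Counting primes in several classes (helper89, part of task NT4)
-/

set_option autoImplicit false
set_option linter.style.haveILetI false

namespace Pool.Agent.H916Z

open NumberField Finset Filter Topology

/-- counting: if for every large prime `ℓ` the indicator of the set `S` of classes plus
`#Hom(O_{K1}, F_ℓ) / D` is at most `#Hom(O_K, F_ℓ) / c`, then `c (|S| / φ(N) + 1 / D) ≤ 1`. -/
theorem count_two (K : Type) [Field K] [NumberField K] (K1 : Type) [Field K1] [NumberField K1]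
    (N : ℕ) [NeZero N] (S : Finset (ZMod N)) (hS : ∀ a ∈ S, IsUnit a) (c d : ℝ) (hc : 0 ≤ c)
    (hd : 0 ≤ d) (B : ℕ)
    (h : ∀ ℓ : ℕ, ℓ.Prime → B < ℓ → (if (ℓ : ZMod N) ∈ S then c else 0) +
      d * (Nat.card (𝓞 K1 →+* ZMod ℓ) : ℝ) ≤ (Nat.card (𝓞 K →+* ZMod ℓ) : ℝ)) :
    c * (S.card * (N.totient : ℝ)⁻¹) + d ≤ 1 := by
  classical
  set D : ℝ := (Module.finrank ℚ K1 : ℝ) with hD
  have h1 : Tendsto (fun M : ℕ => H332.PIT.TT K M / M) atTop (𝓝 1) :=
    H332.PIT.TT_tendsto (fun t => H484R2.continuation K t)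
  have h1' : Tendsto (fun M : ℕ => H332.PIT.TT K1 M / M) atTop (𝓝 1) :=
    H332.PIT.TT_tendsto (fun t => H484R2.continuation K1 t)
  have hc' : Tendsto (fun n : ℕ => (n : ℝ)) atTop atTop := tendsto_natCast_atTop_atTop
  have hθ := (Pool.Agent.Cov.PNT.theta_div_tendsto).comp hc'
  have hψ := (Pool.Agent.Cov.PNT.psi_div_tendsto).comp hc'
  simp only [Function.comp_def, Nat.floor_natCast] at hθ hψ
  have hk : ∀ a ∈ S, Tendsto (fun M : ℕ =>
      (∑ k ∈ Icc 1 M, ArithmeticFunction.vonMangoldt.residueClass a k) / (M : ℝ)) atTop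
      (𝓝 ((N.totient : ℝ)⁻¹)) := by
    intro a ha
    have := (Pool.Agent.Cov.PNT.pnt_residueClass (q := N) (a := a) (hS a ha)).comp hc'
    simpa only [Function.comp_def, Nat.floor_natCast] using this
  have hsum : Tendsto (fun M : ℕ => ∑ a ∈ S,
      (∑ k ∈ Icc 1 M, ArithmeticFunction.vonMangoldt.residueClass a k) / (M : ℝ)) atTop
      (𝓝 (∑ a ∈ S, (N.totient : ℝ)⁻¹)) := tendsto_finsetSum S hk
  rw [sum_const, nsmul_eq_mul] at hsum
  set bb : ℝ := (c + d * D) * Chebyshev.theta B with hbb
  have hB : Tendsto (fun M : ℕ => bb / (M : ℝ)) atTop (𝓝 0) := hc'.const_div_atTop _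
  have hlim : Tendsto (fun M : ℕ => H332.PIT.TT K M / M + bb / (M : ℝ) +
      c * (S.card * (Chebyshev.psi M / M - Chebyshev.theta M / M))) atTop (𝓝 1) := by
    have := (h1.add hB).add (((hψ.sub hθ).const_mul (S.card : ℝ)).const_mul c)
    simpa using this
  have hlow : Tendsto (fun M : ℕ => c * (∑ a ∈ S,
      (∑ k ∈ Icc 1 M, ArithmeticFunction.vonMangoldt.residueClass a k) / (M : ℝ)) +
      d * (H332.PIT.TT K1 M / M)) atTop (𝓝 (c * (S.card * (N.totient : ℝ)⁻¹) + d)) := by
    have := (hsum.const_mul c).add (h1'.const_mul d)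
    simpa using this
  refine le_of_tendsto_of_tendsto' hlow hlim fun M => ?_
  have hres : ∀ (a : ZMod N) (n : ℕ), ArithmeticFunction.vonMangoldt.residueClass a n =
      if (n : ZMod N) = a then ArithmeticFunction.vonMangoldt n else 0 := by
    intro a n
    unfold ArithmeticFunction.vonMangoldt.residueClass
    rw [Set.indicator_apply]
    rfl
  have hlog : ∀ p : ℕ, 0 ≤ Real.log p := fun p => Real.log_natCast_nonneg p
  -- one class
  have hcls : ∀ a ∈ S, ∑ k ∈ Icc 1 M, ArithmeticFunction.vonMangoldt.residueClass a k ≤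
      ∑ k ∈ (range (M + 1)).filter Nat.Prime, (if (k : ZMod N) = a then Real.log k else 0) +
      (Chebyshev.psi M - Chebyshev.theta M) := by
    intro a _
    have e1 : ∑ k ∈ Icc 1 M, ArithmeticFunction.vonMangoldt.residueClass a k =
        ∑ k ∈ (Icc 1 M).filter Nat.Prime, ArithmeticFunction.vonMangoldt.residueClass a k +
        ∑ k ∈ (Icc 1 M).filter (fun k => ¬ Nat.Prime k),
          ArithmeticFunction.vonMangoldt.residueClass a k :=
      (sum_filter_add_sum_filter_not (Icc 1 M) Nat.Prime _).symm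
    have e2 : ∑ k ∈ (Icc 1 M).filter (fun k => ¬ Nat.Prime k),
          ArithmeticFunction.vonMangoldt.residueClass a k ≤
          Chebyshev.psi M - Chebyshev.theta M := by
      have h3 : Chebyshev.psi M - Chebyshev.theta M =
          ∑ k ∈ (Icc 1 M).filter (fun k => ¬ Nat.Prime k), ArithmeticFunction.vonMangoldt k := by
        rw [H332.PIT.psi_eq, H332.PIT.theta_eq, ← H332.PIT.Icc_eq,
          ← sum_filter_add_sum_filter_not (Icc 1 M) Nat.Prime]
        have h4 : ∑ k ∈ (Icc 1 M).filter Nat.Prime, ArithmeticFunction.vonMangoldt k =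
            ∑ p ∈ (Icc 1 M).filter Nat.Prime, Real.log p := by
          refine sum_congr rfl fun p hp => ?_
          rw [ArithmeticFunction.vonMangoldt_apply_prime (mem_filter.mp hp).2]
        rw [h4]
        ring
      rw [h3]
      exact sum_le_sum fun k _ => ArithmeticFunction.vonMangoldt.residueClass_le a k
    have e3 : ∑ k ∈ (Icc 1 M).filter Nat.Prime,
        ArithmeticFunction.vonMangoldt.residueClass a k =
        ∑ k ∈ (range (M + 1)).filter Nat.Prime, (if (k : ZMod N) = a then Real.log k else 0) := by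
      rw [H332.PIT.Icc_eq]
      refine sum_congr rfl fun p hp => ?_
      rw [hres, ArithmeticFunction.vonMangoldt_apply_prime (mem_filter.mp hp).2]
    rw [e1, e3]
    exact add_le_add le_rfl e2
  have hcls2 : ∑ a ∈ S, ∑ k ∈ Icc 1 M, ArithmeticFunction.vonMangoldt.residueClass a k ≤
      ∑ k ∈ (range (M + 1)).filter Nat.Prime, (if (k : ZMod N) ∈ S then Real.log k else 0) +
      S.card * (Chebyshev.psi M - Chebyshev.theta M) := by
    refine (sum_le_sum hcls).trans ?_
    rw [sum_add_distrib, sum_const, nsmul_eq_mul, sum_comm]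
    refine add_le_add (le_of_eq (sum_congr rfl fun k _ => ?_)) le_rfl
    rw [Finset.sum_ite_eq]
  have hTT : ∀ (L : Type) [Field L] [NumberField L], H332.PIT.TT L M =
      ∑ p ∈ (range (M + 1)).filter Nat.Prime, (Nat.card (𝓞 L →+* ZMod p) : ℝ) * Real.log p :=
    fun L _ _ => rfl
  have hD0 : 0 ≤ D := Nat.cast_nonneg _
  have key : c * ∑ k ∈ (range (M + 1)).filter Nat.Prime,
      (if (k : ZMod N) ∈ S then Real.log k else 0) + d * H332.PIT.TT K1 M ≤
      H332.PIT.TT K M + bb := by
    have hTB : bb = ∑ p ∈ (range (B + 1)).filter Nat.Prime, (c + d * D) * Real.log p := by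
      rw [hbb, H332.PIT.theta_eq, mul_sum]
    rw [hTB, hTT K, hTT K1, mul_sum, mul_sum, ← sum_add_distrib]
    rw [← sum_filter_add_sum_filter_not ((range (M + 1)).filter Nat.Prime) (fun p => B < p)]
    refine add_le_add ?_ ?_
    · refine (sum_le_sum (g := fun p : ℕ => (Nat.card (𝓞 K →+* ZMod p) : ℝ) * Real.log p) ?_).trans
        ?_
      · intro p hp
        rw [mem_filter, mem_filter] at hp
        have h5 := mul_le_mul_of_nonneg_right (h p hp.1.2 hp.2) (hlog p)
        refine le_trans (le_of_eq ?_) h5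
        split_ifs <;> ring
      · exact sum_le_sum_of_subset_of_nonneg (filter_subset _ _)
          fun p _ _ => mul_nonneg (Nat.cast_nonneg _) (hlog p)
    · refine (sum_le_sum (g := fun p : ℕ => (c + d * D) * Real.log p) ?_).trans ?_
      · intro p hp
        rw [mem_filter, mem_filter] at hp
        have h6 : (Nat.card (𝓞 K1 →+* ZMod p) : ℝ) ≤ D := H332.PIT.hc_cast_le hp.1.2
        have h7 := mul_le_mul_of_nonneg_left h6 hd
        have h8 := mul_le_mul_of_nonneg_right h7 (hlog p)
        have h9 : 0 ≤ c * Real.log p := mul_nonneg hc (hlog p)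
        split_ifs <;> nlinarith
      · refine sum_le_sum_of_subset_of_nonneg ?_
          fun p _ _ => mul_nonneg (add_nonneg hc (mul_nonneg hd hD0)) (hlog p)
        intro p hp
        rw [mem_filter, mem_filter, not_lt] at hp
        rw [mem_filter, mem_range]
        exact ⟨by omega, hp.1.2⟩
  rcases Nat.eq_zero_or_pos M with rfl | hM
  · simp
  have hM' : (0 : ℝ) < M := by exact_mod_cast hM
  have hfin : c * (∑ a ∈ S, ∑ k ∈ Icc 1 M, ArithmeticFunction.vonMangoldt.residueClass a k) +
      d * H332.PIT.TT K1 M ≤ H332.PIT.TT K M + bb +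
      c * (S.card * (Chebyshev.psi M - Chebyshev.theta M)) := by
    have := mul_le_mul_of_nonneg_left hcls2 hc
    nlinarith
  have hl : c * (∑ a ∈ S,
      (∑ k ∈ Icc 1 M, ArithmeticFunction.vonMangoldt.residueClass a k) / (M : ℝ)) +
      d * (H332.PIT.TT K1 M / M) =
      (c * (∑ a ∈ S, ∑ k ∈ Icc 1 M, ArithmeticFunction.vonMangoldt.residueClass a k) +
      d * H332.PIT.TT K1 M) / M := by
    rw [← sum_div]
    ring
  have hr : H332.PIT.TT K M / M + bb / (M : ℝ) +
      c * (S.card * (Chebyshev.psi M / M - Chebyshev.theta M / M)) =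
      (H332.PIT.TT K M + bb + c * (S.card * (Chebyshev.psi M - Chebyshev.theta M))) / M := by
    ring
  rw [hl, hr]
  exact div_le_div_of_nonneg_right hfin hM'.le

end Pool.Agent.H916Z
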