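import Pool.Agent.H916Z.NT4b
import Pool.Agent.H916Z.NT4c

/-!
# Task NT4 (helper89): primes `ℓ ≡ 1 mod 2^E`, outside a subgroup of classes modulo `n`, such that
2 is not a fourth power modulo `ℓ`
-/

set_option autoImplicit false
set_option linter.style.haveILetI false

namespace Pool.Agent.H916Z

open NumberField

private lemma card_compl (G : Type) [Group G] [Fintype G] [DecidableEq G] (C : Subgroup G)
    [DecidablePred (· ∈ C)] (hC : C ≠ ⊤) :
    Fintype.card G ≤ 2 * (Finset.univ.filter (fun t : G => t ∉ C)).card := by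
  obtain ⟨g, hg⟩ : ∃ g, g ∉ C := by
    by_contra hcon
    push Not at hcon
    exact hC ((Subgroup.eq_top_iff' C).2 hcon)
  have h1 : (Finset.univ.filter (fun t : G => t ∈ C)).card ≤
      (Finset.univ.filter (fun t : G => t ∉ C)).card := by
    refine Finset.card_le_card_of_injOn (fun t => g * t) ?_ ?_
    · intro t ht
      have ht' : t ∈ C := by simpa using ht
      simp only [Finset.coe_filter, Finset.mem_univ, true_and, Set.mem_ofPred_eq]
      intro hgt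
      exact hg ((Subgroup.mul_mem_cancel_right C ht').1 hgt)
    · intro a _ b _ hab
      exact mul_left_cancel hab
  have h2 := Finset.card_filter_add_card_filter_not (s := (Finset.univ : Finset G))
    (fun t : G => t ∈ C)
  rw [Finset.card_univ] at h2
  omega

lemma exists_prime_four_aux (n E B : ℕ) (hn0 : 0 < n) (hn : ¬ 2 ∣ n) (hE : 3 ≤ E)
    (C : Subgroup (ZMod n)ˣ) (hC : C ≠ ⊤) : ∃ ℓ : ℕ, ℓ.Prime ∧ B < ℓ ∧ 2 ^ E ∣ ℓ - 1 ∧
      (∀ y : ZMod ℓ, y ^ 4 ≠ 2) ∧ ∃ t : (ZMod n)ˣ, t ∉ C ∧ (ℓ : ZMod n) = (t : ZMod n) := by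
  classical
  by_contra hcon
  push Not at hcon
  haveI : NeZero n := ⟨hn0.ne'⟩
  have hm : 0 < 2 ^ E := pow_pos (by norm_num) _
  haveI : NeZero (2 ^ E) := ⟨hm.ne'⟩
  have h8 : 8 ∣ 2 ^ E := by
    have : (8 : ℕ) = 2 ^ 3 := by norm_num
    rw [this]
    exact pow_dvd_pow 2 hE
  have hN : 0 < n * 2 ^ E := Nat.mul_pos hn0 hm
  haveI : NeZero (n * 2 ^ E) := ⟨hN.ne'⟩
  have hcop : Nat.Coprime n (2 ^ E) :=
    Nat.Coprime.pow_right _ ((Nat.Prime.coprime_iff_not_dvd Nat.prime_two).mpr hn).symm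
  obtain ⟨K0, _, _, B0, hB0⟩ := hom2 (2 ^ E) hm h8
  obtain ⟨K1, _, _, B1, hB1⟩ := hom1 (n * 2 ^ E) hN
  set e := ZMod.chineseRemainder hcop with he
  set S : Finset (ZMod (n * 2 ^ E)) :=
    (Finset.univ.filter (fun t : (ZMod n)ˣ => t ∉ C)).image
      (fun t : (ZMod n)ˣ => e.symm ((t : ZMod n), 1)) with hSdef
  have hScard : S.card = (Finset.univ.filter (fun t : (ZMod n)ˣ => t ∉ C)).card := by
    rw [hSdef, Finset.card_image_of_injective]
    intro a b hab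
    have h1 := e.symm.injective hab
    exact Units.ext (congrArg Prod.fst h1)
  have hS2 : n.totient ≤ 2 * S.card := by
    rw [hScard]
    have := card_compl (ZMod n)ˣ C hC
    rwa [ZMod.card_units_eq_totient] at this
  have hSunit : ∀ a ∈ S, IsUnit a := by
    intro a ha
    rw [hSdef, Finset.mem_image] at ha
    obtain ⟨t, _, rfl⟩ := ha
    refine IsUnit.map e.symm ?_
    rw [Prod.isUnit_iff]
    exact ⟨t.isUnit, isUnit_one⟩
  have hmem : ∀ ℓ : ℕ, ℓ.Prime → (ℓ : ZMod (n * 2 ^ E)) ∈ S →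
      2 ^ E ∣ ℓ - 1 ∧ ∃ t : (ZMod n)ˣ, t ∉ C ∧ (ℓ : ZMod n) = (t : ZMod n) := by
    intro ℓ hℓ h
    rw [hSdef, Finset.mem_image] at h
    obtain ⟨t, ht, hte⟩ := h
    have h1 : e (ℓ : ZMod (n * 2 ^ E)) = ((t : ZMod n), 1) := by
      rw [← hte, RingEquiv.apply_symm_apply]
    rw [map_natCast] at h1
    have h2 : (ℓ : ZMod n) = (t : ZMod n) := congrArg Prod.fst h1
    have h3 : (ℓ : ZMod (2 ^ E)) = 1 := congrArg Prod.snd h1
    refine ⟨?_, t, by simpa using ht, h2⟩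
    rw [← ZMod.natCast_eq_zero_iff, Nat.cast_sub hℓ.one_lt.le, h3]
    simp
  set c : ℝ := 2 * ((2 ^ E).totient : ℝ) with hc
  set D : ℝ := (Module.finrank ℚ K1 : ℝ) with hD
  have hDpos : 0 < D := by
    rw [hD]
    exact_mod_cast Module.finrank_pos
  have hφ2 : (0 : ℝ) < ((2 ^ E).totient : ℝ) := by exact_mod_cast Nat.totient_pos.mpr hm
  have hcpos : 0 < c := by rw [hc]; positivity
  have hhom : ∀ ℓ : ℕ, ℓ.Prime → B0 < ℓ → 2 ^ E ∣ ℓ - 1 → (∃ y0 : ZMod ℓ, y0 ^ 4 = 2) →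
      c ≤ (Nat.card (𝓞 K0 →+* ZMod ℓ) : ℝ) := by
    intro ℓ h1 h2 h3 h4
    have := hB0 ℓ h1 h2 h3 h4
    rw [hc]
    exact_mod_cast this
  have key := count_two K0 K1 (n * 2 ^ E) S hSunit c (c / D) hcpos.le (by positivity)
    (max B (max B0 B1)) (fun ℓ hℓ hBℓ => by
      have hb : B < ℓ := (le_max_left _ _).trans_lt hBℓ
      have hb0 : B0 < ℓ := ((le_max_left _ _).trans (le_max_right _ _)).trans_lt hBℓ
      have hb1 : B1 < ℓ := ((le_max_right _ _).trans (le_max_right _ _)).trans_lt hBℓ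
      have hle : c / D * (Nat.card (𝓞 K1 →+* ZMod ℓ) : ℝ) ≤ c := by
        have h1 : (Nat.card (𝓞 K1 →+* ZMod ℓ) : ℝ) ≤ D := H332.PIT.hc_cast_le hℓ
        calc c / D * (Nat.card (𝓞 K1 →+* ZMod ℓ) : ℝ) ≤ c / D * D :=
              mul_le_mul_of_nonneg_left h1 (by positivity)
          _ = c := by field_simp
      rcases Nat.eq_zero_or_pos (Nat.card (𝓞 K1 →+* ZMod ℓ)) with h0 | h0
      · rw [h0, Nat.cast_zero, mul_zero, add_zero]
        split_ifs with hS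
        · obtain ⟨h1, t, ht, h2⟩ := hmem ℓ hℓ hS
          refine hhom ℓ hℓ hb0 h1 ?_
          by_contra hno
          push Not at hno
          exact hcon ℓ hℓ hb h1 hno t ht h2
        · exact Nat.cast_nonneg _
      · obtain ⟨h1, h2⟩ := hB1 ℓ hℓ hb1 h0
        have hnS : (ℓ : ZMod (n * 2 ^ E)) ∉ S := by
          intro hS
          obtain ⟨_, t, ht, h3⟩ := hmem ℓ hℓ hS
          have h4 : n ∣ ℓ - 1 := (Dvd.intro _ rfl).trans h1
          rw [← ZMod.natCast_eq_zero_iff, Nat.cast_sub hℓ.one_lt.le, sub_eq_zero, h3] at h4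
          have h5 : t = 1 := Units.ext (by rw [h4]; simp)
          exact ht (h5 ▸ C.one_mem)
        rw [if_neg hnS, zero_add]
        exact hle.trans (hhom ℓ hℓ hb0 ((Dvd.intro_left _ rfl).trans h1) h2))
  have hφ : (n * 2 ^ E).totient = n.totient * (2 ^ E).totient := Nat.totient_mul hcop
  have hφn : (0 : ℝ) < (n.totient : ℝ) := by exact_mod_cast Nat.totient_pos.mpr hn0
  have h1 : 1 ≤ c * (S.card * ((n * 2 ^ E).totient : ℝ)⁻¹) := by
    have h2 : (n.totient : ℝ) ≤ 2 * S.card := by exact_mod_cast hS2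
    rw [hφ, hc]
    push_cast
    have h3 : 2 * ((2 ^ E).totient : ℝ) * ((S.card : ℝ) * ((n.totient : ℝ) *
        ((2 ^ E).totient : ℝ))⁻¹) = 2 * S.card / n.totient := by
      field_simp
    rw [h3, le_div_iff₀ hφn, one_mul]
    exact h2
  have h2 : 0 < c / D := by positivity
  linarith

/-- Task NT4. -/
theorem exists_prime_four (n E B : ℕ) (hn0 : 0 < n) (hn : ¬ 2 ∣ n) (C : Subgroup (ZMod n)ˣ)
    (hC : C ≠ ⊤) : ∃ ℓ : ℕ, ℓ.Prime ∧ B < ℓ ∧ (ℓ : ZMod (2 ^ E)) = 1 ∧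
      (∀ y : ZMod ℓ, y ^ 4 ≠ 2) ∧ ∃ t : (ZMod n)ˣ, t ∉ C ∧ (ℓ : ZMod n) = (t : ZMod n) := by
  obtain ⟨ℓ, hℓ, hB, h1, h2, h3⟩ := exists_prime_four_aux n (E + 3) B hn0 hn (by omega) C hC
  refine ⟨ℓ, hℓ, hB, ?_, h2, h3⟩
  have h4 : 2 ^ E ∣ ℓ - 1 := (pow_dvd_pow 2 (by omega)).trans h1
  rw [← ZMod.natCast_eq_zero_iff, Nat.cast_sub hℓ.one_lt.le, sub_eq_zero] at h4
  simpa using h4

end Pool.Agent.H916Z
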