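import Pool.Agent.H916Z.Two
import Pool.Agent.H916Z.NT4

/-!
Characteristic two.
-/

set_option linter.unusedSectionVars false

namespace Pool.Agent.H916Z

open Finset Pool.Agent.H916R2 Pool.Agent.H916T Pool.Agent.H916U

/-- the order of an element which is not a fourth power -/
lemma pow_dvd_order_four {ℓ p E F : ℕ} [Fact ℓ.Prime] (hpℓ : p.Coprime ℓ)
    (hF : 0 < F) (hE : 2 ^ (E + F + 1) ∣ ℓ - 1) (hnr : ∀ y : ZMod ℓ, y ^ 4 ≠ (p : ZMod ℓ)) :
    2 ^ E ∣ orderOf (uu p ℓ F hpℓ) := by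
  have hq : Nat.Prime 2 := Nat.prime_two
  have hℓ : ℓ.Prime := Fact.out
  have hℓ1 : 0 < ℓ - 1 := by have := hℓ.one_lt; omega
  set u : (ZMod ℓ)ˣ := ZMod.unitOfCoprime p hpℓ with hu
  obtain ⟨e, F', hF', hFe⟩ := Nat.exists_eq_pow_mul_and_not_dvd hF.ne' 2 hq.ne_one
  have heF : e ≤ F := by
    have h1 : 2 ^ e ≤ F := Nat.le_of_dvd hF (Dvd.intro F' hFe.symm)
    exact (Nat.lt_pow_self hq.one_lt).le.trans h1
  obtain ⟨v, N', hN', hNv⟩ := Nat.exists_eq_pow_mul_and_not_dvd hℓ1.ne' 2 hq.ne_one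
  have hvE : E + e + 1 ≤ v := by
    have h1 : 2 ^ (E + e + 1) ∣ 2 ^ v * N' := by
      rw [← hNv]; exact dvd_trans (pow_dvd_pow 2 (by omega)) hE
    have h2 : Nat.Coprime (2 ^ (E + e + 1)) N' :=
      Nat.Coprime.pow_left _ ((hq.coprime_iff_not_dvd).mpr hN')
    exact (Nat.pow_dvd_pow_iff_le_right hq.one_lt).mp (h2.dvd_of_dvd_mul_right h1)
  have hcard : Fintype.card (ZMod ℓ)ˣ = ℓ - 1 := ZMod.card_units ℓ
  obtain ⟨v1, hv1⟩ : ∃ v1, v = v1 + 1 := ⟨v - 1, by omega⟩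
  have hov : 2 ^ v1 ∣ orderOf u := by
    rcases Nat.eq_zero_or_pos v1 with hv0 | hv0
    · rw [hv0, pow_zero]; exact one_dvd _
    by_contra hcon
    obtain ⟨w, hw⟩ : ∃ w, v1 = w + 1 := ⟨v1 - 1, by omega⟩
    have ho : orderOf u ∣ 2 ^ v * N' := by rw [← hNv, ← hcard]; exact orderOf_dvd_card
    have ho2 : orderOf u ∣ 2 ^ w * N' := by
      obtain ⟨a, o', ho', hoo⟩ := Nat.exists_eq_pow_mul_and_not_dvd
        (orderOf_pos u).ne' 2 hq.ne_one
      have h1 : a ≤ w := by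
        by_contra h
        apply hcon
        rw [hoo]
        exact dvd_trans (pow_dvd_pow 2 (by omega)) (Dvd.intro _ rfl)
      have h2 : o' ∣ N' := by
        have h3 : o' ∣ 2 ^ v * N' := dvd_trans (by rw [hoo]; exact Dvd.intro_left _ rfl) ho
        have h4 : Nat.Coprime o' (2 ^ v) :=
          Nat.Coprime.pow_right _ ((hq.coprime_iff_not_dvd).mpr ho').symm
        exact h4.dvd_of_dvd_mul_left h3
      rw [hoo]
      exact Nat.mul_dvd_mul (pow_dvd_pow 2 h1) h2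
    obtain ⟨g, hg⟩ := IsCyclic.exists_generator (α := (ZMod ℓ)ˣ)
    have hgo : orderOf g = ℓ - 1 := by
      rw [orderOf_eq_card_of_forall_mem_zpowers hg, Nat.card_eq_fintype_card, hcard]
    obtain ⟨k, hk⟩ := (mem_powers_iff_mem_zpowers.mpr (hg u))
    have hk' : g ^ k = u := hk
    have h5 : g ^ (k * (2 ^ w * N')) = 1 := by
      rw [pow_mul, hk']
      exact orderOf_dvd_iff_pow_eq_one.mp ho2
    have h6 := orderOf_dvd_of_pow_eq_one h5
    have h6' : 2 ^ v * N' = 4 * (2 ^ w * N') := by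
      rw [hv1, hw]; ring
    rw [hgo, hNv, h6'] at h6
    have h7 : 4 ∣ k := by
      have h8 : 0 < 2 ^ w * N' := Nat.mul_pos (pow_pos hq.pos w)
        (Nat.pos_of_ne_zero (by rintro rfl; exact hN' (dvd_zero 2)))
      exact Nat.dvd_of_mul_dvd_mul_right h8 h6
    obtain ⟨k', rfl⟩ := h7
    apply hnr ((g ^ k' : (ZMod ℓ)ˣ) : ZMod ℓ)
    rw [← Units.val_pow_eq_pow_val, ← pow_mul, mul_comm k' 4, hk', hu, ZMod.coe_unitOfCoprime]
  -- the power
  have h1 : orderOf u ∣ orderOf (u ^ F) * F := by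
    apply orderOf_dvd_of_pow_eq_one
    rw [mul_comm, pow_mul, pow_orderOf_eq_one]
  have h2 : 2 ^ (E + e) ∣ orderOf (u ^ F) * F :=
    dvd_trans (dvd_trans (pow_dvd_pow 2 (by omega)) hov) h1
  have h3 : 2 ^ E ∣ orderOf (u ^ F) * F' := by
    rw [pow_add] at h2
    nth_rewrite 2 [hFe] at h2
    have h4 : orderOf (u ^ F) * (2 ^ e * F') = (orderOf (u ^ F) * F') * 2 ^ e := by ring
    rw [h4] at h2
    exact Nat.dvd_of_mul_dvd_mul_right (pow_pos hq.pos e) h2
  have h5 : Nat.Coprime (2 ^ E) F' := Nat.Coprime.pow_left _ ((hq.coprime_iff_not_dvd).mpr hF')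
  exact h5.dvd_of_dvd_mul_right h3

/-- good primes for the class `t` -/
def GoodP (m E B : ℕ) (t : (ZMod m)ˣ) (ℓ : ℕ) : Prop :=
  ℓ.Prime ∧ B < ℓ ∧ 2 ^ E ∣ ℓ - 1 ∧ (∀ y : ZMod ℓ, y ^ 4 ≠ 2) ∧ (ℓ : ZMod m) = (t : ZMod m)

lemma exists_goodP {m : ℕ} (hm : 0 < m) (hm2 : ¬ 2 ∣ m) (E B : ℕ) (C : Subgroup (ZMod m)ˣ)
    (hC : ∀ (t : (ZMod m)ˣ) (ℓ : ℕ), GoodP m E B t ℓ → t ∈ C) : C = ⊤ := by
  by_contra hne
  obtain ⟨ℓ, hℓ, hB, hE, hnr, t, ht, htℓ⟩ := exists_prime_four m E B hm hm2 C hne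
  apply ht
  refine hC t ℓ ⟨hℓ, hB, ?_, hnr, htℓ⟩
  rw [← Nat.cast_one, ZMod.natCast_eq_natCast_iff] at hE
  exact (Nat.modEq_iff_dvd' hℓ.one_lt.le).mp hE.symm

theorem hu_two : HU 2 := by
  classical
  intro m hm hm2 hpm
  have hmz : NeZero m := ⟨hm.ne'⟩
  set F := orderOf ((2 : ℕ) : ZMod m) with hF
  have hF0 : 0 < F := order_pos hpm
  have hF1 : ((2 : ℕ) : ZMod m) ^ F = 1 := H916T.pow_order 2
  let ℓ : (ZMod m)ˣ → ℕ := fun t =>
    if h : ∃ ℓ, GoodP m (1 + F + 1) (max m 2) t ℓ then h.choose else 1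
  have hℓg : ∀ t, (∃ ℓ, GoodP m (1 + F + 1) (max m 2) t ℓ) →
      GoodP m (1 + F + 1) (max m 2) t (ℓ t) := by
    intro t h
    simp only [ℓ, dif_pos h]
    exact h.choose_spec
  have hℓpos : ∀ t, 0 < ℓ t := by
    intro t
    by_cases h : ∃ ℓ, GoodP m (1 + F + 1) (max m 2) t ℓ
    · exact (hℓg t h).1.pos
    · simp only [ℓ, dif_neg h]; exact one_pos
  have hℓ2 : ∀ t, Nat.Coprime 2 (ℓ t) := by
    intro t
    by_cases h : ∃ ℓ, GoodP m (1 + F + 1) (max m 2) t ℓ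
    · obtain ⟨h1, h2, _⟩ := hℓg t h
      exact (Nat.coprime_primes Nat.prime_two h1).mpr
        (lt_of_le_of_lt (le_max_right _ _) h2).ne
    · simp only [ℓ, dif_neg h]; exact Nat.coprime_one_right 2
  set L := ∏ t : (ZMod m)ˣ, ℓ t with hL
  have hL0 : 0 < L := Finset.prod_pos fun t _ => hℓpos t
  have hpL : Nat.Coprime 2 L := Nat.Coprime.prod_right fun t _ => hℓ2 t
  have hz : NeZero (L * m) := ⟨(Nat.mul_pos hL0 hm).ne'⟩
  refine ⟨L, hL0, hpL, (Nat.prime_two.coprime_iff_not_dvd).mp hpL, ?_⟩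
  let S : Subgroup (ZMod m)ˣ :=
    { carrier := {t | ∀ a : ZMod m,
        C2 2 (iota L ((t : ZMod m) * a) : ZMod (L * m)) (iota L a)}
      mul_mem' := by
        intro t1 t2 h1 h2 a
        have h3 := h1 ((t2 : ZMod m) * a)
        rw [← mul_assoc, ← Units.val_mul] at h3
        exact h3.trans (h2 a)
      one_mem' := by
        intro a
        rw [Units.val_one, one_mul]
        exact C2.refl _
      inv_mem' := by
        intro t h a
        have h3 := h (((t⁻¹ : (ZMod m)ˣ) : ZMod m) * a)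
        rw [← mul_assoc, Units.mul_inv, one_mul] at h3
        exact h3.symm }
  have hS : S = ⊤ := by
    apply exists_goodP hm hm2 (1 + F + 1) (max m 2)
    intro t ℓ0 h0
    obtain ⟨g1, g2, g3, g4, g5⟩ := hℓg t ⟨ℓ0, h0⟩
    have hf : Fact (ℓ t).Prime := ⟨g1⟩
    intro a
    rw [← g5]
    have hnr : ∀ y : ZMod (ℓ t), y ^ 4 ≠ ((2 : ℕ) : ZMod (ℓ t)) := by
      intro y; rw [Nat.cast_ofNat]; exact g4 y
    have h1 := pow_dvd_order_four (E := 1) (hℓ2 t) hF0 g3 hnr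
    rw [pow_one] at h1
    have hne2 : ℓ t ≠ 2 := (lt_of_le_of_lt (le_max_right _ _) g2).ne'
    exact c2_prime rfl (Finset.dvd_prod_of_mem ℓ (mem_univ t)) (hℓ2 t) hF1 hne2 h1 a
  intro t a
  have h1 : t ∈ S := by rw [hS]; exact Subgroup.mem_top t
  exact h1 a

lemma IOD.unit {p m : ℕ} [NeZero m] (hm2 : ¬ 2 ∣ m) {Q : Type} [AddCommGroup Q] {h : ZMod m → Q}
    (hh : IOD p h) (t : (ZMod m)ˣ) : IOD p (fun a => h ((t : ZMod m) * a)) where
  od :=
    { neg := fun a => by rw [mul_neg, hh.od.neg]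
      zero := by rw [mul_zero, hh.od.zero]
      odd := fun q d hq hq2 hqd a => by
        rw [coset_sum_unit h hqd t a, hh.od.odd q d hq hq2 hqd]
        congr 1; ring
      two := fun d hd _ => absurd ⟨d, hd.symm⟩ hm2 }
  inv := fun a => by
    have : (t : ZMod m) * ((p : ZMod m) * a) = (p : ZMod m) * ((t : ZMod m) * a) := by ring
    rw [this, hh.inv]

theorem hb_two : HB 2 := by
  classical
  intro m hm hm2 hpm B hB
  have hmz : NeZero m := ⟨hm.ne'⟩
  obtain ⟨K, hK0, hK⟩ := uniform_torsion hpm B hB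
  obtain ⟨e, n, hn, hKe⟩ := Nat.exists_eq_pow_mul_and_not_dvd hK0.ne' 2 (by norm_num)
  refine ⟨n, hn, ?_⟩
  set F := orderOf ((2 : ℕ) : ZMod m) with hF
  have hF0 : 0 < F := order_pos hpm
  have hF1 : ((2 : ℕ) : ZMod m) ^ F = 1 := H916T.pow_order 2
  let Gd : Multiset (ZMod m) → Prop := fun s' =>
    ∀ (Q : Type) [AddCommGroup Q] (h : ZMod m → Q), IOD 2 h → K • (s'.map h).sum = 0
  have hGd : ∀ (s' : Multiset (ZMod m)) (t : (ZMod m)ˣ), Gd s' →
      Gd (s'.map fun a => (t : ZMod m) * a) := by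
    intro s' t hs' Q _ h hh
    rw [Multiset.map_map]
    exact hs' Q _ (hh.unit hm2 t)
  let S : Subgroup (ZMod m)ˣ :=
    { carrier := {t | ∀ s' : Multiset (ZMod m), Gd s' →
        EV 2 m n ((s'.map fun a => (t : ZMod m) * a) + s'.map Neg.neg)}
      mul_mem' := by
        intro t1 t2 h1 h2 s' hs'
        refine EV.lin (h1 _ (hGd s' t2 hs')) (h2 s' hs') ?_
        intro Q _ M c hM g hg e1 e2
        rw [Multiset.map_add, Multiset.sum_add, smul_add] at e1 e2 ⊢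
        simp only [Multiset.map_map, Function.comp_def, iota_neg hM, hg.iod.od.neg,
          Multiset.sum_map_neg, smul_neg] at e1 e2 ⊢
        have e3 : ∀ a : ZMod m, ((t1 * t2 : (ZMod m)ˣ) : ZMod m) * a =
            (t1 : ZMod m) * ((t2 : ZMod m) * a) := by
          intro a; rw [Units.val_mul, mul_assoc]
        simp only [e3]
        rw [add_neg_eq_zero] at e1 e2 ⊢
        rw [e1, e2]
      one_mem' := by
        intro s' hs'
        refine ⟨1, one_pos, Nat.coprime_one_right 2, ?_⟩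
        intro c M _ _ _ hM Q _ g hg
        simp only [Units.val_one, one_mul, Multiset.map_id', Multiset.map_add, Multiset.sum_add,
          Multiset.map_map, Function.comp_def, iota_neg hM, hg.iod.od.neg, Multiset.sum_map_neg,
          add_neg_cancel, smul_zero]
      inv_mem' := by
        intro t h1 s' hs'
        have h2 := h1 _ (hGd s' t⁻¹ hs')
        refine EV.lin h2 h2 ?_
        intro Q _ M c hM g hg e1 _
        rw [Multiset.map_add, Multiset.sum_add, smul_add] at e1 ⊢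
        simp only [Multiset.map_map, Function.comp_def, iota_neg hM, hg.iod.od.neg,
          Multiset.sum_map_neg, smul_neg] at e1 ⊢
        have e3 : ∀ a : ZMod m, (t : ZMod m) * (((t⁻¹ : (ZMod m)ˣ) : ZMod m) * a) = a := by
          intro a; rw [← mul_assoc, Units.mul_inv, one_mul]
        simp only [e3] at e1
        rw [add_neg_eq_zero] at e1 ⊢
        exact e1.symm }
  have hS : S = ⊤ := by
    apply exists_goodP hm hm2 (e + F + 1) (max m 2)
    intro t ℓ h0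
    obtain ⟨g1, g2, g3, g4, g5⟩ := h0
    have hf : Fact ℓ.Prime := ⟨g1⟩
    have hne2 : ℓ ≠ 2 := (lt_of_le_of_lt (le_max_right _ _) g2).ne'
    have hpℓ : Nat.Coprime 2 ℓ := (Nat.coprime_primes Nat.prime_two g1).mpr hne2.symm
    have hℓm : m < ℓ := lt_of_le_of_lt (le_max_left _ _) g2
    have hnr : ∀ y : ZMod ℓ, y ^ 4 ≠ ((2 : ℕ) : ZMod ℓ) := by
      intro y; rw [Nat.cast_ofNat]; exact g4 y
    intro s' hs'
    have hz : NeZero (ℓ * m) := ⟨(Nat.mul_pos g1.pos hm).ne'⟩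
    refine EV.of_level (L := ℓ) g1.pos hpℓ ?_
    intro Q _ g hg
    have h1 := lemA (p := 2) (s := s') (g := g) (n := n) hm2 hpm rfl hpℓ hF1 hne2
      (coprime_of_lt hm hℓm) hs' (by
        obtain ⟨x, hx⟩ := pow_dvd_order_four (E := e) hpℓ hF0 g3 hnr
        rw [hKe, hx]
        exact ⟨x, by ring⟩) hg.iod
    rw [g5] at h1
    rw [Multiset.map_add, Multiset.sum_add, smul_add]
    simp only [Multiset.map_map, Function.comp_def, iota_neg rfl, hg.iod.od.neg,
      Multiset.sum_map_neg, smul_neg]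
    rw [add_neg_eq_zero]
    exact h1
  have h1 : (-1 : (ZMod m)ˣ) ∈ S := by rw [hS]; exact Subgroup.mem_top _
  have h2 := h1 B hK
  refine EV.lin h2 h2 ?_
  intro Q _ M c hM g hg e1 _
  rw [Multiset.map_add, Multiset.sum_add, smul_add] at e1
  simp only [Multiset.map_map, Function.comp_def, Units.val_neg, Units.val_one, neg_mul, one_mul,
    iota_neg hM, hg.iod.od.neg, Multiset.sum_map_neg, smul_neg] at e1
  rw [mul_comm, mul_nsmul, two_nsmul]
  rw [← neg_eq_zero, neg_add]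
  exact e1

/-- all characteristics -/
theorem hu_all {p : ℕ} (hp : p.Prime) : HU p := by
  by_cases h : p = 2
  · subst h; exact hu_two
  · exact hu_odd hp h

theorem hb_all {p : ℕ} (hp : p.Prime) : HB p := by
  by_cases h : p = 2
  · subst h; exact hb_two
  · exact hb_odd hp h

end Pool.Agent.H916Z
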