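import Pool.Agent.H916Z.Core

/-!
From eventual vanishing to generation.
-/

set_option linter.unusedSectionVars false

namespace Pool.Agent.H916Z

open Finset Pool.Agent.H916R2 Pool.Agent.H916T Pool.Agent.H916U

variable {p : ℕ}

/-- the base family: surfaces and standard characters -/
abbrev ZBase (p M : ℕ) (t : Multiset (ZMod M)) : Prop :=
  SurfaceTate p M t ∨ ∃ q : ℕ, q.Prime ∧ q ∣ M ∧ Standard q M t

lemma generated_mono {m : ℕ} {base base' : Multiset (ZMod m) → Prop}
    (h : ∀ s, base s → base' s) {s : Multiset (ZMod m)} (hs : H916T.Generated m base s) :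
    H916T.Generated m base' s := by
  induction hs with
  | ofBase s hs => exact H916T.Generated.ofBase s (h s hs)
  | pair a ha => exact H916T.Generated.pair a ha
  | join s t _ _ ihs iht => exact H916T.Generated.join s t ihs iht
  | cancel a s _ ih => exact H916T.Generated.cancel a s ih

lemma sum_iota {k m0 m : ℕ} [NeZero m0] (h : k * m0 = m) (s : Multiset (ZMod m0)) :
    (s.map (iota k : ZMod m0 → ZMod m)).sum = iota k s.sum := by
  induction s using Multiset.induction_on with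
  | empty => simp [iota_zero]
  | cons a s ih => rw [Multiset.map_cons, Multiset.sum_cons, ih, Multiset.sum_cons, iota_add h]

theorem generated_of_EV {m : ℕ} (hp : p.Prime) (hm : 0 < m) (hpm : p.Coprime m)
    {s : Multiset (ZMod m)} (hs : IsTate p m s) (hne : s ≠ 0) (hE : EV p m 1 s) :
    ∃ N : ℕ, 0 < N ∧ p.Coprime N ∧ ∀ M : ℕ, N * m = M →
      H916T.Generated M (ZBase p M) (s.map (iota N : ZMod m → ZMod M)) := by
  have hmz : NeZero m := ⟨hm.ne'⟩
  obtain ⟨L, hL, hpL, H⟩ := hE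
  have hm2 : 0 < L * m := Nat.mul_pos hL hm
  have hz2 : NeZero (L * m) := ⟨hm2.ne'⟩
  have hpm2 : p.Coprime (L * m) := Nat.Coprime.mul_right hpL hpm
  set f := orderOf (p : ZMod (L * m)) with hfdef
  have hf0 : 0 < f := order_pos hpm2
  have hpf : 1 < p ^ f := Nat.one_lt_pow hf0.ne' hp.one_lt
  obtain ⟨N, hN⟩ : ∃ N, p ^ f = N + 1 := ⟨p ^ f - 1, by omega⟩
  have hN0 : 0 < N := by omega
  have hmN : L * m ∣ N := by
    have h1 : ((p ^ f : ℕ) : ZMod (L * m)) = ((1 : ℕ) : ZMod (L * m)) := by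
      push_cast; exact_mod_cast H916T.pow_order (m := L * m) p
    rw [hN] at h1
    have h2 : ((N : ℕ) : ZMod (L * m)) = 0 := by
      have h3 : ((N + 1 : ℕ) : ZMod (L * m)) = (N : ZMod (L * m)) + 1 := by push_cast; rfl
      rw [h3] at h1
      simpa using h1
    rwa [ZMod.natCast_eq_zero_iff] at h2
  have hNz : NeZero (N * (L * m)) := ⟨Nat.mul_ne_zero hN0.ne' hm2.ne'⟩
  have hpN : p.Coprime N := by
    rw [hp.coprime_iff_not_dvd]
    intro h
    have h1 : p ∣ N + 1 := by rw [← hN]; exact dvd_pow_self p hf0.ne'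
    exact hp.one_lt.ne' (Nat.dvd_one.mp ((Nat.dvd_add_right h).mp h1))
  have hpM : p.Coprime (N * (L * m)) := Nat.Coprime.mul_right hpN hpm2
  have hmM : L * m ∣ N * (L * m) := Dvd.intro_left N rfl
  refine ⟨N * L, Nat.mul_pos hN0 hL, Nat.Coprime.mul_right hpN hpL, ?_⟩
  intro M hM
  obtain rfl : M = N * (L * m) := by rw [← hM]; ring
  obtain ⟨g, hg, hgp, hg2, hgs⟩ := exists_g2
    (c := H916T.cQ (N * (L * m)) (UBase p (L * m) (N * (L * m)))) hN
    hp.one_lt hmN hpM (fun a => H916T.cQ_neg a) (fun a ha => H916T.cQ_half ha)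
    (fun t ht => H916T.cQ_sum_eq_zero (H916T.Generated.ofBase t (Or.inl ht)))
    (fun q d hq hq2 hqd a => uquotient_dist hq hq2 hqd a)
  have hTF : TF p g := by
    refine ⟨⟨hg, hgp⟩, fun a b ha hb hW => ?_⟩
    have h1 := hg2 a (-b) ha (neg_ne_zero.mpr hb) (fun t => by
      rw [mul_neg, W_neg, hW t, add_neg_cancel])
    rw [hg.neg, ← sub_eq_add_neg] at h1
    exact sub_eq_zero.mp h1
  have h1 := H L (L * m) (dvd_refl L) hL hpL rfl _ g hTF
  rw [one_nsmul] at h1
  have h2 := hgs (s.map (iota L)) (by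
    rw [sum_iota rfl, hs.2.2.1, iota_zero])
  rw [Multiset.map_map, Multiset.map_map] at h2
  simp only [Function.comp_def] at h2
  rw [h1] at h2
  have e1 : ∀ a : ZMod m, (iota N (iota L a : ZMod (L * m)) : ZMod (N * (L * m))) =
      iota (N * L) a := fun a => iota_comp rfl a
  simp only [e1] at h2
  have hiota : N * L * m = N * (L * m) := by ring
  have h0 : (0 : ZMod (N * (L * m))) ∉ s.map (iota (N * L) : ZMod m → ZMod (N * (L * m))) := by
    intro h'
    obtain ⟨b, hb, hb0⟩ := Multiset.mem_map.mp h'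
    rw [iota_eq_zero hiota hb0] at hb
    exact hs.1 hb
  apply generated_mono (base := UBase p (L * m) (N * (L * m)))
  · intro t ht
    rcases ht with ht | ⟨q, hq, hqm, ht⟩
    · exact Or.inl ht
    · exact Or.inr ⟨q, hq, dvd_trans hqm hmM, ht⟩
  · apply H916T.generated_of_cQ_sum (fun t ht => ubase_good hmM t ht)
      (fun t ht => ubase_neg hmM hpM t ht) h0
    · rw [Multiset.card_map]; exact hs.2.1
    · intro h
      exact hne (Multiset.map_eq_zero.mp h)
    · rw [Multiset.map_map]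
      exact h2

open scoped Classical in
/-- **The parity theorem.** -/
theorem parity_main {m : ℕ} (hp : p.Prime) (hU : HU p) (hB : HB p) (hm : 0 < m) (hm4 : ¬ 4 ∣ m)
    (hpm : p.Coprime m) {s : Multiset (ZMod m)} (hs : IsTate p m s) (hne : s ≠ 0)
    (hpar : ∀ a : ZMod m, Even (s.countP (fun b => Relation.EqvGen (Link p) a b))) :
    ∃ N : ℕ, 0 < N ∧ p.Coprime N ∧ ∀ M : ℕ, N * m = M →
      H916T.Generated M (ZBase p M) (s.map (iota N : ZMod m → ZMod M)) := by
  have hmz : NeZero m := ⟨hm.ne'⟩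
  apply generated_of_EV hp hm hpm hs hne
  have hrel : Rel0 p s := fun t => hs.W_sum hpm t
  by_cases h2 : 2 ∣ m
  · obtain ⟨n, hn⟩ := h2
    refine ev_main (m := n) (k := 2) hp (by omega) (Or.inr rfl) hn.symm ?_ hpm hU hB hrel hpar
    rintro ⟨x, hx⟩
    exact hm4 ⟨x, by rw [hn, hx]; ring⟩
  · exact ev_main (m := m) (k := 1) hp hm (Or.inl rfl) (one_mul m) h2 hpm hU hB hrel hpar

end Pool.Agent.H916Z
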