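import Mathlib

/-!
# A prime is not a `q`-th power in a cyclotomic field
-/

set_option autoImplicit false

namespace Pool.Agent.H916Z

open NumberField

/-- A prime number is not a `q`-th power of a rational number, `q ≥ 2`. -/
theorem not_pow_rat (p q : ℕ) (hp : p.Prime) (hq : q.Prime) (r : ℚ) : r ^ q ≠ (p : ℚ) := by
  intro h
  have := Fact.mk hp
  have hr : r ≠ 0 := by
    rintro rfl
    rw [zero_pow hq.ne_zero] at h
    exact hp.ne_zero (by exact_mod_cast h.symm)
  have h1 := congrArg (padicValRat p) h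
  rw [padicValRat.pow, padicValRat.self hp.one_lt] at h1
  have h2 : (q : ℤ) ∣ 1 := Dvd.intro _ h1
  have h3 : q ∣ 1 := by exact_mod_cast h2
  exact hq.one_lt.ne' (Nat.dvd_one.1 h3)

/-- Task NT1: in a cyclotomic field a prime number is not a `q`-th power, if `q` is an odd prime
which divides the conductor. -/
theorem not_pow_cyclotomic (p q N : ℕ) (hp : p.Prime) (hq : q.Prime) (hq2 : q ≠ 2) (hqN : q ∣ N)
    (hN : 0 < N) (L : Type) [Field L] [NumberField L] [IsCyclotomicExtension {N} ℚ L] (y : L) :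
    y ^ q ≠ (p : L) := by
  intro hy
  have : NeZero N := ⟨hN.ne'⟩
  have : NeZero q := ⟨hq.ne_zero⟩
  have : IsGalois ℚ L := IsCyclotomicExtension.isGalois {N} ℚ L
  have hcomm := IsCyclotomicExtension.isMulCommutative {N} ℚ L
  have hζ := IsCyclotomicExtension.zeta_spec N ℚ L
  set ζ := IsCyclotomicExtension.zeta N ℚ L with hζdef
  have hirr : Irreducible (Polynomial.cyclotomic N ℚ) := Polynomial.cyclotomic.irreducible_rat hN
  let c : L ≃ₐ[ℚ] L := IsCyclotomicExtension.fromZetaAut (hζ.inv) hirr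
  have hc : c ζ = ζ⁻¹ := IsCyclotomicExtension.fromZetaAut_spec (hζ.inv) hirr
  obtain ⟨M, hM⟩ := hqN
  have hz : IsPrimitiveRoot (ζ ^ M) q := hζ.pow hN (by rw [hM]; ring)
  set z := ζ ^ M with hzdef
  have hz0 : z ≠ 0 := hz.ne_zero hq.ne_zero
  have hcz : c z = z⁻¹ := by rw [hzdef, map_pow, hc, inv_pow]
  have hp0 : (p : L) ≠ 0 := by exact_mod_cast hp.ne_zero
  -- every conjugate of a `q`-th root of `p` is a multiple by a power of `z`
  have key : ∀ (σ : L ≃ₐ[ℚ] L) (x : L), x ^ q = p → ∃ k : ℕ, σ x = z ^ k * x := by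
    intro σ x hx
    have hx0 : x ≠ 0 := by
      rintro rfl
      rw [zero_pow hq.ne_zero] at hx
      exact hp0 hx.symm
    have h1 : (σ x / x) ^ q = 1 := by
      rw [div_pow, ← map_pow, hx, map_natCast, div_self hp0]
    obtain ⟨k, _, hk⟩ := hz.eq_pow_of_pow_eq_one h1
    exact ⟨k, by rw [hk, div_mul_cancel₀ _ hx0]⟩
  -- normalise `y`
  obtain ⟨j, hj⟩ := key c y hy
  obtain ⟨h, hh⟩ : ∃ h, q + 1 = 2 * h := by
    rcases hq.eq_two_or_odd' with h | h
    · exact absurd h hq2
    · obtain ⟨k, hk⟩ := h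
      exact ⟨k + 1, by omega⟩
  have hzq : z ^ q = 1 := hz.pow_eq_one
  set x := z ^ (j * h) * y with hx
  have hxq : x ^ q = p := by
    rw [hx, mul_pow, ← pow_mul, mul_comm (j * h) q, pow_mul, hzq, one_pow, one_mul, hy]
  have hx0 : x ≠ 0 := by
    intro h0
    rw [h0, zero_pow hq.ne_zero] at hxq
    exact hp0 hxq.symm
  have hcx : c x = x := by
    rw [hx, map_mul, map_pow, hcz, hj]
    have e1 : z ^ (j * h) * z ^ (j * h) = z ^ j := by
      rw [← pow_add, ← two_mul, mul_comm 2, mul_assoc, mul_comm h 2, ← hh, Nat.mul_add, mul_one,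
        pow_add, mul_comm j q, pow_mul, hzq, one_pow, one_mul]
    have e2 : z ^ (j * h) ≠ 0 := pow_ne_zero _ hz0
    rw [← e1, inv_pow]
    field_simp
  have hfix : ∀ σ : L ≃ₐ[ℚ] L, σ x = x := by
    intro σ
    obtain ⟨k, hk⟩ := key σ x hxq
    have h1 : c (σ x) = σ (c x) := by
      have := hcomm.is_comm.comm c σ
      exact DFunLike.congr_fun this x
    rw [hcx, hk, map_mul, map_pow, hcz, hcx] at h1
    have h2 : (z⁻¹) ^ k = z ^ k := mul_right_cancel₀ hx0 h1
    have h3 : z ^ (2 * k) = 1 := by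
      rw [two_mul, pow_add]
      nth_rewrite 1 [← h2]
      rw [inv_pow, inv_mul_cancel₀ (pow_ne_zero _ hz0)]
    have h4 : q ∣ 2 * k := (hz.pow_eq_one_iff_dvd _).1 h3
    have h5 : q ∣ k := by
      rcases (hq.dvd_mul).1 h4 with h | h
      · exact absurd ((Nat.prime_dvd_prime_iff_eq hq Nat.prime_two).1 h) hq2
      · exact h
    rw [hk, (hz.pow_eq_one_iff_dvd k).2 h5, one_mul]
  obtain ⟨r, hr⟩ := (IsGalois.mem_range_algebraMap_iff_fixed (F := ℚ) x).2 hfix
  refine not_pow_rat p q hp hq r ?_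
  apply (algebraMap ℚ L).injective
  rw [map_pow, hr, hxq, map_natCast]

end Pool.Agent.H916Z
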