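import Mathlib
import Pool.Agent.H484R2.HomExt

/-!
Task NT2: number of homomorphisms `O_K → F_l`.
-/

set_option autoImplicit false

namespace Pool.Agent.H916Z

open NumberField

namespace NT2

/-- clearing denominators -/
lemma clear_den (K : Type) [Field K] [NumberField K] (S : Set (𝓞 K))
    (hS : Algebra.adjoin ℚ ((fun x : 𝓞 K => (x : K)) '' S) = ⊤) (x : K) :
    ∃ D : ℕ, D ≠ 0 ∧ ∃ r ∈ Subring.closure S, (D : K) * x = algebraMap (𝓞 K) K r := by
  have hx : x ∈ Algebra.adjoin ℚ ((fun x : 𝓞 K => (x : K)) '' S) := by rw [hS]; trivial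
  induction hx using Algebra.adjoin_induction with
  | mem x hx =>
    obtain ⟨s, hs, rfl⟩ := hx
    exact ⟨1, one_ne_zero, s, Subring.subset_closure hs, by simp⟩
  | algebraMap q =>
    refine ⟨q.den, q.den_nz, (q.num : 𝓞 K), intCast_mem _ _, ?_⟩
    have h1 : (q.den : ℚ) * q = q.num := by
      rw [mul_comm]; exact q.mul_den_eq_num
    have h2 := congrArg (algebraMap ℚ K) h1
    rw [map_mul, map_natCast, map_intCast] at h2
    rw [h2, map_intCast]
  | add x y _ _ hx hy =>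
    obtain ⟨D, hD, r, hr, h⟩ := hx
    obtain ⟨D', hD', r', hr', h'⟩ := hy
    refine ⟨D * D', mul_ne_zero hD hD', D' * r + D * r',
      add_mem (mul_mem (natCast_mem _ _) hr) (mul_mem (natCast_mem _ _) hr'), ?_⟩
    simp only [map_add, map_mul, map_natCast, Nat.cast_mul]
    rw [← h, ← h']
    ring
  | mul x y _ _ hx hy =>
    obtain ⟨D, hD, r, hr, h⟩ := hx
    obtain ⟨D', hD', r', hr', h'⟩ := hy
    refine ⟨D * D', mul_ne_zero hD hD', r * r', mul_mem hr hr', ?_⟩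
    simp only [map_mul, Nat.cast_mul]
    rw [← h, ← h']
    ring

/-- a homomorphism fixed by Frobenius on `S` is fixed everywhere -/
lemma frob_fixed (K : Type) [Field K] [NumberField K] (S : Set (𝓞 K))
    (hS : Algebra.adjoin ℚ ((fun x : 𝓞 K => (x : K)) '' S) = ⊤) :
    ∃ B : ℕ, ∀ ℓ : ℕ, ℓ.Prime → B < ℓ → ∀ (F : Type) [Field F] [CharP F ℓ] (φ : 𝓞 K →+* F),
      (∀ x ∈ S, φ x ^ ℓ = φ x) → ∀ z : 𝓞 K, φ z ^ ℓ = φ z := by
  classical
  let b := RingOfIntegers.basis K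
  have h := fun i => clear_den K S hS ((b i : 𝓞 K) : K)
  choose D hD r hr hDr using h
  refine ⟨∑ i, D i, ?_⟩
  intro ℓ hℓ hB F _ _ φ hφ z
  have : Fact ℓ.Prime := ⟨hℓ⟩
  set T : Subring (𝓞 K) := RingHom.eqLocus ((frobenius F ℓ).comp φ) φ with hT
  have memT : ∀ x, x ∈ T ↔ φ x ^ ℓ = φ x := by
    intro x
    rw [hT]
    exact Iff.rfl
  have hcl : Subring.closure S ≤ T := by
    rw [Subring.closure_le]
    intro x hx
    exact (memT x).2 (hφ x hx)
  have hbT : ∀ i, b i ∈ T := by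
    intro i
    rw [memT]
    have h1 : (D i : 𝓞 K) * b i = r i := by
      apply RingOfIntegers.coe_injective
      rw [map_mul, map_natCast]
      exact hDr i
    have h2 : φ (D i : 𝓞 K) ≠ 0 := by
      rw [map_natCast]
      intro h0
      rw [CharP.cast_eq_zero_iff F ℓ] at h0
      have h3 : D i ≤ ∑ i, D i := Finset.single_le_sum (fun _ _ => Nat.zero_le _) (Finset.mem_univ i)
      have h4 := Nat.le_of_dvd (Nat.pos_of_ne_zero (hD i)) h0
      omega
    have h3 := (memT _).1 (hcl (hr i))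
    rw [← h1, map_mul, mul_pow] at h3
    have h4 := (memT _).1 (natCast_mem T (D i))
    rw [h4] at h3
    exact mul_left_cancel₀ h2 h3
  rw [← memT]
  have hz : z ∈ Submodule.span ℤ (Set.range b) := by rw [b.span_eq]; trivial
  have hle : Submodule.span ℤ (Set.range b) ≤ T.toAddSubgroup.toIntSubmodule := by
    rw [Submodule.span_le]
    rintro _ ⟨i, rfl⟩
    exact hbT i
  exact hle hz

/-- factorisation through the prime field -/
lemma factor (R F : Type) [CommRing R] [Field F] (ℓ : ℕ) [Fact ℓ.Prime] [CharP F ℓ]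
    (φ : R →+* F) (h : ∀ z, φ z ^ ℓ = φ z) : Nonempty (R →+* ZMod ℓ) := by
  have hr : ∀ z, φ z ∈ (ZMod.castHom (dvd_refl ℓ) F).range := by
    intro z
    have h1 : φ z ∈ (⊥ : Subfield F) := (Subfield.mem_bot_iff_pow_eq_self F ℓ).2 (h z)
    rw [← ZMod.fieldRange_castHom_eq_bot ℓ] at h1
    exact h1
  have hinj : Function.Injective (ZMod.castHom (dvd_refl ℓ) F) := RingHom.injective _
  have hbij : Function.Bijective (ZMod.castHom (dvd_refl ℓ) F).rangeRestrict := by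
    refine ⟨?_, RingHom.rangeRestrict_surjective _⟩
    intro x y hxy
    exact hinj (congrArg Subtype.val hxy)
  exact ⟨(RingEquiv.ofBijective _ hbij).symm.toRingHom.comp (φ.codRestrict _ hr)⟩

/-- Galois translates of a homomorphism are distinct -/
lemma translates (K : Type) [Field K] [NumberField K] [IsGalois ℚ K] :
    ∃ B : ℕ, ∀ ℓ : ℕ, ℓ.Prime → B < ℓ → (𝓞 K →+* ZMod ℓ) →
      Module.finrank ℚ K ≤ Nat.card (𝓞 K →+* ZMod ℓ) := by
  classical
  let G := K ≃ₐ[ℚ] K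
  let act : G → 𝓞 K →+* 𝓞 K := fun σ => RingOfIntegers.mapRingHom σ
  have hact : ∀ (σ : G) (x : 𝓞 K), ((act σ x : 𝓞 K) : K) = σ (x : K) := fun σ x => rfl
  have hsep : ∀ p : {p : G × G // p.1 ≠ p.2}, ∃ x : 𝓞 K, act p.1.1 x ≠ act p.1.2 x := by
    intro ⟨⟨σ, τ⟩, hne⟩
    by_contra hcon
    push Not at hcon
    apply hne
    ext x
    obtain ⟨a, b, hb, rfl⟩ := IsFractionRing.div_surjective (A := 𝓞 K) x
    rw [map_div₀, map_div₀]
    have ha' := congrArg (algebraMap (𝓞 K) K) (hcon a)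
    have hb' := congrArg (algebraMap (𝓞 K) K) (hcon b)
    rw [show σ (algebraMap (𝓞 K) K a) = τ (algebraMap (𝓞 K) K a) from ha',
      show σ (algebraMap (𝓞 K) K b) = τ (algebraMap (𝓞 K) K b) from hb']
  choose x hx using hsep
  let P : 𝓞 K := ∏ p : {p : G × G // p.1 ≠ p.2}, (act p.1.1 (x p) - act p.1.2 (x p))
  have hP : P ≠ 0 := by
    rw [Finset.prod_ne_zero_iff]
    intro p _
    exact sub_ne_zero.2 (hx p)
  refine ⟨Ideal.absNorm (Ideal.span {P}), ?_⟩
  intro ℓ hℓ hB φ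
  have : Fact ℓ.Prime := ⟨hℓ⟩
  have := Pool.Agent.H484R2.hom_finite K ℓ
  rw [← IsGalois.card_aut_eq_finrank ℚ K]
  refine Nat.card_le_card_of_injective (fun σ : G => φ.comp (act σ)) ?_
  intro σ τ hστ
  by_contra hne
  have hmem := Ideal.absNorm_mem (Ideal.span {P})
  rw [Ideal.mem_span_singleton] at hmem
  have h1 : φ P = 0 := by
    rw [map_prod]
    apply Finset.prod_eq_zero (Finset.mem_univ (⟨(σ, τ), hne⟩ : {p : G × G // p.1 ≠ p.2}))
    rw [map_sub, sub_eq_zero]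
    exact RingHom.congr_fun hστ (x ⟨(σ, τ), hne⟩)
  obtain ⟨e, he⟩ := hmem
  have h2 : φ (Ideal.absNorm (Ideal.span {P}) : 𝓞 K) = 0 := by
    rw [he, map_mul, h1, zero_mul]
  rw [map_natCast, ZMod.natCast_eq_zero_iff] at h2
  have h3 : Ideal.absNorm (Ideal.span {P}) ≠ 0 := by
    rw [Ne, Ideal.absNorm_eq_zero_iff, Ideal.span_singleton_eq_bot]
    exact hP
  have h4 := Nat.le_of_dvd (Nat.pos_of_ne_zero h3) h2
  omega

end NT2

/-- Task NT2 (file `NT2.lean`). -/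
theorem hom_count (K : Type) [Field K] [NumberField K] [IsGalois ℚ K] (S : Set (𝓞 K))
    (hS : Algebra.adjoin ℚ ((fun x : 𝓞 K => (x : K)) '' S) = ⊤) :
    ∃ B : ℕ, ∀ ℓ : ℕ, ℓ.Prime → B < ℓ → ∀ (F : Type) [Field F] [CharP F ℓ] (φ : 𝓞 K →+* F),
      (∀ x ∈ S, φ x ^ ℓ = φ x) → Module.finrank ℚ K ≤ Nat.card (𝓞 K →+* ZMod ℓ) := by
  obtain ⟨B1, h1⟩ := NT2.frob_fixed K S hS
  obtain ⟨B2, h2⟩ := NT2.translates K
  refine ⟨B1 + B2, ?_⟩
  intro ℓ hℓ hB F _ _ φ hφ
  have : Fact ℓ.Prime := ⟨hℓ⟩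
  have h3 := h1 ℓ hℓ (by omega) F φ hφ
  obtain ⟨φ0⟩ := NT2.factor (𝓞 K) F ℓ φ h3
  exact h2 ℓ hℓ (by omega) φ0

end Pool.Agent.H916Z
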