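import Mathlib

set_option autoImplicit false
set_option linter.style.haveILetI false

namespace Pool.Agent.H916Z

open IntermediateField Polynomial Module

variable {F : Type} [Field F] [CharZero F] {Om : Type} [Field Om] [Algebra F Om]

lemma cheb_mem (K : IntermediateField F Om) (z : Om) (hz : z ≠ 0) (h : z + z⁻¹ ∈ K) (i : ℕ) :
    z ^ i + (z ^ i)⁻¹ ∈ K := by
  induction i using Nat.strong_induction_on with
  | _ i ih =>
    match i with
    | 0 => simpa using add_mem (one_mem K) (one_mem K)
    | 1 => simpa using h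
    | (i + 2) =>
      have h1 := ih (i + 1) (by omega)
      have h2 := ih i (by omega)
      have h3 : z ^ (i + 2) + (z ^ (i + 2))⁻¹ =
          (z + z⁻¹) * (z ^ (i + 1) + (z ^ (i + 1))⁻¹) - (z ^ i + (z ^ i)⁻¹) := by
        field_simp
        ring
      rw [h3]
      exact sub_mem (mul_mem h h1) h2

variable (F) in
/-- the field -/
noncomputable def KK (q E n : ℕ) (zeta y : Om) : IntermediateField F Om :=
  IntermediateField.adjoin F {zeta ^ n, zeta ^ (q ^ E) + (zeta ^ (q ^ E))⁻¹, y}

lemma z_mem (q E n : ℕ) (zeta y : Om) : zeta ^ n ∈ KK F q E n zeta y :=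
  IntermediateField.subset_adjoin _ _ (by simp)

lemma w_mem (q E n : ℕ) (zeta y : Om) :
    zeta ^ (q ^ E) + (zeta ^ (q ^ E))⁻¹ ∈ KK F q E n zeta y :=
  IntermediateField.subset_adjoin _ _ (by simp)

lemma y_mem (q E n : ℕ) (zeta y : Om) : y ∈ KK F q E n zeta y :=
  IntermediateField.subset_adjoin _ _ (by simp)

variable [CharZero Om] [IsAlgClosure F Om]

lemma KK_normal (p q E n : ℕ) (hp : p.Prime) (hE : 1 ≤ E) (hn : 0 < n) (hq : 0 < q)
    (zeta y : Om) (hz : IsPrimitiveRoot zeta (n * q ^ E)) (hy : y ^ q = (p : Om)) :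
    Normal F (KK F q E n zeta y) := by
  haveI : Normal F Om := IsAlgClosure.normal F Om
  have hN : 0 < n * q ^ E := by positivity
  haveI : NeZero (n * q ^ E) := ⟨hN.ne'⟩
  have hz0 : zeta ≠ 0 := hz.ne_zero hN.ne'
  have hy0 : y ≠ 0 := by
    rintro rfl
    rw [zero_pow hq.ne'] at hy
    have : (p : Om) ≠ 0 := Nat.cast_ne_zero.mpr hp.ne_zero
    exact this hy.symm
  rw [IntermediateField.normal_iff_forall_map_le]
  intro σ
  rw [KK, IntermediateField.adjoin_map, IntermediateField.adjoin_le_iff]
  rintro _ ⟨x, hx, rfl⟩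
  change σ x ∈ KK F q E n zeta y
  obtain ⟨i, _, hi⟩ := hz.eq_pow_of_pow_eq_one (ξ := σ zeta)
    (by rw [← map_pow, hz.pow_eq_one, map_one]) 
  rcases hx with rfl | rfl | rfl
  · rw [map_pow, ← hi, ← pow_mul, mul_comm, pow_mul]
    exact pow_mem (z_mem q E n zeta y) i
  · rw [map_add, map_inv₀, map_pow, ← hi, ← pow_mul, mul_comm, pow_mul]
    exact cheb_mem _ _ (pow_ne_zero _ hz0) (w_mem q E n zeta y) i
  · have h1 : (σ x / x) ^ q = 1 := by
      rw [div_pow, ← map_pow, hy, map_natCast, div_self]
      exact Nat.cast_ne_zero.mpr hp.ne_zero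
    have h2 : IsPrimitiveRoot (zeta ^ (n * q ^ (E - 1))) q := by
      refine hz.pow hN ?_
      rw [mul_assoc, ← pow_succ, Nat.sub_add_cancel hE]
    haveI : NeZero q := ⟨hq.ne'⟩
    obtain ⟨j, _, hj⟩ := h2.eq_pow_of_pow_eq_one h1
    have h3 : σ x = (((zeta ^ n) ^ (q ^ (E - 1))) ^ j) * x := by
      rw [← pow_mul zeta, hj]
      field_simp
    rw [h3]
    exact mul_mem (pow_mem (pow_mem (z_mem q E n zeta x) _) _) (y_mem q E n zeta x)

omit [CharZero F] [CharZero Om] in
lemma isInt (K : IntermediateField F Om) (x : Om) : IsIntegral K x := by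
  haveI : Algebra.IsAlgebraic F Om := IsAlgClosure.isAlgebraic
  haveI : Algebra.IsIntegral F Om := inferInstance
  exact (Algebra.IsIntegral.isIntegral (R := F) x).tower_top

omit [CharZero F] [CharZero Om] in
lemma isInt' (x : Om) : IsIntegral F x := by
  haveI : Algebra.IsAlgebraic F Om := IsAlgClosure.isAlgebraic
  haveI : Algebra.IsIntegral F Om := inferInstance
  exact Algebra.IsIntegral.isIntegral (R := F) x

omit [CharZero F] [CharZero Om] in
lemma KK_fin (q E n : ℕ) (zeta y : Om) : FiniteDimensional F (KK F q E n zeta y) := by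
  unfold KK
  have : Finite ({zeta ^ n, zeta ^ (q ^ E) + (zeta ^ (q ^ E))⁻¹, y} : Set Om) := by
    exact Set.toFinite _
  exact IntermediateField.finiteDimensional_adjoin fun x _ => isInt' x

omit [CharZero Om] in
lemma KK_degree (p q E n : ℕ) (hq : q.Prime) (hE : 1 ≤ E) (hn : 0 < n)
    (hqn : ¬ q ∣ n) (zeta y : Om) (hz : IsPrimitiveRoot zeta (n * q ^ E)) (hy : y ^ q = (p : Om))
    (hirrN : Irreducible (Polynomial.cyclotomic (n * q ^ E) F))
    (hpow : ∀ b : IntermediateField.adjoin F {zeta}, b ^ q ≠ (p : IntermediateField.adjoin F {zeta})) :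
    q * (n * q ^ E).totient ≤ 2 * finrank F (KK F q E n zeta y) := by
  have hN : 0 < n * q ^ E := Nat.mul_pos hn (pow_pos hq.pos _)
  haveI : NeZero (n * q ^ E) := ⟨hN.ne'⟩
  have hz0 : zeta ≠ 0 := hz.ne_zero hN.ne'
  set N := n * q ^ E with hNdef
  -- the cyclotomic field
  set L : IntermediateField F Om := IntermediateField.adjoin F {zeta} with hL
  haveI hcyc : IsCyclotomicExtension {N} F L := hz.intermediateField_adjoin_isCyclotomicExtension F
  haveI : FiniteDimensional F L := IsCyclotomicExtension.finiteDimensional {N} F L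
  have hfL : finrank F L = N.totient :=
    IsCyclotomicExtension.finrank L hirrN
  have hirr : Irreducible (X ^ q - C (p : L) : L[X]) := by
    exact X_pow_sub_C_irreducible_of_prime hq hpow
  set M : IntermediateField L Om := IntermediateField.adjoin L {y} with hM
  have hyint : IsIntegral L y := isInt L y
  have hmin : minpoly L y = X ^ q - C (p : L) := by
    symm
    refine minpoly.eq_of_irreducible_of_monic hirr ?_ (monic_X_pow_sub_C _ hq.ne_zero)
    simp [hy]
  have hfM : finrank L M = q := by
    rw [hM, IntermediateField.adjoin.finrank hyint, hmin, natDegree_X_pow_sub_C]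
  haveI : FiniteDimensional L M := IntermediateField.adjoin.finiteDimensional hyint
  have hfM' : finrank F M = N.totient * q := by
    rw [← hfL, ← hfM, Module.finrank_mul_finrank F L M]
  -- the other tower
  set K := KK F q E n zeta y with hK
  haveI : FiniteDimensional F K := KK_fin q E n zeta y
  set ζ : Om := zeta ^ (q ^ E) with hζ
  have hζ0 : ζ ≠ 0 := pow_ne_zero _ hz0
  have hζint : IsIntegral K ζ := isInt K ζ
  set M' : IntermediateField K Om := IntermediateField.adjoin K {ζ} with hM'
  haveI : FiniteDimensional K M' := IntermediateField.adjoin.finiteDimensional hζint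
  haveI : FiniteDimensional F M' := FiniteDimensional.trans F K M'
  have hfM2 : finrank K M' ≤ 2 := by
    rw [hM', IntermediateField.adjoin.finrank hζint]
    have hmonic : (X ^ 2 - C (⟨ζ + ζ⁻¹, w_mem q E n zeta y⟩ : K) * X + 1 : K[X]).Monic := by
      monicity!
    have hdeg : (X ^ 2 - C (⟨ζ + ζ⁻¹, w_mem q E n zeta y⟩ : K) * X + 1 : K[X]).natDegree ≤ 2 := by
      compute_degree
    refine (natDegree_le_of_dvd (minpoly.dvd K ζ ?_) hmonic.ne_zero).trans hdeg
    simp only [map_add, map_sub, map_mul, map_pow, aeval_X, aeval_C, map_one]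
    change ζ ^ 2 - (ζ + ζ⁻¹) * ζ + 1 = 0
    field_simp
    ring
  have hfM'' : finrank F M' ≤ 2 * finrank F K := by
    rw [← Module.finrank_mul_finrank F K M', mul_comm]
    exact Nat.mul_le_mul_right _ hfM2
  -- inclusion
  have hzetaM' : zeta ∈ M' := by
    have h1 : zeta ^ n ∈ M' := by
      have := IntermediateField.algebraMap_mem M' (⟨zeta ^ n, z_mem q E n zeta y⟩ : K)
      exact this
    have h2 : zeta ^ (q ^ E) ∈ M' := IntermediateField.subset_adjoin _ _ (by simp [hζ])
    have hcop : Nat.Coprime n (q ^ E) :=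
      Nat.Coprime.pow_right _ ((Nat.Prime.coprime_iff_not_dvd hq).mpr hqn).symm
    have hbez := Nat.gcd_eq_gcd_ab n (q ^ E)
    rw [hcop.gcd_eq_one] at hbez
    have h3 : zeta = (zeta ^ n) ^ (Nat.gcdA n (q ^ E)) * (zeta ^ (q ^ E)) ^ (Nat.gcdB n (q ^ E)) := by
      rw [← zpow_natCast, ← zpow_natCast, ← zpow_mul, ← zpow_mul, ← zpow_add₀ hz0]
      rw [← hbez]
      simp
    rw [h3]
    exact mul_mem (zpow_mem h1 _) (zpow_mem h2 _)
  have hle : M.restrictScalars F ≤ M'.restrictScalars F := by
    rw [hM, IntermediateField.restrictScalars_adjoin, IntermediateField.adjoin_le_iff,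
      Set.union_subset_iff]
    constructor
    · have : L ≤ M'.restrictScalars F := by
        rw [hL, IntermediateField.adjoin_le_iff, Set.singleton_subset_iff]
        exact hzetaM'
      exact this
    · rw [Set.singleton_subset_iff]
      have := IntermediateField.algebraMap_mem M' (⟨y, y_mem q E n zeta y⟩ : K)
      exact this
  have hfin : finrank F M ≤ finrank F M' := by
    have h1 : Module.Finite F (Subalgebra.toSubmodule (M'.restrictScalars F).toSubalgebra) := by
      exact (inferInstance : Module.Finite F M')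
    have := Submodule.finrank_mono (R := F)
      (s := Subalgebra.toSubmodule (M.restrictScalars F).toSubalgebra)
      (t := Subalgebra.toSubmodule (M'.restrictScalars F).toSubalgebra) hle
    exact this
  calc q * N.totient = finrank F M := by rw [hfM', mul_comm]
    _ ≤ finrank F M' := hfin
    _ ≤ _ := hfM''

end Pool.Agent.H916Z
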