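import Mathlib
import Pool.Agent.H916Z.NT1
import Pool.Agent.H916Z.NT2
import Pool.Agent.H916Z.NT3a

set_option autoImplicit false
set_option linter.style.haveILetI false

namespace Pool.Agent.H916Z

open NumberField IntermediateField Polynomial Module

/-- the ring of all algebraic integers has residue fields of characteristic `ℓ` -/
lemma exists_res (Om : Type) [Field Om] [CharZero Om] (ℓ : ℕ) (hℓ : ℓ.Prime) :
    ∃ (Fd : Type) (_ : Field Fd) (_ : CharP Fd ℓ), Nonempty (integralClosure ℤ Om →+* Fd) := by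
  set R := integralClosure ℤ Om with hR
  have hne : Ideal.span {((ℓ : ℕ) : R)} ≠ ⊤ := by
    intro h
    rw [Ideal.span_singleton_eq_top] at h
    obtain ⟨u, hu⟩ := h.exists_right_inv
    have h1 : ((ℓ : ℕ) : Om) * (u : Om) = 1 := by
      have := congrArg (Subtype.val) hu
      simpa using this
    have hℓ0 : ((ℓ : ℕ) : Om) ≠ 0 := Nat.cast_ne_zero.mpr hℓ.ne_zero
    have h2 : (u : Om) = algebraMap ℚ Om ((ℓ : ℚ)⁻¹) := by
      rw [map_inv₀, map_natCast]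
      field_simp
      rw [mul_comm]
      exact h1
    have h3 : IsIntegral ℤ (algebraMap ℚ Om ((ℓ : ℚ)⁻¹)) := by
      rw [← h2]
      exact u.2
    rw [isIntegral_algebraMap_iff (algebraMap ℚ Om).injective] at h3
    obtain ⟨k, hk⟩ := IsIntegrallyClosed.isIntegral_iff.mp h3
    have hk' : (k : ℚ) = (ℓ : ℚ)⁻¹ := hk
    have hℓq : (ℓ : ℚ) ≠ 0 := Nat.cast_ne_zero.mpr hℓ.ne_zero
    have h4 : (k : ℚ) * ℓ = 1 := by
      rw [hk']
      field_simp
    have h5 : k * ℓ = 1 := by exact_mod_cast h4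
    have h6 : IsUnit (ℓ : ℤ) := IsUnit.of_mul_eq_one k (by rw [mul_comm]; exact h5)
    rw [Int.isUnit_iff] at h6
    have := hℓ.one_lt
    omega
  obtain ⟨P, hP, hle⟩ := Ideal.exists_le_maximal _ hne
  haveI := hP
  letI : Field (R ⧸ P) := Ideal.Quotient.field P
  have h0 : ((ℓ : ℕ) : R ⧸ P) = 0 := by
    have : (Ideal.Quotient.mk P) ((ℓ : ℕ) : R) = 0 := by
      rw [Ideal.Quotient.eq_zero_iff_mem]
      exact hle (Ideal.mem_span_singleton_self _)
    simpa using this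
  exact ⟨R ⧸ P, inferInstance, (CharP.charP_iff_prime_eq_zero hℓ).mpr h0,
    ⟨Ideal.Quotient.mk P⟩⟩

lemma pow_eq_self_of (R : Type) [Monoid R] (x : R) (m ℓ : ℕ) (hx : x ^ m = 1) (h1 : 1 ≤ ℓ)
    (h : m ∣ ℓ - 1) : x ^ ℓ = x := by
  obtain ⟨k, hk⟩ := h
  have : ℓ = m * k + 1 := by omega
  rw [this, pow_succ, pow_mul, hx, one_pow, one_mul]

lemma pow_eq_inv_of (R : Type) [CommMonoid R] (x x' : R) (m ℓ : ℕ) (hx : x ^ m = 1)
    (hxx : x * x' = 1) (h : m ∣ ℓ + 1) : x ^ ℓ = x' := by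
  obtain ⟨k, hk⟩ := h
  calc x ^ ℓ = x ^ ℓ * (x * x') := by rw [hxx, mul_one]
    _ = x ^ (ℓ + 1) * x' := by rw [pow_succ, mul_assoc]
    _ = x' := by rw [hk, pow_mul, hx, one_pow, one_mul]

/-- a root `Y` of `Y^q = p` in a field of characteristic `ℓ`, `q ∣ ℓ - 1`, `p` a `q`-th power
modulo `ℓ` -/
lemma root_frob (Fd : Type) [Field Fd] (ℓ : ℕ) [Fact ℓ.Prime] [CharP Fd ℓ] (p q : ℕ)
    (hp : ¬ ℓ ∣ p) (hq : 0 < q) (hqℓ : q ∣ ℓ - 1) (y0 : ZMod ℓ) (hy0 : y0 ^ q = (p : ZMod ℓ)) (Y : Fd)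
    (hY : Y ^ q = (p : Fd)) : Y ^ ℓ = Y := by
  have hℓ : ℓ.Prime := Fact.out
  set c : ZMod ℓ →+* Fd := ZMod.castHom (dvd_refl ℓ) Fd with hc
  have hp0 : (p : Fd) ≠ 0 := by
    rw [Ne, CharP.cast_eq_zero_iff Fd ℓ p]
    exact hp
  have h1 : (c y0) ^ q = (p : Fd) := by rw [← map_pow, hy0, map_natCast]
  have h2 : c y0 ≠ 0 := by
    intro h
    rw [h, zero_pow hq.ne'] at h1
    exact hp0 h1.symm
  have h3 : (c y0) ^ ℓ = c y0 := by rw [← map_pow, ZMod.pow_card]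
  have h4 : (Y / c y0) ^ q = 1 := by rw [div_pow, hY, h1, div_self hp0]
  have h5 : (Y / c y0) ^ ℓ = Y / c y0 := pow_eq_self_of Fd _ q ℓ h4 hℓ.one_lt.le hqℓ
  rw [div_pow, h3] at h5
  field_simp at h5
  exact h5

lemma final_transfer (K : Type) [Field K] [CharZero K] [A : Algebra ℚ K] [FiniteDimensional ℚ K]
    [Normal ℚ K] (S : Set K) (hS : Algebra.adjoin ℚ S = ⊤) (hSint : ∀ x ∈ S, IsIntegral ℤ x) :
    ∃ (_ : NumberField K) (B : ℕ), ∀ ℓ : ℕ, ℓ.Prime → B < ℓ → ∀ (Fd : Type) [Field Fd]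
      [CharP Fd ℓ] (φ : 𝓞 K →+* Fd), (∀ x : 𝓞 K, (x : K) ∈ S → φ x ^ ℓ = φ x) →
      finrank ℚ K ≤ Nat.card (𝓞 K →+* ZMod ℓ) := by
  obtain rfl : A = DivisionRing.toRatAlgebra := Subsingleton.elim _ _
  haveI hnf : NumberField K := ⟨⟩
  haveI : IsGalois ℚ K := ⟨⟩
  refine ⟨hnf, ?_⟩
  have hS' : Algebra.adjoin ℚ ((fun x : 𝓞 K => (x : K)) '' {x : 𝓞 K | (x : K) ∈ S}) = ⊤ := by
    have : (fun x : 𝓞 K => (x : K)) '' {x : 𝓞 K | (x : K) ∈ S} = S := by
      ext x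
      constructor
      · rintro ⟨y, hy, rfl⟩
        exact hy
      · intro hx
        exact ⟨⟨x, hSint x hx⟩, hx, rfl⟩
    rw [this, hS]
  obtain ⟨B, hB⟩ := hom_count K {x : 𝓞 K | (x : K) ∈ S} hS'
  exact ⟨B, fun ℓ h1 h2 Fd _ _ φ hφ => hB ℓ h1 h2 Fd φ hφ⟩

lemma adj_top {F : Type} [Field F] [CharZero F] {Om : Type} [Field Om] [Algebra F Om]
    [IsAlgClosure F Om] (q E n : ℕ) (zeta y : Om) :
    Algebra.adjoin F (Subtype.val ⁻¹' ({zeta ^ n, zeta ^ (q ^ E) + (zeta ^ (q ^ E))⁻¹, y} : Set Om) :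
      Set (KK F q E n zeta y)) = ⊤ := by
  set K := KK F q E n zeta y with hK
  set T : Set Om := {zeta ^ n, zeta ^ (q ^ E) + (zeta ^ (q ^ E))⁻¹, y} with hT
  have hTK : T ⊆ K := by
    intro x hx
    exact IntermediateField.subset_adjoin _ _ hx
  set S : Set K := Subtype.val ⁻¹' T with hSdef
  have h1 : (Algebra.adjoin F S).map K.val = K.toSubalgebra := by
    rw [AlgHom.map_adjoin]
    have : (K.val '' S) = T := by
      rw [hSdef]
      exact (Subtype.image_preimage_val (K : Set Om) T).trans (Set.inter_eq_right.mpr hTK)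
    rw [this, hK, KK]
    exact (IntermediateField.adjoin_toSubalgebra_of_isAlgebraic
      fun x _ => (isInt' (F := F) x).isAlgebraic).symm
  rw [eq_top_iff]
  rintro x -
  have h2 : (x : Om) ∈ (Algebra.adjoin F S).map K.val := by
    rw [h1]
    exact x.2
  obtain ⟨x', hx', hxx⟩ := h2
  have : x' = x := Subtype.val_injective hxx
  rw [← this]
  exact hx'

lemma hom_part_aux (Om : Type) [Field Om] [CharZero Om] [Algebra ℚ Om] [IsAlgClosure ℚ Om]
    (p q E n : ℕ) (hp : p.Prime) (hq : q.Prime) (hE : 1 ≤ E)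
    (hn : 0 < n) (hqn : ¬ q ∣ n) (zeta y : Om)
    (hz : IsPrimitiveRoot zeta (n * q ^ E)) (hy : y ^ q = (p : Om))
    (hpow : ∀ b : IntermediateField.adjoin ℚ {zeta},
      b ^ q ≠ (p : IntermediateField.adjoin ℚ {zeta})) :
    ∃ (K : Type) (_ : Field K) (_ : NumberField K) (B : ℕ), ∀ ℓ : ℕ, ℓ.Prime → B < ℓ →
      n ∣ ℓ + 1 → q ^ E ∣ ℓ - 1 → (∃ y0 : ZMod ℓ, y0 ^ q = (p : ZMod ℓ)) →
      q * (n * q ^ E).totient ≤ 2 * Nat.card (𝓞 K →+* ZMod ℓ) := by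
  have hN : 0 < n * q ^ E := Nat.mul_pos hn (pow_pos hq.pos _)
  haveI : NeZero (n * q ^ E) := ⟨hN.ne'⟩
  have hz0 : zeta ≠ 0 := hz.ne_zero hN.ne'
  have hdeg := KK_degree (F := ℚ) p q E n hq hE hn hqn zeta y hz hy
    (Polynomial.cyclotomic.irreducible_rat hN) hpow
  have hnormal := KK_normal (F := ℚ) p q E n hp hE hn hq.pos zeta y hz hy
  have hfd := KK_fin (F := ℚ) q E n zeta y
  set K := KK ℚ q E n zeta y with hK
  set T : Set Om := {zeta ^ n, zeta ^ (q ^ E) + (zeta ^ (q ^ E))⁻¹, y} with hT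
  -- integrality
  have hzint : IsIntegral ℤ zeta := hz.isIntegral hN
  have hzinv : IsIntegral ℤ (zeta⁻¹) := hz.inv.isIntegral hN
  have hyint : IsIntegral ℤ y := by
    refine IsIntegral.of_pow hq.pos ?_
    rw [hy]
    exact isIntegral_natCast p
  have hwint : IsIntegral ℤ (zeta ^ (q ^ E) + (zeta ^ (q ^ E))⁻¹) := by
    rw [← inv_pow]
    exact (hzint.pow _).add (hzinv.pow _)
  have hTint : ∀ x ∈ T, IsIntegral ℤ x := by
    intro x hx
    rcases hx with rfl | rfl | rfl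
    · exact hzint.pow _
    · exact hwint
    · exact hyint
  set S : Set K := Subtype.val ⁻¹' T with hSdef
  have hTK : T ⊆ K := by
    intro x hx
    exact IntermediateField.subset_adjoin _ _ hx
  set ι : K →+* Om := SubringClass.subtype K with hι
  have hSint : ∀ x ∈ S, IsIntegral ℤ x := by
    intro x hx
    have h1 : IsIntegral ℤ (x : Om) := hTint _ hx
    exact (isIntegral_algHom_iff ι.toIntAlgHom Subtype.val_injective).mp h1
  obtain ⟨hnf, B, hB⟩ := final_transfer K (A := K.algebra') S (adj_top (F := ℚ) q E n zeta y) hSint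
  refine ⟨K, inferInstance, hnf, max B p, fun ℓ hℓ hBℓ hnℓ hqℓ ⟨y0, hy0⟩ => ?_⟩
  haveI : Fact ℓ.Prime := ⟨hℓ⟩
  refine hdeg.trans (Nat.mul_le_mul_left 2 ?_)
  obtain ⟨Fd, _, _, ⟨ψ⟩⟩ := exists_res Om ℓ hℓ
  -- the map
  set j : 𝓞 K →+* integralClosure ℤ Om :=
    (ι.comp (algebraMap (𝓞 K) K)).codRestrict (integralClosure ℤ Om)
      (fun x => by
        have h1 : IsIntegral ℤ (x : K) := x.isIntegral_coe
        exact h1.map ι.toIntAlgHom) with hj
  have hjx : ∀ x : 𝓞 K, ((j x : integralClosure ℤ Om) : Om) = ((x : K) : Om) := fun x => rfl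
  refine hB ℓ hℓ ((le_max_left _ _).trans_lt hBℓ) Fd (ψ.comp j) fun x hx => ?_
  have hℓ1 : 1 ≤ ℓ := hℓ.one_lt.le
  rw [RingHom.comp_apply]
  rcases hx with hx | hx | hx
  · -- z
    have h1 : j x ^ ℓ = j x := by
      refine pow_eq_self_of _ _ (q ^ E) ℓ ?_ hℓ1 hqℓ
      apply Subtype.ext
      rw [SubmonoidClass.coe_pow, hjx, hx, ← pow_mul, hz.pow_eq_one]
      rfl
    rw [← map_pow, h1]
  · -- w
    set a : integralClosure ℤ Om := ⟨zeta ^ (q ^ E), hzint.pow _⟩ with ha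
    set b : integralClosure ℤ Om := ⟨(zeta⁻¹) ^ (q ^ E), hzinv.pow _⟩ with hb
    have hab : a * b = 1 := by
      apply Subtype.ext
      change zeta ^ (q ^ E) * (zeta⁻¹) ^ (q ^ E) = 1
      rw [← mul_pow, mul_inv_cancel₀ hz0, one_pow]
    have hba : b * a = 1 := by rw [mul_comm, hab]
    have han : a ^ n = 1 := by
      apply Subtype.ext
      change (zeta ^ (q ^ E)) ^ n = 1
      rw [← pow_mul, mul_comm, hz.pow_eq_one]
    have hbn : b ^ n = 1 := by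
      have : (a * b) ^ n = 1 := by rw [hab, one_pow]
      rw [mul_pow, han, one_mul] at this
      exact this
    have h1 : j x = a + b := by
      apply Subtype.ext
      rw [hjx, hx]
      change _ = zeta ^ (q ^ E) + (zeta⁻¹) ^ (q ^ E)
      rw [inv_pow]
    have h2 : a ^ ℓ = b := pow_eq_inv_of _ _ _ n ℓ han hab hnℓ
    have h3 : b ^ ℓ = a := pow_eq_inv_of _ _ _ n ℓ hbn hba hnℓ
    rw [h1, map_add, add_pow_char, ← map_pow, ← map_pow, h2, h3, add_comm]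
  · -- y
    have h1 : (ψ (j x)) ^ q = (p : Fd) := by
      rw [← map_pow]
      have : j x ^ q = ((p : ℕ) : integralClosure ℤ Om) := by
        apply Subtype.ext
        rw [SubmonoidClass.coe_pow, hjx, hx, hy]
        rfl
      rw [this, map_natCast]
    refine root_frob Fd ℓ p q ?_ hq.pos ?_ y0 hy0 _ h1
    · intro h
      have h2 := Nat.le_of_dvd hp.pos h
      have h3 := (le_max_right B p).trans_lt hBℓ
      omega
    · exact (dvd_pow_self q (by omega)).trans hqℓ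

lemma not_pow_transfer (p q N : ℕ) (hp : p.Prime) (hq : q.Prime) (hq2 : q ≠ 2) (hqN : q ∣ N)
    (hN : 0 < N) (L : Type) [Field L] [CharZero L] [A : Algebra ℚ L] [FiniteDimensional ℚ L]
    [IsCyclotomicExtension {N} ℚ L] (y : L) : y ^ q ≠ (p : L) := by
  obtain rfl : A = DivisionRing.toRatAlgebra := Subsingleton.elim _ _
  haveI hnf : NumberField L := ⟨⟩
  exact not_pow_cyclotomic p q N hp hq hq2 hqN hN L y

lemma acl (k : Type) [Field k] : IsAlgClosure k (AlgebraicClosure k) := inferInstance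

lemma fd_adj {F : Type} [Field F] [CharZero F] {Om : Type} [Field Om] [Algebra F Om]
    [IsAlgClosure F Om] (x : Om) : FiniteDimensional F (IntermediateField.adjoin F {x}) :=
  IntermediateField.adjoin.finiteDimensional (isInt' x)

lemma hom_part_aux2 (Om : Type) [Field Om] [CharZero Om] [Algebra ℚ Om] [IsAlgClosure ℚ Om]
    (p q E n : ℕ) (hp : p.Prime) (hq : q.Prime) (hq2 : q ≠ 2) (hE : 1 ≤ E)
    (hn : 0 < n) (hqn : ¬ q ∣ n) :
    ∃ (K : Type) (_ : Field K) (_ : NumberField K) (B : ℕ), ∀ ℓ : ℕ, ℓ.Prime → B < ℓ →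
      n ∣ ℓ + 1 → q ^ E ∣ ℓ - 1 → (∃ y0 : ZMod ℓ, y0 ^ q = (p : ZMod ℓ)) →
      q * (n * q ^ E).totient ≤ 2 * Nat.card (𝓞 K →+* ZMod ℓ) := by
  haveI : IsAlgClosed Om := IsAlgClosure.isAlgClosed ℚ
  have hN : 0 < n * q ^ E := Nat.mul_pos hn (pow_pos hq.pos _)
  haveI : NeZero (n * q ^ E) := ⟨hN.ne'⟩
  obtain ⟨zeta, hz⟩ : ∃ zeta : Om, IsPrimitiveRoot zeta (n * q ^ E) :=
    HasEnoughRootsOfUnity.exists_primitiveRoot Om (n * q ^ E)
  obtain ⟨y, hy⟩ : ∃ y : Om, y ^ q = (p : Om) := IsAlgClosed.exists_pow_nat_eq _ hq.pos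
  have hcyc := hz.intermediateField_adjoin_isCyclotomicExtension ℚ
  have hfd := fd_adj (F := ℚ) zeta
  exact hom_part_aux Om p q E n hp hq hE hn hqn zeta y hz hy fun b =>
    @not_pow_transfer p q (n * q ^ E) hp hq hq2
      (Dvd.dvd.mul_left (dvd_pow_self q (by omega)) n) hN (IntermediateField.adjoin ℚ {zeta}) _ _
      (IntermediateField.algebra' _) hfd hcyc b

lemma hom_part (p q E n : ℕ) (hp : p.Prime) (hq : q.Prime) (hq2 : q ≠ 2) (hE : 1 ≤ E)
    (hn : 0 < n) (hqn : ¬ q ∣ n) :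
    ∃ (K : Type) (_ : Field K) (_ : NumberField K) (B : ℕ), ∀ ℓ : ℕ, ℓ.Prime → B < ℓ →
      n ∣ ℓ + 1 → q ^ E ∣ ℓ - 1 → (∃ y0 : ZMod ℓ, y0 ^ q = (p : ZMod ℓ)) →
      q * (n * q ^ E).totient ≤ 2 * Nat.card (𝓞 K →+* ZMod ℓ) :=
  @hom_part_aux2 (AlgebraicClosure ℚ) _ _ (AlgebraicClosure.instAlgebra ℚ)
    (acl ℚ) p q E n hp hq hq2 hE hn hqn

end Pool.Agent.H916Z
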