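import Mathlib
import Pool.Agent.Cov.PNT
import Pool.Agent.H484R2.Pit

set_option autoImplicit false
set_option linter.style.haveILetI false

namespace Pool.Agent.H916Z

open NumberField Finset Filter Topology

/-- counting: if every large prime in a residue class has at least `c` homomorphisms, then
`c ≤ φ(N)`. -/
theorem count_part (K : Type) [Field K] [NumberField K] (N : ℕ) [NeZero N] (a : ZMod N)
    (ha : IsUnit a) (c : ℝ) (hc : 0 ≤ c) (B : ℕ)
    (h : ∀ ℓ : ℕ, ℓ.Prime → B < ℓ → (ℓ : ZMod N) = a → c ≤ (Nat.card (𝓞 K →+* ZMod ℓ) : ℝ)) :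
    c * (N.totient : ℝ)⁻¹ ≤ 1 := by
  classical
  have h1 : Tendsto (fun M : ℕ => H332.PIT.TT K M / M) atTop (𝓝 1) :=
    H332.PIT.TT_tendsto (fun t => H484R2.continuation K t)
  have hc' : Tendsto (fun n : ℕ => (n : ℝ)) atTop atTop := tendsto_natCast_atTop_atTop
  have hθ := (Pool.Agent.Cov.PNT.theta_div_tendsto).comp hc'
  have hψ := (Pool.Agent.Cov.PNT.psi_div_tendsto).comp hc'
  have hk := (Pool.Agent.Cov.PNT.pnt_residueClass (q := N) (a := a) ha).comp hc'
  simp only [Function.comp_def, Nat.floor_natCast] at hθ hψ hk
  have hB : Tendsto (fun M : ℕ => c * Chebyshev.theta B / (M : ℝ)) atTop (𝓝 0) :=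
    hc'.const_div_atTop _
  have hlim : Tendsto (fun M : ℕ => H332.PIT.TT K M / M + c * Chebyshev.theta B / (M : ℝ) +
      c * (Chebyshev.psi M / M - Chebyshev.theta M / M)) atTop (𝓝 1) := by
    have := (h1.add hB).add ((hψ.sub hθ).const_mul c)
    simpa using this
  refine le_of_tendsto_of_tendsto' (hk.const_mul c) hlim fun M => ?_
  have hres : ∀ n, ArithmeticFunction.vonMangoldt.residueClass a n =
      if (n : ZMod N) = a then ArithmeticFunction.vonMangoldt n else 0 := by
    intro n
    unfold ArithmeticFunction.vonMangoldt.residueClass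
    rw [Set.indicator_apply]
    rfl
  have key : c * ∑ k ∈ Icc 1 M, ArithmeticFunction.vonMangoldt.residueClass a k ≤
      H332.PIT.TT K M + c * Chebyshev.theta B + c * (Chebyshev.psi M - Chebyshev.theta M) := by
    have e1 : ∑ k ∈ Icc 1 M, ArithmeticFunction.vonMangoldt.residueClass a k =
        ∑ k ∈ (Icc 1 M).filter Nat.Prime, ArithmeticFunction.vonMangoldt.residueClass a k +
        ∑ k ∈ (Icc 1 M).filter (fun k => ¬ Nat.Prime k),
          ArithmeticFunction.vonMangoldt.residueClass a k :=
      (sum_filter_add_sum_filter_not (Icc 1 M) Nat.Prime _).symm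
    have e2 : ∑ k ∈ (Icc 1 M).filter (fun k => ¬ Nat.Prime k),
          ArithmeticFunction.vonMangoldt.residueClass a k ≤
          Chebyshev.psi M - Chebyshev.theta M := by
      have h3 : Chebyshev.psi M - Chebyshev.theta M =
          ∑ k ∈ (Icc 1 M).filter (fun k => ¬ Nat.Prime k), ArithmeticFunction.vonMangoldt k := by
        rw [H332.PIT.psi_eq, H332.PIT.theta_eq, ← H332.PIT.Icc_eq,
          ← sum_filter_add_sum_filter_not (Icc 1 M) Nat.Prime]
        have h4 : ∑ k ∈ (Icc 1 M).filter Nat.Prime, ArithmeticFunction.vonMangoldt k =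
            ∑ p ∈ (Icc 1 M).filter Nat.Prime, Real.log p := by
          refine sum_congr rfl fun p hp => ?_
          rw [ArithmeticFunction.vonMangoldt_apply_prime (mem_filter.mp hp).2]
        rw [h4]
        ring
      rw [h3]
      exact sum_le_sum fun k _ => ArithmeticFunction.vonMangoldt.residueClass_le a k
    have e3 : c * ∑ k ∈ (Icc 1 M).filter Nat.Prime,
        ArithmeticFunction.vonMangoldt.residueClass a k ≤
        H332.PIT.TT K M + c * Chebyshev.theta B := by
      have hTB : c * Chebyshev.theta B = ∑ p ∈ (range (B + 1)).filter Nat.Prime,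
          c * Real.log p := by
        rw [H332.PIT.theta_eq, mul_sum]
      have hTT : H332.PIT.TT K M = ∑ p ∈ (range (M + 1)).filter Nat.Prime,
          (Nat.card (𝓞 K →+* ZMod p) : ℝ) * Real.log p := rfl
      rw [hTB, hTT, H332.PIT.Icc_eq, mul_sum]
      have hlog : ∀ p : ℕ, 0 ≤ Real.log p := fun p => Real.log_natCast_nonneg p
      -- split the left sum into small and large primes
      rw [← sum_filter_add_sum_filter_not ((range (M + 1)).filter Nat.Prime) (fun p => B < p)]
      refine add_le_add ?_ ?_
      · refine (sum_le_sum (f := fun k => c * ArithmeticFunction.vonMangoldt.residueClass a k)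
          (g := fun p : ℕ => (Nat.card (𝓞 K →+* ZMod p) : ℝ) * Real.log p) ?_).trans ?_
        · intro p hp
          rw [mem_filter, mem_filter] at hp
          rw [hres]
          split_ifs with hpa
          · rw [ArithmeticFunction.vonMangoldt_apply_prime hp.1.2]
            exact mul_le_mul_of_nonneg_right (h p hp.1.2 hp.2 hpa) (hlog p)
          · rw [mul_zero]
            exact mul_nonneg (Nat.cast_nonneg _) (hlog p)
        · exact sum_le_sum_of_subset_of_nonneg (filter_subset _ _)
            fun p _ _ => mul_nonneg (Nat.cast_nonneg _) (hlog p)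
      · refine (sum_le_sum (f := fun k => c * ArithmeticFunction.vonMangoldt.residueClass a k)
          (g := fun p : ℕ => c * Real.log p) ?_).trans ?_
        · intro p hp
          rw [mem_filter, mem_filter] at hp
          rw [hres]
          split_ifs with hpa
          · rw [ArithmeticFunction.vonMangoldt_apply_prime hp.1.2]
          · rw [mul_zero]
            exact mul_nonneg hc (hlog p)
        · refine sum_le_sum_of_subset_of_nonneg ?_ fun p _ _ => mul_nonneg hc (hlog p)
          intro p hp
          rw [mem_filter, mem_filter, not_lt] at hp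
          rw [mem_filter, mem_range]
          exact ⟨by omega, hp.1.2⟩
    rw [e1, mul_add]
    exact add_le_add e3 (mul_le_mul_of_nonneg_left e2 hc)
  rcases Nat.eq_zero_or_pos M with rfl | hM
  · simp
  have hM' : (0 : ℝ) < M := by exact_mod_cast hM
  rw [← sub_div, ← mul_div_assoc, ← mul_div_assoc, ← add_div, ← add_div]
  exact div_le_div_of_nonneg_right key hM'.le

end Pool.Agent.H916Z
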