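import Mathlib
import Pool.Agent.H916Z.NT3b
import Pool.Agent.H916Z.NT3c

set_option autoImplicit false
set_option linter.style.haveILetI false

namespace Pool.Agent.H916Z

open NumberField

lemma exists_prime_aux (p q E n B : ℕ) (hp : p.Prime) (hq : q.Prime) (hq2 : q ≠ 2) (hE : 1 ≤ E)
    (hn : 0 < n) (hqn : ¬ q ∣ n) : ∃ ℓ : ℕ, ℓ.Prime ∧ B < ℓ ∧ n ∣ ℓ + 1 ∧ q ^ E ∣ ℓ - 1 ∧
      ∀ y : ZMod ℓ, y ^ q ≠ (p : ZMod ℓ) := by
  by_contra hcon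
  push Not at hcon
  obtain ⟨K, _, _, B', hB'⟩ := hom_part p q E n hp hq hq2 hE hn hqn
  have hqE : 0 < q ^ E := pow_pos hq.pos _
  have hN : 0 < n * q ^ E := Nat.mul_pos hn hqE
  haveI : NeZero (n * q ^ E) := ⟨hN.ne'⟩
  have hcop : Nat.Coprime n (q ^ E) :=
    Nat.Coprime.pow_right _ ((Nat.Prime.coprime_iff_not_dvd hq).mpr hqn).symm
  set e := ZMod.chineseRemainder hcop with he
  set a : ZMod (n * q ^ E) := e.symm (-1, 1) with ha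
  have haunit : IsUnit a := by
    rw [ha]
    refine IsUnit.map e.symm ?_
    rw [Prod.isUnit_iff]
    exact ⟨isUnit_one.neg, isUnit_one⟩
  have hmem : ∀ ℓ : ℕ, (ℓ : ZMod (n * q ^ E)) = a → (ℓ : ZMod n) = -1 ∧ (ℓ : ZMod (q ^ E)) = 1 := by
    intro ℓ h
    have h1 : e (ℓ : ZMod (n * q ^ E)) = (-1, 1) := by rw [h, ha, RingEquiv.apply_symm_apply]
    rw [map_natCast] at h1
    exact ⟨congrArg Prod.fst h1, congrArg Prod.snd h1⟩
  have hdvd : ∀ ℓ : ℕ, ℓ.Prime → (ℓ : ZMod (n * q ^ E)) = a → n ∣ ℓ + 1 ∧ q ^ E ∣ ℓ - 1 := by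
    intro ℓ hℓ h
    obtain ⟨h1, h2⟩ := hmem ℓ h
    constructor
    · rw [← ZMod.natCast_eq_zero_iff]
      push_cast
      rw [h1]
      ring
    · rw [← ZMod.natCast_eq_zero_iff, Nat.cast_sub hℓ.one_lt.le, h2]
      simp
  have hφ : 0 < (n * q ^ E).totient := Nat.totient_pos.mpr hN
  have key := count_part K (n * q ^ E) a haunit ((q : ℝ) * ((n * q ^ E).totient : ℝ) / 2)
    (by positivity) (max B B') (fun ℓ hℓ hBℓ hℓa => by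
      obtain ⟨h1, h2⟩ := hdvd ℓ hℓ hℓa
      have h3 := hcon ℓ hℓ ((le_max_left _ _).trans_lt hBℓ) h1 h2
      have h4 := hB' ℓ hℓ ((le_max_right _ _).trans_lt hBℓ) h1 h2 h3
      have h5 : (q : ℝ) * ((n * q ^ E).totient : ℝ) ≤ 2 * (Nat.card (𝓞 K →+* ZMod ℓ) : ℝ) := by
        exact_mod_cast h4
      linarith)
  have hφ' : (0 : ℝ) < ((n * q ^ E).totient : ℝ) := by exact_mod_cast hφ
  have hq3 : 3 ≤ q := by
    have := hq.two_le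
    omega
  have hq3' : (3 : ℝ) ≤ q := by exact_mod_cast hq3
  have h6 : (q : ℝ) * ((n * q ^ E).totient : ℝ) / 2 * ((n * q ^ E).totient : ℝ)⁻¹ = q / 2 := by
    field_simp
  rw [h6] at key
  linarith

/-- Task NT3. -/
theorem exists_prime (p q E n B : ℕ) (hp : p.Prime) (hq : q.Prime) (hq2 : q ≠ 2) (hn : 0 < n)
    (hqn : ¬ q ∣ n) : ∃ ℓ : ℕ, ℓ.Prime ∧ B < ℓ ∧ (ℓ : ZMod n) = -1 ∧ (ℓ : ZMod (q ^ E)) = 1 ∧
      ∀ y : ZMod ℓ, y ^ q ≠ (p : ZMod ℓ) := by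
  obtain ⟨ℓ, hℓ, hB, h1, h2, h3⟩ := exists_prime_aux p q (E + 1) n B hp hq hq2 (by omega) hn hqn
  refine ⟨ℓ, hℓ, hB, ?_, ?_, h3⟩
  · rw [← ZMod.natCast_eq_zero_iff] at h1
    push_cast at h1
    exact eq_neg_of_add_eq_zero_left h1
  · have h4 : q ^ E ∣ ℓ - 1 := (pow_dvd_pow q (by omega)).trans h2
    rw [← ZMod.natCast_eq_zero_iff, Nat.cast_sub hℓ.one_lt.le, sub_eq_zero] at h4
    simpa using h4

end Pool.Agent.H916Z
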