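import Pool.Agent.H916Z.LemA

/-!
Auxiliary primes.
-/

set_option linter.unusedSectionVars false

namespace Pool.Agent.H916Z

open Finset

/-- the order of a non-residue -/
lemma pow_dvd_order {ℓ p q E F : ℕ} [Fact ℓ.Prime] (hq : q.Prime) (hpℓ : p.Coprime ℓ)
    (hF : 0 < F) (hE : q ^ (E + F) ∣ ℓ - 1) (hnr : ∀ y : ZMod ℓ, y ^ q ≠ (p : ZMod ℓ)) :
    q ^ E ∣ orderOf (uu p ℓ F hpℓ) := by
  have hℓ : ℓ.Prime := Fact.out
  have hℓ1 : 0 < ℓ - 1 := by have := hℓ.one_lt; omega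
  set u : (ZMod ℓ)ˣ := ZMod.unitOfCoprime p hpℓ with hu
  obtain ⟨e, F', hF', hFe⟩ := Nat.exists_eq_pow_mul_and_not_dvd hF.ne' q hq.ne_one
  have heF : e ≤ F := by
    have h1 : q ^ e ≤ F := Nat.le_of_dvd hF (Dvd.intro F' hFe.symm)
    exact (Nat.lt_pow_self hq.one_lt).le.trans h1
  obtain ⟨v, N', hN', hNv⟩ := Nat.exists_eq_pow_mul_and_not_dvd hℓ1.ne' q hq.ne_one
  have hvE : E + e ≤ v := by
    have h1 : q ^ (E + e) ∣ q ^ v * N' := by
      rw [← hNv]; exact dvd_trans (pow_dvd_pow q (by omega)) hE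
    have h2 : Nat.Coprime (q ^ (E + e)) N' :=
      Nat.Coprime.pow_left _ ((hq.coprime_iff_not_dvd).mpr hN')
    exact (Nat.pow_dvd_pow_iff_le_right hq.one_lt).mp (h2.dvd_of_dvd_mul_right h1)
  have hv1 : q ^ v ∣ orderOf u ∨ ¬ q ^ v ∣ orderOf u := em _
  have hcard : Fintype.card (ZMod ℓ)ˣ = ℓ - 1 := ZMod.card_units ℓ
  have hov : q ^ v ∣ orderOf u := by
    rcases Nat.eq_zero_or_pos v with hv0 | hv0
    · rw [hv0, pow_zero]; exact one_dvd _
    by_contra hcon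
    obtain ⟨w, hw⟩ : ∃ w, v = w + 1 := ⟨v - 1, by omega⟩
    have ho : orderOf u ∣ q ^ v * N' := by rw [← hNv, ← hcard]; exact orderOf_dvd_card
    -- the order divides (ℓ - 1) / q
    have ho2 : orderOf u ∣ q ^ w * N' := by
      obtain ⟨a, o', ho', hoo⟩ := Nat.exists_eq_pow_mul_and_not_dvd
        (orderOf_pos u).ne' q hq.ne_one
      have h1 : a ≤ w := by
        by_contra h
        apply hcon
        rw [hoo]
        exact dvd_trans (pow_dvd_pow q (by omega)) (Dvd.intro _ rfl)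
      have h2 : o' ∣ N' := by
        have h3 : o' ∣ q ^ v * N' := dvd_trans (by rw [hoo]; exact Dvd.intro_left _ rfl) ho
        have h4 : Nat.Coprime o' (q ^ v) :=
          Nat.Coprime.pow_right _ ((hq.coprime_iff_not_dvd).mpr ho').symm
        exact h4.dvd_of_dvd_mul_left h3
      rw [hoo]
      exact Nat.mul_dvd_mul (pow_dvd_pow q h1) h2
    obtain ⟨g, hg⟩ := IsCyclic.exists_generator (α := (ZMod ℓ)ˣ)
    have hgo : orderOf g = ℓ - 1 := by
      rw [orderOf_eq_card_of_forall_mem_zpowers hg, Nat.card_eq_fintype_card, hcard]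
    obtain ⟨k, hk⟩ := (mem_powers_iff_mem_zpowers.mpr (hg u))
    have hk' : g ^ k = u := hk
    have h5 : g ^ (k * (q ^ w * N')) = 1 := by
      rw [pow_mul, hk']
      exact orderOf_dvd_iff_pow_eq_one.mp ho2
    have h6 := orderOf_dvd_of_pow_eq_one h5
    rw [hgo, hNv, hw, pow_succ'] at h6
    have h7 : q ∣ k := by
      have h8 : 0 < q ^ w * N' := Nat.mul_pos (pow_pos hq.pos w)
        (Nat.pos_of_ne_zero (by rintro rfl; exact hN' (dvd_zero q)))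
      rw [mul_assoc] at h6
      exact Nat.dvd_of_mul_dvd_mul_right h8 h6
    obtain ⟨k', rfl⟩ := h7
    apply hnr ((g ^ k' : (ZMod ℓ)ˣ) : ZMod ℓ)
    rw [← Units.val_pow_eq_pow_val, ← pow_mul, mul_comm k' q, hk', hu, ZMod.coe_unitOfCoprime]
  -- the power
  have h1 : orderOf u ∣ orderOf (u ^ F) * F := by
    apply orderOf_dvd_of_pow_eq_one
    rw [mul_comm, pow_mul, pow_orderOf_eq_one]
  have h2 : q ^ (E + e) ∣ orderOf (u ^ F) * F := dvd_trans (dvd_trans (pow_dvd_pow q hvE) hov) h1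
  have h3 : q ^ E ∣ orderOf (u ^ F) * F' := by
    rw [pow_add] at h2
    nth_rewrite 2 [hFe] at h2
    have h4 : orderOf (u ^ F) * (q ^ e * F') = (orderOf (u ^ F) * F') * q ^ e := by ring
    rw [h4] at h2
    exact Nat.dvd_of_mul_dvd_mul_right (pow_pos hq.pos e) h2
  have h5 : Nat.Coprime (q ^ E) F' := Nat.Coprime.pow_left _ ((hq.coprime_iff_not_dvd).mpr hF')
  exact h5.dvd_of_dvd_mul_right h3

/-- primes in a given class modulo an odd number modulo which `p` has an order divisible by a high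
power of two -/
theorem exists_prime_two (p n E B : ℕ) (hp : p.Prime) (hp2 : p ≠ 2) (hn0 : 0 < n) (hn : ¬ 2 ∣ n)
    (hpn : p.Coprime n) (t : (ZMod n)ˣ) : ∃ ℓ : ℕ, ℓ.Prime ∧ B < ℓ ∧ (ℓ : ZMod n) = t ∧
      2 ^ E ∣ ℓ - 1 ∧ ∀ y : ZMod ℓ, y ^ 2 ≠ (p : ZMod ℓ) := by
  have hpf : Fact p.Prime := ⟨hp⟩
  obtain ⟨w, hw⟩ := FiniteField.exists_nonsquare (F := ZMod p) (by rwa [ZMod.ringChar_zmod_n])
  have hw0 : w ≠ 0 := by
    rintro rfl
    exact hw ⟨0, by simp⟩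
  have hnz : NeZero n := ⟨hn0.ne'⟩
  -- Chinese remainder
  have hc2n : Nat.Coprime (2 ^ (E + 2)) n :=
    Nat.Coprime.pow_left _ ((Nat.prime_two.coprime_iff_not_dvd).mpr hn)
  have hc2p : Nat.Coprime (2 ^ (E + 2)) p :=
    Nat.Coprime.pow_left _ ((Nat.coprime_primes Nat.prime_two hp).mpr hp2.symm)
  have hcnp : Nat.Coprime (2 ^ (E + 2) * n) p := Nat.Coprime.mul_left hc2p hpn.symm
  obtain ⟨x, hx1, hx2⟩ := Nat.chineseRemainder hc2n 1 (t : ZMod n).val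
  obtain ⟨y, hy1, hy2⟩ := Nat.chineseRemainder hcnp x w.val
  have hyn : y ≡ (t : ZMod n).val [MOD n] := (hy1.of_mul_left _).trans hx2
  have hy2' : y ≡ 1 [MOD 2 ^ (E + 2)] := (hy1.of_mul_right _).trans hx1
  have hcop : y.Coprime (2 ^ (E + 2) * n * p) := by
    apply Nat.Coprime.mul_right (Nat.Coprime.mul_right _ _)
    · rw [Nat.Coprime, hy2.gcd_eq]
      have h1 : ¬ p ∣ w.val := by
        intro h
        apply hw0
        rw [← ZMod.natCast_zmod_val w, ZMod.natCast_eq_zero_iff]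
        exact h
      exact Nat.Coprime.symm ((hp.coprime_iff_not_dvd).mpr h1)
    · rw [Nat.Coprime, hy2'.gcd_eq, Nat.gcd_one_left]
    · rw [Nat.Coprime, hyn.gcd_eq]
      exact ZMod.val_coe_unit_coprime t
  obtain ⟨ℓ, hℓB, hℓ, hℓy⟩ := Nat.forall_exists_prime_gt_and_modEq (max B (max p 2))
    (q := 2 ^ (E + 2) * n * p) (a := y)
    (Nat.mul_pos (Nat.mul_pos (pow_pos two_pos _) hn0) hp.pos).ne' hcop
  have hℓf : Fact ℓ.Prime := ⟨hℓ⟩
  have hℓ2 : 2 < ℓ := lt_of_le_of_lt ((le_max_right _ _).trans (le_max_right _ _)) hℓB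
  have hℓ2E : ℓ ≡ 1 [MOD 2 ^ (E + 2)] := ((hℓy.of_mul_right _).of_mul_right _).trans hy2'
  refine ⟨ℓ, hℓ, lt_of_le_of_lt (le_max_left _ _) hℓB, ?_, ?_, ?_⟩
  · have h1 : ℓ ≡ (t : ZMod n).val [MOD n] := ((hℓy.of_mul_right _).of_mul_left _).trans hyn
    have h2 := (ZMod.natCast_eq_natCast_iff _ _ _).mpr h1
    rw [h2, ZMod.natCast_zmod_val]
  · have h1 : 2 ^ (E + 2) ∣ ℓ - 1 := (Nat.modEq_iff_dvd' hℓ.one_lt.le).mp hℓ2E.symm
    exact dvd_trans (pow_dvd_pow 2 (by omega)) h1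
  · intro z hz
    have h4 : ℓ % 4 = 1 := by
      have h5 : ℓ ≡ 1 [MOD 4] := hℓ2E.of_dvd (by
        rw [show (4 : ℕ) = 2 ^ 2 by norm_num]; exact pow_dvd_pow 2 (by omega))
      exact h5
    have h6 : IsSquare ((p : ℕ) : ZMod ℓ) := ⟨z, by rw [← hz]; ring⟩
    rw [ZMod.exists_sq_eq_prime_iff_of_mod_four_eq_one h4 hp2] at h6
    apply hw
    have h7 : ℓ ≡ w.val [MOD p] := (hℓy.of_mul_left _).trans hy2
    have h8 := (ZMod.natCast_eq_natCast_iff _ _ _).mpr h7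
    rw [h8, ZMod.natCast_zmod_val] at h6
    exact h6

end Pool.Agent.H916Z
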