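import Pool.Agent.H916Z.LemC
import Pool.Agent.H916Z.Primes
import Pool.Agent.H916Z.NT3

/-!
The primary parts prime to the level.
-/

set_option linter.unusedSectionVars false

namespace Pool.Agent.H916Z

open Finset Pool.Agent.H916R2 Pool.Agent.H916T Pool.Agent.H916U

variable {p : ℕ}

/-- the odd value at `- a` -/
lemma sum_neg_of {m M ℓ : ℕ} [NeZero m] (hM : ℓ * m = M) {Q : Type} [AddCommGroup Q]
    {g : ZMod M → Q} (hg : ∀ a, g (-a) = - g a) (s : Multiset (ZMod m)) :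
    (s.map fun a => g (iota ℓ (-a))).sum = - (s.map fun a => g (iota ℓ a)).sum := by
  rw [← Multiset.sum_map_neg]
  congr 1
  apply Multiset.map_congr rfl
  intro a _
  rw [iota_neg hM, hg]

/-- from `ℓ ≡ -1` -/
lemma ev_of_neg_one {m ℓ F K n e q : ℕ} [NeZero m] [Fact ℓ.Prime]
    (hm2 : ¬ 2 ∣ m) (hpm : p.Coprime m) (hpℓ : p.Coprime ℓ) (hF : (p : ZMod m) ^ F = 1)
    (hℓ2 : ℓ ≠ 2) (hℓm : ¬ ℓ ∣ m) (hℓ : (ℓ : ZMod m) = -1) {s : Multiset (ZMod m)}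
    (hK : ∀ (Q : Type) [AddCommGroup Q] (h : ZMod m → Q), IOD p h → K • (s.map h).sum = 0)
    (hKe : K = q ^ e * n) (he : q ^ e ∣ orderOf (uu p ℓ F hpℓ)) : EV p m (2 * n) s := by
  have hℓp : ℓ.Prime := Fact.out
  have hm : 0 < m := NeZero.pos m
  have hz : NeZero (ℓ * m) := ⟨(Nat.mul_pos hℓp.pos hm).ne'⟩
  refine EV.of_level (L := ℓ) hℓp.pos hpℓ ?_
  intro Q _ g hg
  have h1 := lemA (p := p) (s := s) (g := g) (n := n) hm2 hpm rfl hpℓ hF hℓ2 hℓm hK (by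
    obtain ⟨x, hx⟩ := he
    rw [hKe, hx]
    exact ⟨x, by ring⟩) hg.iod
  rw [hℓ] at h1
  simp only [neg_one_mul] at h1
  rw [sum_neg_of rfl hg.iod.od.neg, smul_neg] at h1
  rw [mul_comm, mul_nsmul, two_nsmul]
  nth_rewrite 1 [← h1]
  simp

lemma coprime_of_lt {ℓ n : ℕ} (hn : 0 < n) (h : n < ℓ) : ¬ ℓ ∣ n := fun hd =>
  absurd (Nat.le_of_dvd hn hd) (by omega)

/-- odd primes not dividing the level -/
theorem odd_part {m q : ℕ} [NeZero m] (hp : p.Prime) (hq : q.Prime) (hq2 : q ≠ 2)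
    (hm2 : ¬ 2 ∣ m) (hpm : p.Coprime m) (hqm : ¬ q ∣ m) {s : Multiset (ZMod m)}
    (hs : Rel0 p s) : ∃ n : ℕ, ¬ q ∣ n ∧ EV p m n s := by
  have hm : 0 < m := NeZero.pos m
  obtain ⟨K, hK0, hK⟩ := uniform_torsion hpm s hs
  obtain ⟨e, n, hn, hKe⟩ := Nat.exists_eq_pow_mul_and_not_dvd hK0.ne' q hq.ne_one
  have hF0 : 0 < orderOf (p : ZMod m) := order_pos hpm
  obtain ⟨ℓ, hℓ, hℓB, hℓ1, hℓE, hnr⟩ := exists_prime p q (e + orderOf (p : ZMod m)) m
    (max m (max p 2)) hp hq hq2 hm hqm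
  have hℓf : Fact ℓ.Prime := ⟨hℓ⟩
  have hℓm : m < ℓ := lt_of_le_of_lt (le_max_left _ _) hℓB
  have hℓpp : p < ℓ := lt_of_le_of_lt ((le_max_left _ _).trans (le_max_right _ _)) hℓB
  have hℓ2 : 2 < ℓ := lt_of_le_of_lt ((le_max_right _ _).trans (le_max_right _ _)) hℓB
  have hpℓ : p.Coprime ℓ := (Nat.coprime_primes hp hℓ).mpr hℓpp.ne
  have hE : q ^ (e + orderOf (p : ZMod m)) ∣ ℓ - 1 := by
    rw [← Nat.cast_one, ZMod.natCast_eq_natCast_iff] at hℓE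
    exact (Nat.modEq_iff_dvd' hℓ.one_lt.le).mp hℓE.symm
  refine ⟨2 * n, ?_, ev_of_neg_one hm2 hpm hpℓ (H916T.pow_order p) hℓ2.ne'
    (coprime_of_lt hm hℓm) hℓ1 hK hKe (pow_dvd_order hq hpℓ hF0 hE hnr)⟩
  intro h
  rcases hq.dvd_mul.mp h with h | h
  · exact hq2 ((Nat.prime_dvd_prime_iff_eq hq Nat.prime_two).mp h)
  · exact hn h

/-- all units act trivially modulo two at a suitable level -/
def HU (p : ℕ) : Prop := ∀ m : ℕ, 0 < m → ¬ 2 ∣ m → p.Coprime m →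
  ∃ L : ℕ, 0 < L ∧ p.Coprime L ∧ ¬ 2 ∣ L ∧ AllUnits p m L (L * m)

/-- twice an odd multiple of every relation vanishes eventually -/
def HB (p : ℕ) : Prop := ∀ m : ℕ, 0 < m → ¬ 2 ∣ m → p.Coprime m → ∀ B : Multiset (ZMod m),
  Rel0 p B → ∃ n : ℕ, ¬ 2 ∣ n ∧ EV p m (2 * n) B

theorem hu_odd (hp : p.Prime) (hp2 : p ≠ 2) : HU p := by
  classical
  intro m hm hm2 hpm
  have hmz : NeZero m := ⟨hm.ne'⟩
  have hF0 : 0 < orderOf (p : ZMod m) := order_pos hpm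
  choose ℓ hℓ hℓB hℓt hℓE hnr using fun t : (ZMod m)ˣ =>
    exists_prime_two p m (1 + orderOf (p : ZMod m)) (max m (max p 2)) hp hp2 hm hm2 hpm t
  have hℓ2 : ∀ t, 2 < ℓ t := fun t =>
    lt_of_le_of_lt ((le_max_right _ _).trans (le_max_right _ _)) (hℓB t)
  have hℓp : ∀ t, p < ℓ t := fun t =>
    lt_of_le_of_lt ((le_max_left _ _).trans (le_max_right _ _)) (hℓB t)
  set L := ∏ t : (ZMod m)ˣ, ℓ t with hL
  have hL0 : 0 < L := Finset.prod_pos fun t _ => (hℓ t).pos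
  have hpL : p.Coprime L := by
    apply Nat.Coprime.prod_right
    intro t _
    exact (Nat.coprime_primes hp (hℓ t)).mpr (hℓp t).ne
  have h2L : Nat.Coprime 2 L := by
    apply Nat.Coprime.prod_right
    intro t _
    exact (Nat.coprime_primes Nat.prime_two (hℓ t)).mpr (hℓ2 t).ne
  have hz : NeZero (L * m) := ⟨(Nat.mul_pos hL0 hm).ne'⟩
  refine ⟨L, hL0, hpL, ?_, ?_⟩
  · intro h
    have := Nat.dvd_gcd (dvd_refl 2) h
    rw [h2L.gcd_eq_one] at this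
    omega
  · intro t a
    have hf : Fact (ℓ t).Prime := ⟨hℓ t⟩
    have hpℓ : p.Coprime (ℓ t) := (Nat.coprime_primes hp (hℓ t)).mpr (hℓp t).ne
    rw [← hℓt t]
    have h1 := pow_dvd_order (E := 1) Nat.prime_two hpℓ hF0 (hℓE t) (hnr t)
    rw [pow_one] at h1
    exact c2_prime rfl (Finset.dvd_prod_of_mem ℓ (mem_univ t)) hpℓ (H916T.pow_order p)
      (hℓ2 t).ne' h1 a

theorem hb_odd (hp : p.Prime) (hp2 : p ≠ 2) : HB p := by
  intro m hm hm2 hpm B hB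
  have hmz : NeZero m := ⟨hm.ne'⟩
  obtain ⟨K, hK0, hK⟩ := uniform_torsion hpm B hB
  obtain ⟨e, n, hn, hKe⟩ := Nat.exists_eq_pow_mul_and_not_dvd hK0.ne' 2 (by norm_num)
  refine ⟨n, hn, ?_⟩
  have hF1 : 0 < orderOf (p : ZMod m) := order_pos hpm
  obtain ⟨ℓ', hℓ', hℓB', hℓt', hℓE', hnr'⟩ := exists_prime_two p m
    (e + orderOf (p : ZMod m)) (max m (max p 2)) hp hp2 hm hm2 hpm (-1)
  have hℓf : Fact ℓ'.Prime := ⟨hℓ'⟩
  have hℓm' : m < ℓ' := lt_of_le_of_lt (le_max_left _ _) hℓB'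
  have hℓp' : p < ℓ' := lt_of_le_of_lt ((le_max_left _ _).trans (le_max_right _ _)) hℓB'
  have hℓ2' : 2 < ℓ' := lt_of_le_of_lt ((le_max_right _ _).trans (le_max_right _ _)) hℓB'
  have hpℓ' : p.Coprime ℓ' := (Nat.coprime_primes hp hℓ').mpr hℓp'.ne
  have hneg : ((ℓ' : ℕ) : ZMod m) = -1 := by rw [hℓt']; simp
  exact ev_of_neg_one hm2 hpm hpℓ' (H916T.pow_order p)
    hℓ2'.ne' (coprime_of_lt hm hℓm') hneg hK hKe
    (pow_dvd_order Nat.prime_two hpℓ' hF1 hℓE' hnr')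

/-- the averaged sawtooth at different levels -/
lemma W_iota' {k m0 m : ℕ} [NeZero m0] [NeZero m] (hp : p.Coprime m) (h : k * m0 = m) :
    ∃ r : ℕ, 0 < r ∧ ∀ x : ZMod m0, W p (iota k x : ZMod m) = (k : ℤ) * (r : ℤ) * W p x := by
  have hdvd : m0 ∣ m := Dvd.intro_left k h
  have h1 : orderOf (p : ZMod m0) ∣ orderOf (p : ZMod m) := by
    apply orderOf_dvd_of_pow_eq_one
    have h2 := congrArg (ZMod.castHom hdvd (ZMod m0)) (H916T.pow_order (m := m) p)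
    rwa [map_pow, map_natCast, map_one] at h2
  obtain ⟨r, hr⟩ := h1
  refine ⟨r, ?_, fun x => ?_⟩
  · have h3 : 0 < orderOf (p : ZMod m) := order_pos hp
    rw [hr] at h3
    exact Nat.pos_of_mul_pos_left h3
  unfold W
  have h3 : ∀ j, saw ((p : ZMod m) ^ j * iota k x) = (k : ℤ) * saw ((p : ZMod m0) ^ j * x) := by
    intro j
    have h4 := iota_natMul h (p ^ j) x
    push_cast at h4
    rw [← h4, saw_iota h]
  simp only [h3]
  rw [← mul_sum, hr, mul_comm (orderOf (p : ZMod m0)) r, sum_range_period, nsmul_eq_mul]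
  · ring
  · intro j
    rw [pow_add, H916T.pow_order, mul_one]

/-- the two-primary part -/
theorem two_part {m m1 k : ℕ} (hm : 0 < m) (hk : 0 < k) (hpk : p.Coprime k) (hkm : k * m = m1)
    (hm2 : ¬ 2 ∣ m) (hpm : p.Coprime m) (hU : HU p) (hB : HB p)
    (hodd : ∀ n n1 : ℕ, 0 < n → ¬ 2 ∣ n → k * n = n1 → ∀ B : Multiset (ZMod n1),
      ∃ B' : Multiset (ZMod n), ∀ (Q : Type) [AddCommGroup Q] (g : ZMod n1 → Q), OD g →
        2 • (B.map g).sum = 2 • (B'.map fun b => g (iota k b)).sum)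
    {s : Multiset (ZMod m1)} (hs : Rel0 p s)
    (hpair : ∀ (L M0 M1 : ℕ), 0 < L → p.Coprime L → L * m = M0 → k * M0 = M1 →
      AllUnits p m L M0 → ∃ B : Multiset (ZMod M1), ∀ (Q : Type) [AddCommGroup Q]
        (g : ZMod M1 → Q), TF p g → (s.map fun a => g (iota L a)).sum = 2 • (B.map g).sum) :
    ∃ n : ℕ, ¬ 2 ∣ n ∧ EV p m1 n s := by
  obtain ⟨L, hL0, hpL, h2L, hUL⟩ := hU m hm hm2 hpm
  obtain ⟨B, hBs⟩ := hpair L (L * m) (k * (L * m)) hL0 hpL rfl rfl hUL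
  have hM0 : 0 < L * m := Nat.mul_pos hL0 hm
  have h2M : ¬ 2 ∣ L * m := by
    intro h
    rcases Nat.prime_two.dvd_mul.mp h with h | h
    · exact h2L h
    · exact hm2 h
  have hpM : p.Coprime (L * m) := Nat.Coprime.mul_right hpL hpm
  have hM1 : 0 < k * (L * m) := Nat.mul_pos hk hM0
  have hpM1 : p.Coprime (k * (L * m)) := Nat.Coprime.mul_right hpk hpM
  have hm1 : 0 < m1 := by rw [← hkm]; exact Nat.mul_pos hk hm
  have hz0 : NeZero (L * m) := ⟨hM0.ne'⟩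
  have hz1 : NeZero (k * (L * m)) := ⟨hM1.ne'⟩
  have hz2 : NeZero m1 := ⟨hm1.ne'⟩
  obtain ⟨B', hB'⟩ := hodd (L * m) (k * (L * m)) hM0 h2M rfl B
  have hLm1 : L * m1 = k * (L * m) := by rw [← hkm]; ring
  -- the relations for `B'`
  have hBrel : Rel0 p B' := by
    intro t0
    obtain ⟨t, ht⟩ := ZMod.unitsMap_surjective (Dvd.intro_left k rfl : L * m ∣ k * (L * m)) t0
    have h1 := hBs ℤ _ (W_iod hpM1 t)
    have h2 := hs.iota hLm1 t
    rw [Multiset.map_map] at h2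
    simp only [Function.comp_def] at h2
    rw [h2, hB' ℤ _ (W_iod hpM1 t).iod.od] at h1
    obtain ⟨r, hr00, hr⟩ := W_iota' (k := k) (m0 := L * m) (m := k * (L * m)) hpM1 rfl
    have h3 : ∀ x : ZMod (L * m), W p ((t : ZMod (k * (L * m))) * iota k x) =
        (k : ℤ) * (r : ℤ) * W p ((t0 : ZMod (L * m)) * x) := by
      intro x
      rw [unit_iota rfl, hr, ht]
    simp only [h3] at h1
    rw [Multiset.sum_map_mul_left] at h1
    simpa [hr00.ne', hk.ne'] using h1.symm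
  obtain ⟨n, hn, L', hL', hpL', H⟩ := hB (L * m) hM0 h2M hpM B' hBrel
  refine ⟨n, hn, L' * L, Nat.mul_pos hL' hL0, Nat.Coprime.mul_right hpL' hpL, ?_⟩
  intro c M hLc hc hpc hM Q _ g hg
  obtain ⟨e, rfl⟩ := hLc
  have hzM : NeZero M := ⟨by rw [← hM]; exact (Nat.mul_pos hc hm1).ne'⟩
  have he0 : 0 < L' * e := by
    rcases Nat.eq_zero_or_pos (L' * e) with h0 | h0
    · exfalso
      have : L' * L * e = L' * e * L := by ring
      rw [this, h0, zero_mul] at hc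
      omega
    · exact h0
  have hpe : p.Coprime (L' * e) :=
    Nat.Coprime.coprime_dvd_right ⟨L, by ring⟩ hpc
  have hM' : (L' * e) * (k * (L * m)) = M := by rw [← hM, ← hkm]; ring
  have hg1 : TF p (fun b : ZMod (k * (L * m)) => g (iota (L' * e) b)) := hg.comp_iota hM'
  have h2 := hBs Q _ hg1
  have h3 := hB' Q _ hg1.iod.od
  have h4 := H (L' * e * k) M ⟨e * k, by ring⟩ (Nat.mul_pos he0 hk)
    (Nat.Coprime.mul_right hpe hpk) (by rw [← hM, ← hkm]; ring) Q g hg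
  have e1 : ∀ b : ZMod (L * m), (iota (L' * e) (iota k b : ZMod (k * (L * m))) : ZMod M) =
      iota (L' * e * k) b := fun b => iota_comp hM' b
  have e2 : ∀ a : ZMod m1, (iota (L' * e) (iota L a : ZMod (k * (L * m))) : ZMod M) =
      iota (L' * L * e) a := fun a => by
    rw [iota_comp hM']; congr 1; ring
  simp only [e1] at h3
  simp only [e2] at h2
  rw [h2, h3, ← mul_nsmul', mul_comm n 2]
  exact h4

end Pool.Agent.H916Z
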