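import Pool.Agent.H916Z.LemB
import Pool.Agent.H916Z.Two

/-!
The primary part at an odd prime dividing the level.
-/

set_option linter.unusedSectionVars false

namespace Pool.Agent.H916Z

open Finset Pool.Agent.H916R2 Pool.Agent.H916T Pool.Agent.H916U

variable {p : ℕ}

/-- reindexing -/
lemma sum_reindex {Q : Type} [AddCommGroup Q] {ℓ c : ℕ} (hℓ : 0 < ℓ) (hc : Nat.Coprime c ℓ)
    {F : ℕ → Q} (hF : ∀ i, F (i + ℓ) = F i) :
    ∑ i ∈ range ℓ, F (c * i) = ∑ i ∈ range ℓ, F i := by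
  have hmod : ∀ n, F (n % ℓ) = F n := Function.Periodic.map_mod_nat hF
  have hinj : Set.InjOn (fun i => c * i % ℓ) (range ℓ : Set ℕ) := by
    intro i hi j hj h
    have hi' := mem_range.mp (Finset.mem_coe.mp hi)
    have hj' := mem_range.mp (Finset.mem_coe.mp hj)
    have h1 : c * i ≡ c * j [MOD ℓ] := h
    have h2 : i ≡ j [MOD ℓ] := Nat.ModEq.cancel_left_of_coprime hc.symm h1
    have h3 : i % ℓ = j % ℓ := h2
    rwa [Nat.mod_eq_of_lt hi', Nat.mod_eq_of_lt hj'] at h3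
  have hmaps : Set.MapsTo (fun i => c * i % ℓ) (range ℓ : Set ℕ) (range ℓ : Set ℕ) := by
    intro i _
    exact Finset.mem_coe.mpr (mem_range.mpr (Nat.mod_lt _ hℓ))
  refine Finset.sum_nbij (fun i => c * i % ℓ) ?_ hinj ?_ ?_
  · intro i _; exact mem_range.mpr (Nat.mod_lt _ hℓ)
  · exact Finset.surjOn_of_injOn_of_card_le _ hmaps hinj le_rfl
  · intro i _; exact (hmod _).symm

section

variable {m q r M : ℕ} [NeZero m] {Q : Type} [AddCommGroup Q] {g : ZMod M → Q}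

/-- the divided function -/
noncomputable def ut (q : ℕ) (g : ZMod M → Q) (w : ZMod m) : Q :=
  if q ∣ w.val then 0 else g ((w.val : ℕ) : ZMod M)

lemma val_dvd_iff (hqm : q ∣ m) (x : ℤ) :
    q ∣ ((x : ℤ) : ZMod m).val ↔ (q : ℤ) ∣ x := by
  have h1 : ((x - (((x : ℤ) : ZMod m).val : ℤ) : ℤ) : ZMod m) = 0 := by
    push_cast
    rw [ZMod.natCast_zmod_val, sub_self]
  rw [ZMod.intCast_zmod_eq_zero_iff_dvd] at h1
  have h2 : (q : ℤ) ∣ x - (((x : ℤ) : ZMod m).val : ℤ) :=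
    dvd_trans (Int.natCast_dvd_natCast.mpr hqm) h1
  rw [← Int.natCast_dvd_natCast]
  constructor
  · intro h
    have := dvd_add h2 h
    rwa [sub_add_cancel] at this
  · intro h
    have := dvd_sub h h2
    rwa [sub_sub_cancel] at this

lemma ut_int (hq : q.Prime) (hqm : q ∣ m) (hM : q ^ r * m = M)
    (hsat : ∀ s : ℕ, ∃ (k : ℕ) (u : ℤ), (p : ℤ) ^ k = 1 + (q : ℤ) ^ s * m * u ∧ ¬ (q : ℤ) ∣ u)
    (hg : ∀ a, g ((p : ZMod M) * a) = g a) (x : ℤ) (hx : ¬ (q : ℤ) ∣ x) :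
    ut q g ((x : ℤ) : ZMod m) = g ((x : ℤ) : ZMod M) := by
  unfold ut
  rw [if_neg (by rwa [val_dvd_iff hqm])]
  have h1 : ((x - (((x : ℤ) : ZMod m).val : ℤ) : ℤ) : ZMod m) = 0 := by
    push_cast
    rw [ZMod.natCast_zmod_val, sub_self]
  rw [ZMod.intCast_zmod_eq_zero_iff_dvd] at h1
  have h2 := const_on_classes hq hqm hM hsat hg r 0 (by omega)
    ((((x : ℤ) : ZMod m).val : ℕ) : ℤ) x (by
      rw [Int.natCast_dvd_natCast, val_dvd_iff hqm]; exact hx) (by simpa using h1)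
  rw [← h2]
  push_cast
  rfl

lemma ut_zero (hqm : q ∣ m) (x : ℤ) (hx : (q : ℤ) ∣ x) :
    ut q g ((x : ℤ) : ZMod m) = 0 := by
  unfold ut
  rw [if_pos (by rwa [val_dvd_iff hqm])]

lemma val_int (a : ZMod m) : a = (((a.val : ℕ) : ℤ) : ZMod m) := by
  rw [Int.cast_natCast, ZMod.natCast_zmod_val]

/-- **Lemma B.** -/
theorem lemB {v : ℕ} (hm2 : ¬ 2 ∣ m) (hp : p.Coprime m) (hq : q.Prime) (hq2 : q ≠ 2)
    (hqm : q ∣ m) (hM : q ^ r * m = M)
    (hsat : ∀ s : ℕ, ∃ (k : ℕ) (u : ℤ), (p : ℤ) ^ k = 1 + (q : ℤ) ^ s * m * u ∧ ¬ (q : ℤ) ∣ u)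
    {e : ZMod m} (hee : e * e = 1) (hqe : ((q ^ v : ℕ) : ZMod m) * e = (q ^ v : ℕ))
    (hg : IOD p g) :
    ∃ h : ZMod m → Q, IOD p h ∧
      ∀ y, q ^ r • h y = g (iota (q ^ r) y) - g (iota (q ^ r) (e * y)) := by
  have hqp : Prime (q : ℤ) := Nat.prime_iff_prime_int.mp hq
  have heu : IsUnit e := IsUnit.of_mul_eq_one _ hee
  have hpq : ¬ q ∣ p := by
    intro h
    have h1 := Nat.dvd_gcd h hqm
    rw [hp.gcd_eq_one] at h1
    exact hq.one_lt.ne' (Nat.dvd_one.mp h1)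
  have hφ : OD (fun b : ZMod m => g (iota (q ^ r) b)) := hg.od.comp_iota hM
  -- properties of ut
  have hutneg : ∀ a : ZMod m, ut q g (-a) = - ut q g a := by
    intro a
    rw [val_int a]
    by_cases hd : (q : ℤ) ∣ ((a.val : ℕ) : ℤ)
    · rw [ut_zero hqm _ hd, ← Int.cast_neg, ut_zero hqm _ ((dvd_neg).mpr hd), neg_zero]
    · rw [ut_int hq hqm hM hsat hg.inv _ hd, ← Int.cast_neg,
        ut_int hq hqm hM hsat hg.inv _ (by rwa [dvd_neg]), Int.cast_neg, hg.od.neg]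
  have hutp : ∀ a : ZMod m, ut q g ((p : ZMod m) * a) = ut q g a := by
    intro a
    have h1 : (p : ZMod m) * a = (((p : ℤ) * ((a.val : ℕ) : ℤ) : ℤ) : ZMod m) := by
      push_cast; rw [ZMod.natCast_zmod_val]
    rw [h1]
    conv_rhs => rw [val_int a]
    by_cases hd : (q : ℤ) ∣ ((a.val : ℕ) : ℤ)
    · rw [ut_zero hqm _ hd, ut_zero hqm _ (hd.mul_left _)]
    · have hd2 : ¬ (q : ℤ) ∣ (p : ℤ) * ((a.val : ℕ) : ℤ) := by
        intro h
        rcases hqp.dvd_or_dvd h with h | h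
        · exact hpq (Int.natCast_dvd_natCast.mp h)
        · exact hd h
      rw [ut_int hq hqm hM hsat hg.inv _ hd, ut_int hq hqm hM hsat hg.inv _ hd2]
      have h2 : (((p : ℤ) * ((a.val : ℕ) : ℤ) : ℤ) : ZMod M) =
          (p : ZMod M) * (((a.val : ℕ) : ℤ) : ZMod M) := by push_cast; rfl
      rw [h2, hg.inv]
  have hutq : ∀ a : ZMod m, ut q g ((q : ZMod m) * a) = 0 := by
    intro a
    have h1 : (q : ZMod m) * a = (((q : ℤ) * ((a.val : ℕ) : ℤ) : ℤ) : ZMod m) := by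
      push_cast; rw [ZMod.natCast_zmod_val]
    rw [h1]
    exact ut_zero hqm _ (Dvd.intro _ rfl)
  have hutd : ∀ ℓ d : ℕ, ℓ.Prime → ℓ ≠ 2 → ℓ ≠ q → ℓ * d = m → ∀ a : ZMod m,
      ∑ i ∈ range ℓ, ut q g (a + (i : ZMod m) * (d : ZMod m)) = ut q g ((ℓ : ZMod m) * a) := by
    intro ℓ d hℓ hℓ2 hℓq hℓd a
    set x : ℤ := ((a.val : ℕ) : ℤ) with hx
    have hax : a = ((x : ℤ) : ZMod m) := val_int a
    have hqd : (q : ℤ) ∣ (d : ℤ) := by
      rw [Int.natCast_dvd_natCast]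
      have h1 : q ∣ ℓ * d := by rw [hℓd]; exact hqm
      rcases hq.dvd_mul.mp h1 with h | h
      · exact absurd ((Nat.prime_dvd_prime_iff_eq hq hℓ).mp h).symm hℓq
      · exact h
    have hterm : ∀ i : ℕ, a + (i : ZMod m) * (d : ZMod m) = ((x + i * d : ℤ) : ZMod m) := by
      intro i; rw [hax]; push_cast; rfl
    have hlx : (ℓ : ZMod m) * a = (((ℓ : ℤ) * x : ℤ) : ZMod m) := by
      rw [hax]; push_cast; rfl
    by_cases hd : (q : ℤ) ∣ x
    · rw [hlx, ut_zero hqm _ (hd.mul_left _)]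
      apply sum_eq_zero
      intro i _
      rw [hterm, ut_zero hqm _ (dvd_add hd (hqd.mul_left _))]
    · have hd1 : ∀ y : ℤ, ¬ (q : ℤ) ∣ x + y * d := by
        intro y h
        apply hd
        have h1 := dvd_sub h (hqd.mul_left y)
        rwa [add_sub_cancel_right] at h1
      have hd2 : ¬ (q : ℤ) ∣ (ℓ : ℤ) * x := by
        intro h
        rcases hqp.dvd_or_dvd h with h | h
        · exact hℓq ((Nat.prime_dvd_prime_iff_eq hq hℓ).mp (Int.natCast_dvd_natCast.mp h)).symm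
        · exact hd h
      rw [hlx, ut_int hq hqm hM hsat hg.inv _ hd2]
      -- reindex
      have hper : ∀ i : ℕ, ut q g (a + ((i + ℓ : ℕ) : ZMod m) * (d : ZMod m)) =
          ut q g (a + (i : ZMod m) * (d : ZMod m)) := by
        intro i
        congr 2
        have h1 : ((ℓ * d : ℕ) : ZMod m) = 0 := by rw [hℓd]; simp
        push_cast at h1 ⊢
        linear_combination h1
      have hcop : Nat.Coprime (q ^ r) ℓ :=
        Nat.Coprime.pow_left _ ((Nat.coprime_primes hq hℓ).mpr (Ne.symm hℓq))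
      rw [← sum_reindex (F := fun i : ℕ => ut q g (a + (i : ZMod m) * (d : ZMod m)))
        hℓ.pos hcop hper]
      have h2 := hg.od.odd ℓ (q ^ r * d) hℓ hℓ2 (by rw [← hM, ← hℓd]; ring)
        (((x : ℤ)) : ZMod M)
      have h3 : (((ℓ : ℤ) * x : ℤ) : ZMod M) = (ℓ : ZMod M) * ((x : ℤ) : ZMod M) := by
        push_cast; rfl
      rw [h3, ← h2]
      refine sum_congr rfl fun i _ => ?_
      rw [hterm, ut_int hq hqm hM hsat hg.inv _ (hd1 _)]
      congr 1
      push_cast; ring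
  -- values
  have hutN : ∀ w : ZMod m, (∀ a, w ≠ (q : ZMod m) * a) →
      q ^ r • ut q g w = g (iota (q ^ r) w) := by
    intro w hw
    have hd : ¬ (q : ℤ) ∣ ((w.val : ℕ) : ℤ) := by
      intro h
      rw [Int.natCast_dvd_natCast] at h
      obtain ⟨y, hy⟩ := h
      apply hw (y : ZMod m)
      calc w = ((w.val : ℕ) : ZMod m) := (ZMod.natCast_zmod_val w).symm
        _ = _ := by rw [hy]; push_cast; rfl
    have h1 := pow_mul_value hq hq2 hqm hM hsat hg r le_rfl _ hd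
    conv_lhs => rw [val_int w]
    rw [ut_int hq hqm hM hsat hg.inv _ hd, ← h1]
    congr 1
    unfold iota
    push_cast; rfl
  have hpos : ∀ (f : ZMod m → Q) (d ℓ : ℕ), ℓ * d = m →
      ∀ a, ∑ i ∈ range ℓ, f (e * (a + (i : ZMod m) * (d : ZMod m))) =
        ∑ i ∈ range ℓ, f (e * a + (i : ZMod m) * (d : ZMod m)) := by
    intro f d ℓ hℓd a
    obtain ⟨t, rfl⟩ := heu
    exact coset_sum_unit f hℓd t a
  have hew : ∀ w : ZMod m, (∀ a, w ≠ (q : ZMod m) * a) → ∀ a, e * w ≠ (q : ZMod m) * a := by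
    intro w hw a h
    apply hw (e * a)
    calc w = e * (e * w) := by rw [← mul_assoc, hee, one_mul]
      _ = e * ((q : ZMod m) * a) := by rw [h]
      _ = _ := by ring
  obtain ⟨h, hh, hrel⟩ := exists_divided (p := p) (q := q) (v := v) (N := q ^ r) hm2 hp hq hqm
    (fun w => ut q g w - ut q g (e * w))
    (fun w => g (iota (q ^ r) w) - g (iota (q ^ r) (e * w)))
    (fun a => by
      have h1 : e * ((q : ZMod m) * a) = (q : ZMod m) * (e * a) := by ring
      simp only [h1, hutq, sub_self])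
    (fun a => by
      simp only [mul_neg, hutneg]; abel)
    (fun a => by
      have h1 : e * ((p : ZMod m) * a) = (p : ZMod m) * (e * a) := by ring
      simp only [h1, hutp])
    (fun ℓ d hℓ hℓ2 hℓq hℓd a => by
      have h1 : e * ((ℓ : ZMod m) * a) = (ℓ : ZMod m) * (e * a) := by ring
      rw [sum_sub_distrib, hpos (fun w => ut q g w) d ℓ hℓd a, hutd ℓ d hℓ hℓ2 hℓq hℓd,
        hutd ℓ d hℓ hℓ2 hℓq hℓd, h1])
    (T_anti hqe hee _)
    (by simp)
    (T_anti hqe hee (fun w => g (iota (q ^ r) w)))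
    (fun d hqd a => by
      have h1 : e * ((q : ZMod m) * a) = (q : ZMod m) * (e * a) := by ring
      rw [sum_sub_distrib, hpos (fun w => g (iota (q ^ r) w)) d q hqd a,
        hφ.odd q d hq hq2 hqd, hφ.odd q d hq hq2 hqd, h1])
    (fun w hw => by
      rw [smul_sub, hutN w hw, hutN _ (hew w hw)])
  exact ⟨h, hh, hrel⟩

end

lemma sum_map_mul {m M c : ℕ} {Q : Type} [AddCommGroup Q] (s : Multiset (ZMod m)) (e : ZMod m)
    (g : ZMod M → Q) : ((s.map fun y => e * y).map fun a => g (iota c a)).sum =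
      (s.map fun a => g (iota c (e * a))).sum := by
  rw [Multiset.map_map]; rfl

/-- odd primes dividing the level -/
theorem q_part {m q : ℕ} [NeZero m] (hp : p.Prime) (hq : q.Prime) (hq2 : q ≠ 2)
    (hm2 : ¬ 2 ∣ m) (hpm : p.Coprime m) (hqm : q ∣ m) {s : Multiset (ZMod m)}
    (hs : Rel0 p s) : ∃ n : ℕ, ¬ q ∣ n ∧ EV p m n s := by
  have hm : 0 < m := NeZero.pos m
  set F := orderOf (p : ZMod m) with hFdef
  have hF0 : 0 < F := order_pos hpm
  have hpq : p.Coprime q := Nat.Coprime.coprime_dvd_right hqm hpm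
  -- saturation
  have h1 : (p : ZMod m) ^ F = 1 := H916T.pow_order p
  have hpF : 1 < p ^ F := Nat.one_lt_pow hF0.ne' hp.one_lt
  obtain ⟨c0, hc0⟩ : m ∣ p ^ F - 1 := by
    rw [← ZMod.natCast_eq_zero_iff, Nat.cast_sub hpF.le]
    push_cast
    rw [h1, sub_self]
  have hc00 : c0 ≠ 0 := by rintro rfl; omega
  obtain ⟨j, u0, hu0, hju⟩ := Nat.exists_eq_pow_mul_and_not_dvd hc00 q hq.ne_one
  have hm1 : 0 < q ^ j * m := Nat.mul_pos (pow_pos hq.pos j) hm
  have hz : NeZero (q ^ j * m) := ⟨hm1.ne'⟩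
  have hpqj : p.Coprime (q ^ j) := Nat.Coprime.pow_right j hpq
  have hpm1 : p.Coprime (q ^ j * m) := Nat.Coprime.mul_right hpqj hpm
  have h2m1 : ¬ 2 ∣ q ^ j * m := by
    intro h
    rcases Nat.prime_two.dvd_mul.mp h with h | h
    · exact hq2 ((Nat.prime_dvd_prime_iff_eq Nat.prime_two hq).mp
        (Nat.prime_two.dvd_of_dvd_pow h)).symm
    · exact hm2 h
  have hqm1 : q ∣ q ^ j * m := hqm.mul_left _
  have hFint : (p : ℤ) ^ F = 1 + ((q ^ j * m : ℕ) : ℤ) * (u0 : ℤ) := by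
    have h2 : p ^ F = 1 + (q ^ j * m) * u0 := by
      have h3 : p ^ F = (p ^ F - 1) + 1 := by omega
      rw [h3, hc0, hju]; ring
    exact_mod_cast h2
  have hsat := fun s => exists_pow hq hq2 hqm1 hFint
    (by rw [Int.natCast_dvd_natCast]; exact hu0) s
  -- go to the level q ^ j * m
  set m1 := q ^ j * m with hm1def
  suffices H : ∃ n : ℕ, ¬ q ∣ n ∧ EV p m1 n (s.map (iota (q ^ j) : ZMod m → ZMod m1)) by
    obtain ⟨n, hn, hE⟩ := H
    exact ⟨n, hn, EV.of_raise (pow_pos hq.pos j) hpqj rfl hE⟩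
  have hs1 : Rel0 p (s.map (iota (q ^ j) : ZMod m → ZMod m1)) := hs.iota rfl
  generalize (s.map (iota (q ^ j) : ZMod m → ZMod m1)) = s1 at hs1 ⊢
  obtain ⟨K, hK0, hK⟩ := uniform_torsion hpm1 s1 hs1
  obtain ⟨r, n, hn, hKe⟩ := Nat.exists_eq_pow_mul_and_not_dvd hK0.ne' q hq.ne_one
  obtain ⟨v, m2, hm2', hmv⟩ := Nat.exists_eq_pow_mul_and_not_dvd hm1.ne' q hq.ne_one
  have hm20 : 0 < m2 := Nat.pos_of_ne_zero (by rintro rfl; exact hm2' (dvd_zero q))
  obtain ⟨ℓ, hℓ, hℓB, hℓ1, hℓE, hnr⟩ := exists_prime p q (r + F + v) m2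
    (max m1 (max p 2)) hp hq hq2 hm20 hm2'
  have hℓf : Fact ℓ.Prime := ⟨hℓ⟩
  have hℓm : m1 < ℓ := lt_of_le_of_lt (le_max_left _ _) hℓB
  have hℓpp : p < ℓ := lt_of_le_of_lt ((le_max_left _ _).trans (le_max_right _ _)) hℓB
  have hℓ2 : 2 < ℓ := lt_of_le_of_lt ((le_max_right _ _).trans (le_max_right _ _)) hℓB
  have hpℓ : p.Coprime ℓ := (Nat.coprime_primes hp hℓ).mpr hℓpp.ne
  have hE : q ^ (r + F + v) ∣ ℓ - 1 := by
    rw [← Nat.cast_one, ZMod.natCast_eq_natCast_iff] at hℓE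
    exact (Nat.modEq_iff_dvd' hℓ.one_lt.le).mp hℓE.symm
  have hE1 : q ^ (r + F) ∣ ℓ - 1 := dvd_trans (pow_dvd_pow q (by omega)) hE
  have hEv : q ^ v ∣ ℓ - 1 := dvd_trans (pow_dvd_pow q (by omega)) hE
  have hm2ℓ : m2 ∣ ℓ + 1 := by
    rw [← ZMod.natCast_eq_zero_iff]
    push_cast
    rw [hℓ1]; ring
  -- the element e
  set e : ZMod m1 := -(ℓ : ZMod m1) with he
  have hee : e * e = 1 := by
    have h3 : m1 ∣ (ℓ - 1) * (ℓ + 1) := by rw [hmv]; exact Nat.mul_dvd_mul hEv hm2ℓ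
    rw [← ZMod.natCast_eq_zero_iff] at h3
    rw [Nat.cast_mul, Nat.cast_sub hℓ.one_lt.le] at h3
    push_cast at h3
    rw [he]
    linear_combination h3
  have hqe : ((q ^ v : ℕ) : ZMod m1) * e = (q ^ v : ℕ) := by
    have h3 : m1 ∣ q ^ v * (ℓ + 1) := by rw [hmv]; exact Nat.mul_dvd_mul_left _ hm2ℓ
    rw [← ZMod.natCast_eq_zero_iff] at h3
    push_cast at h3 ⊢
    rw [he]
    linear_combination -h3
  have hF1 : (p : ZMod m1) ^ F = 1 := by
    have h3 := congrArg (Int.cast : ℤ → ZMod m1) hFint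
    push_cast at h3
    have h4 : ((m1 : ℕ) : ZMod m1) = 0 := by simp
    rw [h3, h4, zero_mul, add_zero]
  -- the two relations
  have hEVa : EV p m1 n (s1 + s1.map fun y => e * y) := by
    have hz2 : NeZero (ℓ * m1) := ⟨(Nat.mul_pos hℓ.pos hm1).ne'⟩
    refine EV.of_level (L := ℓ) hℓ.pos hpℓ ?_
    intro Q _ g hg
    have h3 := lemA (p := p) (s := s1) (g := g) (n := n) h2m1 hpm1 rfl hpℓ hF1 hℓ2.ne'
      (coprime_of_lt hm1 hℓm) hK (by
        obtain ⟨x, hx⟩ := pow_dvd_order (E := r) hq hpℓ hF0 hE1 hnr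
        rw [hKe, hx]
        exact ⟨x, by ring⟩) hg.iod
    rw [Multiset.map_add, Multiset.sum_add, sum_map_mul, smul_add, ← h3]
    have h4 : (s1.map fun a => g (iota ℓ (e * a))).sum =
        -(s1.map fun a => g (iota ℓ ((ℓ : ZMod m1) * a))).sum := by
      rw [← Multiset.sum_map_neg]
      congr 1
      apply Multiset.map_congr rfl
      intro a _
      rw [he, neg_mul, iota_neg rfl, hg.iod.od.neg]
    rw [h4, smul_neg, add_neg_cancel]
  have hEVb : EV p m1 n (s1 + s1.map fun y => (-e) * y) := by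
    have hz2 : NeZero (q ^ r * m1) := ⟨(Nat.mul_pos (pow_pos hq.pos r) hm1).ne'⟩
    refine EV.of_level (L := q ^ r) (pow_pos hq.pos r) (Nat.Coprime.pow_right r hpq) ?_
    intro Q _ g hg
    obtain ⟨h, hh, hrel⟩ := lemB (p := p) (v := v) h2m1 hpm1 hq hq2 hqm1 rfl hsat hee hqe hg.iod
    have h3 := hK Q h hh
    rw [Multiset.map_add, Multiset.sum_add, sum_map_mul]
    have h4 : (s1.map fun a => g (iota (q ^ r) (-e * a))).sum =
        -(s1.map fun a => g (iota (q ^ r) (e * a))).sum := by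
      rw [← Multiset.sum_map_neg]
      congr 1
      apply Multiset.map_congr rfl
      intro a _
      rw [neg_mul, iota_neg rfl, hg.iod.od.neg]
    have h5 : (s1.map fun a => g (iota (q ^ r) a)).sum -
        (s1.map fun a => g (iota (q ^ r) (e * a))).sum = q ^ r • (s1.map h).sum := by
      rw [← Multiset.sum_map_sub, ← Multiset.sum_map_nsmul]
      congr 1
      apply Multiset.map_congr rfl
      intro a _
      exact (hrel a).symm
    rw [h4, ← sub_eq_add_neg, h5, ← mul_nsmul', mul_comm n, ← hKe, h3]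
  refine ⟨2 * n, ?_, EV.lin hEVa hEVb ?_⟩
  · intro h
    rcases hq.dvd_mul.mp h with h | h
    · exact hq2 ((Nat.prime_dvd_prime_iff_eq hq Nat.prime_two).mp h)
    · exact hn h
  · intro Q _ M c hM g hg e1 e2
    rw [Multiset.map_add, Multiset.sum_add, sum_map_mul] at e1 e2
    have h4 : (s1.map fun a => g (iota c (-e * a))).sum =
        -(s1.map fun a => g (iota c (e * a))).sum := by
      rw [← Multiset.sum_map_neg]
      congr 1
      apply Multiset.map_congr rfl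
      intro a _
      rw [neg_mul, iota_neg hM, hg.iod.od.neg]
    rw [h4] at e2
    rw [mul_comm, mul_nsmul, two_nsmul]
    rw [smul_add] at e1 e2
    rw [smul_neg] at e2
    have h5 := congrArg₂ (· + ·) e1 e2
    simp only [add_zero] at h5
    rw [← h5]
    abel

end Pool.Agent.H916Z
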