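import Pool.Agent.H916U.GTwo
import Pool.Agent.H916U.Gen
import Pool.Agent.H916D.Rational

/-!
Invariant odd distributions, test functions, eventual vanishing.
-/

namespace Pool.Agent.H916Z

open Finset Pool.Agent.H916R2 Pool.Agent.H916T Pool.Agent.H916U

/-- invariant odd distributions -/
structure IOD (p : ℕ) {m : ℕ} {Q : Type} [AddCommGroup Q] (g : ZMod m → Q) : Prop where
  od : OD g
  inv : ∀ a, g ((p : ZMod m) * a) = g a

/-- test functions -/
structure TF (p : ℕ) {m : ℕ} {Q : Type} [AddCommGroup Q] (g : ZMod m → Q) : Prop where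
  iod : IOD p g
  pair : ∀ a b, a ≠ 0 → b ≠ 0 →
    (∀ t : (ZMod m)ˣ, W p ((t : ZMod m) * a) = W p ((t : ZMod m) * b)) → g a = g b

variable {p : ℕ}

lemma IOD.comp_iota {k m0 m : ℕ} [NeZero m0] (h : k * m0 = m) {Q : Type} [AddCommGroup Q]
    {g : ZMod m → Q} (hg : IOD p g) : IOD p (fun b : ZMod m0 => g (iota k b)) where
  od := hg.od.comp_iota h
  inv := fun a => by rw [iota_natMul h, hg.inv]

lemma TF.comp_iota {k m0 m : ℕ} [NeZero m0] [NeZero m] (h : k * m0 = m) {Q : Type}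
    [AddCommGroup Q] {g : ZMod m → Q} (hg : TF p g) : TF p (fun b : ZMod m0 => g (iota k b)) where
  iod := hg.iod.comp_iota h
  pair := fun a b ha hb hW => by
    apply hg.pair
    · intro h0; exact ha (iota_eq_zero h h0)
    · intro h0; exact hb (iota_eq_zero h h0)
    · intro t
      obtain ⟨r, hr⟩ := W_iota (k := k) (m0 := m0) (m := m) (p := p) h
      rw [unit_iota h, unit_iota h, hr, hr, hW]

lemma W_iod {m : ℕ} [NeZero m] (hp : p.Coprime m) (t : (ZMod m)ˣ) :
    TF p (fun a : ZMod m => W p ((t : ZMod m) * a)) where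
  iod := ⟨od_W hp t, fun a => by
    have : (t : ZMod m) * ((p : ZMod m) * a) = (p : ZMod m) * ((t : ZMod m) * a) := by ring
    rw [this, W_mul]⟩
  pair := fun a b _ _ h => h t

/-- the condition of Stickelberger -/
def Rel0 (p : ℕ) {m : ℕ} (s : Multiset (ZMod m)) : Prop :=
  ∀ t : (ZMod m)ˣ, (s.map fun a => W p ((t : ZMod m) * a)).sum = 0

lemma Rel0.iota {k m0 m : ℕ} [NeZero m0] [NeZero m] (h : k * m0 = m) {s : Multiset (ZMod m0)}
    (hs : Rel0 p s) : Rel0 p (s.map (iota k : ZMod m0 → ZMod m)) := by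
  intro t
  obtain ⟨r, hr⟩ := W_iota (k := k) (m0 := m0) (m := m) (p := p) h
  rw [Multiset.map_map]
  have h1 : (s.map ((fun a => W p ((t : ZMod m) * a)) ∘ (H916R2.iota k : ZMod m0 → ZMod m))).sum =
      (s.map fun a => (k : ℤ) * (r : ℤ) * W p (((ZMod.unitsMap (Dvd.intro_left k h : m0 ∣ m) t :
        (ZMod m0)ˣ) : ZMod m0) * a)).sum := by
    congr 1
    apply Multiset.map_congr rfl
    intro a _
    simp only [Function.comp_apply]
    rw [unit_iota h, hr]
  rw [h1, Multiset.sum_map_mul_left, hs, mul_zero]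

lemma Rel0.add {m : ℕ} {s t : Multiset (ZMod m)} (hs : Rel0 p s) (ht : Rel0 p t) :
    Rel0 p (s + t) := by
  intro u
  rw [Multiset.map_add, Multiset.sum_add, hs, ht, add_zero]

/-- Eventual vanishing of `n` times the sum over `s` of the test functions. -/
def EV (p m n : ℕ) (s : Multiset (ZMod m)) : Prop :=
  ∃ L : ℕ, 0 < L ∧ p.Coprime L ∧ ∀ c M : ℕ, L ∣ c → 0 < c → p.Coprime c → c * m = M →
    ∀ (Q : Type) [AddCommGroup Q] (g : ZMod M → Q), TF p g →
      n • (s.map fun a => g (iota c a)).sum = 0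

lemma EV.of_level {m n L : ℕ} [NeZero m] {s : Multiset (ZMod m)} (hL : 0 < L) (hpL : p.Coprime L)
    (h : ∀ (Q : Type) [AddCommGroup Q] (g : ZMod (L * m) → Q), TF p g →
      n • (s.map fun a => g (iota L a)).sum = 0) : EV p m n s := by
  refine ⟨L, hL, hpL, ?_⟩
  intro c M hLc hc _ hM Q _ g hg
  obtain ⟨e, rfl⟩ := hLc
  have he : 0 < e := Nat.pos_of_mul_pos_left hc
  have hm : 0 < m := NeZero.pos m
  have hz1 : NeZero (L * m) := ⟨(Nat.mul_pos hL hm).ne'⟩
  have hz2 : NeZero M := ⟨by rw [← hM]; exact (Nat.mul_pos hc hm).ne'⟩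
  have h1 : e * (L * m) = M := by rw [← hM]; ring
  have h2 := h Q (fun b => g (iota e b)) (hg.comp_iota h1)
  have h3 : ∀ a : ZMod m, (iota e (iota L a : ZMod (L * m)) : ZMod M) = iota (L * e) a := by
    intro a
    rw [iota_comp h1, mul_comm]
  simp only [h3] at h2
  exact h2

lemma EV.of_raise {m k m1 n : ℕ} (hk : 0 < k) (hpk : p.Coprime k) (h : k * m = m1)
    {s : Multiset (ZMod m)} (hs : EV p m1 n (s.map (iota k : ZMod m → ZMod m1))) :
    EV p m n s := by
  obtain ⟨L, hL, hpL, H⟩ := hs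
  refine ⟨L * k, Nat.mul_pos hL hk, Nat.Coprime.mul_right hpL hpk, ?_⟩
  intro c M hLc hc hpc hM Q _ g hg
  obtain ⟨e, rfl⟩ := hLc
  have h1 : (L * e) * m1 = M := by rw [← hM, ← h]; ring
  have hc1 : 0 < L * e := by
    rcases Nat.eq_zero_or_pos (L * e) with h0 | h0
    · exfalso
      have : L * k * e = 0 := by
        have : L * k * e = L * e * k := by ring
        rw [this, h0, zero_mul]
      omega
    · exact h0
  have hpc1 : p.Coprime (L * e) := by
    apply Nat.Coprime.coprime_dvd_right _ hpc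
    exact ⟨k, by ring⟩
  have h2 := H (L * e) M (Dvd.intro _ rfl) hc1 hpc1 h1 Q g hg
  rw [Multiset.map_map] at h2
  have h3 : ∀ a : ZMod m, (iota (L * e) (iota k a : ZMod m1) : ZMod M) = iota (L * k * e) a := by
    intro a
    rw [iota_comp h1]
    congr 1
    ring
  simp only [Function.comp_def, h3] at h2
  exact h2

lemma EV.lin {m n n1 n2 : ℕ} {s s1 s2 : Multiset (ZMod m)} (h1 : EV p m n1 s1)
    (h2 : EV p m n2 s2)
    (h : ∀ (Q : Type) [AddCommGroup Q] (M c : ℕ) (_ : c * m = M) (g : ZMod M → Q), TF p g →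
      n1 • (s1.map fun a => g (iota c a)).sum = 0 → n2 • (s2.map fun a => g (iota c a)).sum = 0 →
        n • (s.map fun a => g (iota c a)).sum = 0) : EV p m n s := by
  obtain ⟨L1, hL1, hp1, H1⟩ := h1
  obtain ⟨L2, hL2, hp2, H2⟩ := h2
  refine ⟨L1 * L2, Nat.mul_pos hL1 hL2, Nat.Coprime.mul_right hp1 hp2, ?_⟩
  intro c M hLc hc hpc hM Q _ g hg
  exact h Q M c hM g hg
    (H1 c M (dvd_trans (Dvd.intro _ rfl) hLc) hc hpc hM Q g hg)
    (H2 c M (dvd_trans (Dvd.intro_left _ rfl) hLc) hc hpc hM Q g hg)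

lemma EV.gcd {m n1 n2 : ℕ} {s : Multiset (ZMod m)} (h1 : EV p m n1 s) (h2 : EV p m n2 s) :
    EV p m (Nat.gcd n1 n2) s := by
  refine EV.lin h1 h2 ?_
  intro Q _ M c _ g _ e1 e2
  rw [← natCast_zsmul] at e1 e2 ⊢
  rw [Nat.gcd_eq_gcd_ab, add_smul, mul_comm (n1 : ℤ), mul_comm (n2 : ℤ), mul_smul, mul_smul, e1,
    e2, smul_zero, smul_zero, add_zero]

/-- local to global -/
lemma EV.of_primes {m : ℕ} {s : Multiset (ZMod m)}
    (h : ∀ q : ℕ, q.Prime → ∃ n : ℕ, ¬ q ∣ n ∧ EV p m n s) : EV p m 1 s := by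
  classical
  obtain ⟨n0, hn0, hE0⟩ := h 2 Nat.prime_two
  have hn0' : 0 < n0 := Nat.pos_of_ne_zero (by rintro rfl; exact hn0 (dvd_zero 2))
  have hex : ∃ n, 0 < n ∧ EV p m n s := ⟨n0, hn0', hE0⟩
  obtain ⟨hd0, hdE⟩ := Nat.find_spec hex
  set d := Nat.find hex with hd
  by_cases hd1 : d = 1
  · rw [hd1] at hdE; exact hdE
  · exfalso
    obtain ⟨q, hq, hqd⟩ := Nat.exists_prime_and_dvd hd1
    obtain ⟨n, hn, hE⟩ := h q hq
    have hn' : 0 < n := Nat.pos_of_ne_zero (by rintro rfl; exact hn (dvd_zero q))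
    have h1 := EV.gcd hdE hE
    have h2 : 0 < Nat.gcd d n := Nat.gcd_pos_of_pos_left _ hd0
    have h3 : Nat.gcd d n < d := by
      apply lt_of_le_of_ne (Nat.le_of_dvd hd0 (Nat.gcd_dvd_left d n))
      intro h4
      apply hn
      exact dvd_trans hqd (h4 ▸ Nat.gcd_dvd_right d n)
    exact Nat.find_min hex h3 ⟨h2, h1⟩

/-- uniform torsion -/
theorem uniform_torsion {m : ℕ} [NeZero m] (hp : p.Coprime m) (s : Multiset (ZMod m))
    (hs : Rel0 p s) : ∃ K : ℕ, 0 < K ∧ ∀ (Q : Type) [AddCommGroup Q] (h : ZMod m → Q),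
      IOD p h → K • (s.map h).sum = 0 := by
  classical
  let R : AddSubgroup (ZMod m → ℤ) :=
    { carrier := {b | ∀ (Q : Type) [AddCommGroup Q] (h : ZMod m → Q), IOD p h →
        ∑ a, b a • h a = 0}
      add_mem' := by
        intro b c hb hc Q _ h hh
        simp only [Pi.add_apply, add_smul, sum_add_distrib]
        rw [hb Q h hh, hc Q h hh, add_zero]
      zero_mem' := by
        intro Q _ h _
        simp
      neg_mem' := by
        intro b hb Q _ h hh
        simp only [Pi.neg_apply, neg_smul, sum_neg_distrib]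
        rw [hb Q h hh, neg_zero] }
  let h0 : ZMod m → (ZMod m → ℤ) ⧸ R := fun a => QuotientAddGroup.mk (Pi.single a 1)
  have hev : ∀ (Q : Type) [AddCommGroup Q] (h : ZMod m → Q) (a : ZMod m),
      ∑ x, (Pi.single a (1 : ℤ) : ZMod m → ℤ) x • h x = h a := by
    intro Q _ h a
    rw [Finset.sum_eq_single a]
    · simp
    · intro b _ hb
      rw [Pi.single_eq_of_ne hb, zero_smul]
    · simp
  -- equality criterion
  have hmk : ∀ x : ZMod m → ℤ, (∀ (Q : Type) [AddCommGroup Q] (h : ZMod m → Q), IOD p h →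
      ∑ a, x a • h a = 0) → (QuotientAddGroup.mk x : (ZMod m → ℤ) ⧸ R) = 0 := by
    intro x hx
    rw [QuotientAddGroup.eq_zero_iff]
    exact hx
  have hmul : ∀ (T : Multiset (ZMod m)), (T.map h0).sum =
      QuotientAddGroup.mk (T.map fun a => (Pi.single a (1 : ℤ) : ZMod m → ℤ)).sum := by
    intro T
    induction T using Multiset.induction_on with
    | empty => simp
    | cons a T ih =>
      rw [Multiset.map_cons, Multiset.sum_cons, Multiset.map_cons, Multiset.sum_cons, ih,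
        QuotientAddGroup.mk_add]
  have hevm : ∀ (T : Multiset (ZMod m)) (Q : Type) [AddCommGroup Q] (h : ZMod m → Q),
      ∑ x, (T.map fun a => (Pi.single a (1 : ℤ) : ZMod m → ℤ)).sum x • h x = (T.map h).sum := by
    intro T Q _ h
    induction T using Multiset.induction_on with
    | empty => simp
    | cons a T ih =>
      rw [Multiset.map_cons, Multiset.sum_cons, Multiset.map_cons, Multiset.sum_cons]
      simp only [Pi.add_apply, add_smul, sum_add_distrib]
      rw [hev, ih]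
  have hIOD : IOD p h0 := by
    refine ⟨⟨?_, ?_, ?_, ?_⟩, ?_⟩
    · intro a
      rw [eq_neg_iff_add_eq_zero]
      change (QuotientAddGroup.mk (Pi.single (-a) 1 + Pi.single a 1) : (ZMod m → ℤ) ⧸ R) = 0
      apply hmk
      intro Q _ h hh
      simp only [Pi.add_apply, add_smul, sum_add_distrib]
      rw [hev, hev, hh.od.neg, neg_add_cancel]
    · apply hmk
      intro Q _ h hh
      rw [hev, hh.od.zero]
    · intro q d hq hq2 hqd a
      have h1 : ∑ i ∈ range q, h0 (a + (i : ZMod m) * (d : ZMod m)) =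
          QuotientAddGroup.mk (∑ i ∈ range q,
            (Pi.single (a + (i : ZMod m) * (d : ZMod m)) (1 : ℤ) : ZMod m → ℤ)) := by
        rw [QuotientAddGroup.mk_sum]
      rw [h1, ← sub_eq_zero]
      change (QuotientAddGroup.mk (_ - _) : (ZMod m → ℤ) ⧸ R) = 0
      apply hmk
      intro Q _ h hh
      simp only [Pi.sub_apply, Finset.sum_apply, sub_smul, sum_sub_distrib, sum_smul]
      rw [sum_comm, hev, ← hh.od.odd q d hq hq2 hqd, sub_eq_zero]
      exact sum_congr rfl fun i _ => hev Q h _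
    · intro d hd a
      rw [← sub_eq_zero]
      change (QuotientAddGroup.mk ((Pi.single a 1 + Pi.single (a + (d : ZMod m)) 1) -
        (Pi.single (2 * a) 1 + Pi.single (d : ZMod m) 1)) : (ZMod m → ℤ) ⧸ R) = 0
      apply hmk
      intro Q _ h hh
      simp only [Pi.sub_apply, Pi.add_apply, sub_smul, add_smul, sum_sub_distrib, sum_add_distrib]
      rw [hev, hev, hev, hev, hh.od.two d hd, sub_self]
    · intro a
      rw [← sub_eq_zero]
      change (QuotientAddGroup.mk (Pi.single ((p : ZMod m) * a) 1 - Pi.single a 1) :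
        (ZMod m → ℤ) ⧸ R) = 0
      apply hmk
      intro Q _ h hh
      simp only [Pi.sub_apply, sub_smul, sum_sub_distrib]
      rw [hev, hev, hh.inv, sub_self]
  obtain ⟨K, hK, hK0⟩ := H916D.torsion_sum hp hIOD.od hIOD.inv s hs
  refine ⟨K, hK, fun Q _ h hh => ?_⟩
  rw [hmul] at hK0
  have h2 : (QuotientAddGroup.mk (K • (s.map fun a => (Pi.single a (1 : ℤ) : ZMod m → ℤ)).sum) :
      (ZMod m → ℤ) ⧸ R) = 0 := hK0
  rw [QuotientAddGroup.eq_zero_iff] at h2
  have h3 := h2 Q h hh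
  simp only [Pi.smul_apply, smul_assoc] at h3
  rw [← Finset.smul_sum, hevm] at h3
  exact h3

end Pool.Agent.H916Z
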