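import Pool.Agent.H916Z.LemB2
import Pool.Agent.H916U.Main

/-!
Assembly: eventual vanishing from the parity condition.
-/

set_option linter.unusedSectionVars false

namespace Pool.Agent.H916Z

open Finset Pool.Agent.H916R2 Pool.Agent.H916T Pool.Agent.H916U

variable {p : ℕ}

/-- linked residues -/
def Link (p : ℕ) {m : ℕ} (a b : ZMod m) : Prop :=
  a ≠ 0 ∧ b ≠ 0 ∧ ((addOrderOf a).primeFactors = (addOrderOf b).primeFactors ∨
    (2 ∣ addOrderOf a ∧ 2 ∣ addOrderOf b) ∨
    ∀ t : (ZMod m)ˣ, W p ((t : ZMod m) * a) = W p ((t : ZMod m) * b))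

lemma C2.raise {k M0 M1 : ℕ} [NeZero M0] [NeZero M1] (h : k * M0 = M1) {x y : ZMod M0}
    (hxy : C2 p x y) : C2 p (iota k x : ZMod M1) (iota k y) := by
  obtain ⟨B, hB⟩ := hxy
  refine ⟨B.map (iota k), fun Q _ g hg => ?_⟩
  have h1 := hB Q _ (hg.comp_iota h)
  rw [h1, Multiset.map_map]
  rfl

lemma addOrderOf_iota {k m m1 : ℕ} [NeZero m] [NeZero m1] (h : k * m = m1) (y : ZMod m) :
    addOrderOf (iota k y : ZMod m1) = addOrderOf y := by
  let φ : ZMod m →+ ZMod m1 :=
    { toFun := iota k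
      map_zero' := iota_zero
      map_add' := iota_add h }
  have hinj : Function.Injective φ := by
    rw [injective_iff_map_eq_zero]
    intro b hb
    exact iota_eq_zero h hb
  exact addOrderOf_injective φ hinj y

lemma addOrderOf_dvd_level {m : ℕ} [NeZero m] (a : ZMod m) : addOrderOf a ∣ m := by
  rw [addOrderOf_dvd_iff_nsmul_eq_zero, nsmul_eq_mul]
  simp

section

variable {m k m1 L M0 M1 : ℕ} [NeZero m] [NeZero m1] [NeZero M0] [NeZero M1]

lemma iota_swap (hkm : k * m = m1) (hM0 : L * m = M0) (hM1 : k * M0 = M1) (y : ZMod m) :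
    (iota L (iota k y : ZMod m1) : ZMod M1) = iota k (iota L y : ZMod M0) := by
  rw [iota_comp (by rw [← hkm, ← hM1, ← hM0]; ring), iota_comp hM1, mul_comm]

/-- elements of even order at level `2 * m` -/
lemma c2_half (hm2 : ¬ 2 ∣ m) (hU : AllUnits p m L M0) (hM0 : L * m = M0) (hM1 : 2 * M0 = M1)
    (hz : NeZero (2 * m)) (a : ZMod (2 * m)) (ha : ¬ 2 ∣ a.val) :
    C2 p (iota L a : ZMod M1) (iota L ((m : ℕ) : ZMod (2 * m))) := by
  have hL : L * (2 * m) = M1 := by rw [← hM1, ← hM0]; ring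
  obtain ⟨y, hy⟩ : 2 ∣ a.val + m := by omega
  have hcop : Nat.Coprime 2 m := (Nat.prime_two.coprime_iff_not_dvd).mpr hm2
  set b : ZMod (2 * m) := iota 2 (y : ZMod m) with hb
  have hb' : b = ((2 * y : ℕ) : ZMod (2 * m)) := iota_natCast rfl y
  have h2m : (m : ZMod (2 * m)) + (m : ZMod (2 * m)) = 0 := by
    have : ((2 * m : ℕ) : ZMod (2 * m)) = 0 := by simp
    rw [← this]; push_cast; ring
  have hab : a = b + (m : ZMod (2 * m)) := by
    have h1 : ((a.val + m : ℕ) : ZMod (2 * m)) = ((2 * y : ℕ) : ZMod (2 * m)) := by rw [hy]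
    rw [← hb'] at h1
    push_cast at h1
    rw [ZMod.natCast_zmod_val] at h1
    linear_combination h1 - h2m
  have h2b : 2 * b = iota 2 (((2 : ℕ) : ZMod m) * (y : ZMod m)) := by
    rw [iota_natMul rfl]; push_cast; rfl
  have h3 := C2.raise hM1 (hU (ZMod.unitOfCoprime 2 hcop) (y : ZMod m))
  rw [ZMod.coe_unitOfCoprime, ← iota_swap rfl hM0 hM1, ← iota_swap rfl hM0 hM1, ← h2b, ← hb] at h3
  obtain ⟨B, hB⟩ := h3
  refine ⟨B, fun Q _ g hg => ?_⟩
  have hg' := (hg.comp_iota hL).iod.od.two m rfl b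
  have h4 := hB Q g hg
  rw [← hab, h4] at hg'
  have h5 : g (iota L a) = g (iota L b) + 2 • (B.map g).sum +
      g (iota L ((m : ℕ) : ZMod (2 * m))) - g (iota L b) := by
    rw [← hg']; abel
  rw [h5]; abel

lemma exists_iota (hk : k = 1 ∨ k = 2) (hkm : k * m = m1) (a : ZMod m1)
    (ha : ¬ 2 ∣ addOrderOf a) : ∃ y : ZMod m, a = iota k y := by
  rcases hk with rfl | rfl
  · rw [one_mul] at hkm
    subst hkm
    exact ⟨a, (H916T.iota_one a).symm⟩
  · subst hkm
    have h1 : 2 ∣ a.val := by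
      have h2 : 2 * m ∣ addOrderOf a * a.val := by
        rw [← ZMod.natCast_eq_zero_iff]
        push_cast
        rw [ZMod.natCast_zmod_val, ← nsmul_eq_mul]
        exact addOrderOf_nsmul_eq_zero a
      have h3 : 2 ∣ addOrderOf a * a.val := dvd_trans (Dvd.intro _ rfl) h2
      rcases Nat.prime_two.dvd_mul.mp h3 with h | h
      · exact absurd h ha
      · exact h
    obtain ⟨x, hx⟩ := h1
    refine ⟨(x : ZMod m), ?_⟩
    rw [iota_natCast rfl, ← hx, ZMod.natCast_zmod_val]

/-- linked elements are congruent modulo two -/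
theorem link_c2 (hm2 : ¬ 2 ∣ m) (hk : k = 1 ∨ k = 2) (hkm : k * m = m1)
    (hU : AllUnits p m L M0) (hM0 : L * m = M0) (hM1 : k * M0 = M1) (a b : ZMod m1)
    (h : Link p a b) : C2 p (iota L a : ZMod M1) (iota L b) := by
  have hL : L * m1 = M1 := by rw [← hM1, ← hM0, ← hkm]; ring
  obtain ⟨ha0, hb0, h⟩ := h
  have hodd : ∀ y : ZMod m, ¬ 2 ∣ addOrderOf (iota k y : ZMod m1) := by
    intro y hy
    rw [addOrderOf_iota hkm] at hy
    exact hm2 (dvd_trans hy (addOrderOf_dvd_level y))
  have heven : ∀ a b : ZMod m1, 2 ∣ addOrderOf a → 2 ∣ addOrderOf b →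
      C2 p (iota L a : ZMod M1) (iota L b) := by
    rcases hk with rfl | rfl
    · intro a b ha _
      exfalso
      apply hm2
      have h1 := dvd_trans ha (addOrderOf_dvd_level a)
      rwa [← hkm, one_mul] at h1
    · subst hkm
      intro a b ha hb
      have key : ∀ a : ZMod (2 * m), 2 ∣ addOrderOf a → ¬ 2 ∣ a.val := by
        intro a ha h2
        obtain ⟨x, hx⟩ := h2
        apply hodd (x : ZMod m)
        rw [iota_natCast rfl, ← hx, ZMod.natCast_zmod_val]
        exact ha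
      exact (c2_half hm2 hU hM0 hM1 inferInstance a (key a ha)).trans
        (c2_half hm2 hU hM0 hM1 inferInstance b (key b hb)).symm
  rcases h with h | ⟨ha, hb⟩ | h
  · by_cases ha : 2 ∣ addOrderOf a
    · have hb : 2 ∣ addOrderOf b := by
        have h1 : 2 ∈ (addOrderOf a).primeFactors :=
          Nat.mem_primeFactors.mpr ⟨Nat.prime_two, ha, (addOrderOf_pos a).ne'⟩
        rw [h] at h1
        exact (Nat.mem_primeFactors.mp h1).2.1
      exact heven a b ha hb
    · have hb : ¬ 2 ∣ addOrderOf b := by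
        intro hb
        apply ha
        have h1 : 2 ∈ (addOrderOf b).primeFactors :=
          Nat.mem_primeFactors.mpr ⟨Nat.prime_two, hb, (addOrderOf_pos b).ne'⟩
        rw [← h] at h1
        exact (Nat.mem_primeFactors.mp h1).2.1
      obtain ⟨y, rfl⟩ := exists_iota hk hkm a ha
      obtain ⟨z, rfl⟩ := exists_iota hk hkm b hb
      rw [addOrderOf_iota hkm, addOrderOf_iota hkm] at h
      rw [iota_swap hkm hM0 hM1, iota_swap hkm hM0 hM1]
      exact C2.raise hM1 (c2_support hm2 hU hM0 y z h)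
  · exact heven a b ha hb
  · refine ⟨0, fun Q _ g hg => ?_⟩
    have h1 := (hg.comp_iota hL).pair a b ha0 hb0 h
    rw [h1]; simp

end

lemma eqvGen_c2 {m1 M1 L : ℕ} {a b : ZMod m1}
    (hl : ∀ a b : ZMod m1, Link p a b → C2 p (iota L a : ZMod M1) (iota L b))
    (h : Relation.EqvGen (Link p) a b) : C2 p (iota L a : ZMod M1) (iota L b) := by
  induction h with
  | rel x y h => exact hl x y h
  | refl x => exact C2.refl _
  | symm x y _ ih => exact ih.symm
  | trans x y z _ _ ih1 ih2 => exact ih1.trans ih2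

/-- twice the values come from the odd level -/
lemma oddize {k : ℕ} (hk : k = 1 ∨ k = 2) (n n1 : ℕ) (hn : 0 < n) (hn2 : ¬ 2 ∣ n)
    (hkn : k * n = n1) (B : Multiset (ZMod n1)) :
    ∃ B' : Multiset (ZMod n), ∀ (Q : Type) [AddCommGroup Q] (g : ZMod n1 → Q), OD g →
        2 • (B.map g).sum = 2 • (B'.map fun b => g (iota k b)).sum := by
  have hz : NeZero n := ⟨hn.ne'⟩
  rcases hk with rfl | rfl
  · rw [one_mul] at hkn
    subst hkn
    refine ⟨B, fun Q _ g _ => ?_⟩
    simp only [H916T.iota_one]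
  · subst hkn
    have hz2 : NeZero (2 * n) := ⟨(Nat.mul_pos two_pos hn).ne'⟩
    induction B using Multiset.induction_on with
    | empty => exact ⟨0, fun Q _ g _ => by simp⟩
    | cons a B ih =>
      obtain ⟨B', hB'⟩ := ih
      by_cases ha : 2 ∣ a.val
      · obtain ⟨x, hx⟩ := ha
        refine ⟨(x : ZMod n) ::ₘ B', fun Q _ g hg => ?_⟩
        rw [Multiset.map_cons, Multiset.sum_cons, Multiset.map_cons, Multiset.sum_cons, smul_add,
          smul_add, hB' Q g hg, iota_natCast rfl, ← hx, ZMod.natCast_zmod_val]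
      · obtain ⟨y, hy⟩ : 2 ∣ a.val + n := by omega
        refine ⟨(((2 : ℕ) : ZMod n) * (y : ZMod n)) ::ₘ (-(y : ZMod n)) ::ₘ B',
          fun Q _ g hg => ?_⟩
        set b : ZMod (2 * n) := iota 2 (y : ZMod n) with hb
        have hb' : b = ((2 * y : ℕ) : ZMod (2 * n)) := iota_natCast rfl y
        have h2m : (n : ZMod (2 * n)) + (n : ZMod (2 * n)) = 0 := by
          have : ((2 * n : ℕ) : ZMod (2 * n)) = 0 := by simp
          rw [← this]; push_cast; ring
        have hab : a = b + (n : ZMod (2 * n)) := by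
          have h1 : ((a.val + n : ℕ) : ZMod (2 * n)) = ((2 * y : ℕ) : ZMod (2 * n)) := by rw [hy]
          rw [← hb'] at h1
          push_cast at h1
          rw [ZMod.natCast_zmod_val] at h1
          linear_combination h1 - h2m
        have h2b : 2 * b = iota 2 (((2 : ℕ) : ZMod n) * (y : ZMod n)) := by
          rw [iota_natMul rfl]; push_cast; rfl
        have h1 := hg.two n rfl b
        have h2 := hg.half (rfl : 2 * n = 2 * n)
        rw [← hab] at h1
        have h3 : g a = g (2 * b) + g (n : ZMod (2 * n)) - g b := by rw [← h1]; abel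
        have h4 : 2 • g (n : ZMod (2 * n)) = 0 := by rw [two_nsmul]; exact h2
        rw [Multiset.map_cons, Multiset.sum_cons, Multiset.map_cons, Multiset.sum_cons,
          Multiset.map_cons, Multiset.sum_cons, smul_add, smul_add, smul_add, hB' Q g hg,
          iota_neg rfl, hg.neg, ← hb, ← h2b, h3, smul_sub, smul_add, h4, smul_neg]
        abel

open scoped Classical in
/-- **The parity theorem for test functions.** -/
theorem ev_main {m m1 k : ℕ} (hp : p.Prime) (hm : 0 < m) (hk : k = 1 ∨ k = 2)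
    (hkm : k * m = m1) (hm2 : ¬ 2 ∣ m) (hpm : p.Coprime m1) (hU : HU p) (hB : HB p)
    {s : Multiset (ZMod m1)} (hs : Rel0 p s)
    (hpar : ∀ a : ZMod m1, Even (s.countP (fun b => Relation.EqvGen (Link p) a b))) :
    EV p m1 1 s := by
  have hk0 : 0 < k := by omega
  have hm1 : 0 < m1 := by rw [← hkm]; exact Nat.mul_pos hk0 hm
  have hz : NeZero m := ⟨hm.ne'⟩
  have hz1 : NeZero m1 := ⟨hm1.ne'⟩
  have hpk : p.Coprime k := Nat.Coprime.coprime_dvd_right (Dvd.intro _ hkm) hpm
  have hpm0 : p.Coprime m := Nat.Coprime.coprime_dvd_right (Dvd.intro_left _ hkm) hpm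
  apply EV.of_primes
  intro q hq
  by_cases hq2 : q = 2
  · subst hq2
    refine two_part hm hk0 hpk hkm hm2 hpm0 hU hB (fun n n1 hn hn2 hkn B =>
      oddize hk n n1 hn hn2 hkn B) hs ?_
    intro L M0 M1 hL hpL hM0 hM1 hUL
    have hM00 : 0 < M0 := by rw [← hM0]; exact Nat.mul_pos hL hm
    have hM10 : 0 < M1 := by rw [← hM1]; exact Nat.mul_pos hk0 hM00
    have hz2 : NeZero M0 := ⟨hM00.ne'⟩
    have hz3 : NeZero M1 := ⟨hM10.ne'⟩
    exact pair_up (Relation.EqvGen (Link p)) (Relation.EqvGen.is_equivalence _)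
      (fun a b hab => eqvGen_c2 (fun a b h => link_c2 hm2 hk hkm hUL hM0 hM1 a b h) hab)
      _ s rfl hpar
  · -- odd primes
    obtain ⟨s', hs'⟩ := oddize hk m m1 hm hm2 hkm s
    have hrel : Rel0 p s' := by
      intro t0
      obtain ⟨t, ht⟩ := ZMod.unitsMap_surjective (Dvd.intro_left k hkm : m ∣ m1) t0
      have h1 := hs' ℤ _ (W_iod hpm t).iod.od
      rw [hs t] at h1
      obtain ⟨r, hr00, hr⟩ := W_iota' (k := k) (m0 := m) (m := m1) hpm hkm
      have h3 : ∀ x : ZMod m, W p ((t : ZMod m1) * iota k x) =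
          (k : ℤ) * (r : ℤ) * W p ((t0 : ZMod m) * x) := by
        intro x
        rw [unit_iota hkm, hr, ht]
      simp only [h3] at h1
      rw [Multiset.sum_map_mul_left] at h1
      simpa [hr00.ne', hk0.ne'] using h1.symm
    have hE : ∃ n : ℕ, ¬ q ∣ n ∧ EV p m n s' := by
      by_cases hqm : q ∣ m
      · exact q_part hp hq hq2 hm2 hpm0 hqm hrel
      · exact odd_part hp hq hq2 hm2 hpm0 hqm hrel
    obtain ⟨n, hn, L, hL, hpL, H⟩ := hE
    refine ⟨2 * n, ?_, L, hL, hpL, ?_⟩
    · intro h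
      rcases hq.dvd_mul.mp h with h | h
      · exact hq2 ((Nat.prime_dvd_prime_iff_eq hq Nat.prime_two).mp h)
      · exact hn h
    · intro c M hLc hc hpc hM Q _ g hg
      have hzM : NeZero M := ⟨by rw [← hM]; exact (Nat.mul_pos hc hm1).ne'⟩
      have h1 := hs' Q _ (hg.comp_iota hM).iod.od
      have h2 := H (c * k) M (hLc.mul_right k) (Nat.mul_pos hc hk0)
        (Nat.Coprime.mul_right hpc hpk) (by rw [← hM, ← hkm]; ring) Q g hg
      have e1 : ∀ b : ZMod m, (iota c (iota k b : ZMod m1) : ZMod M) = iota (c * k) b :=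
        fun b => iota_comp hM b
      simp only [e1] at h1
      rw [mul_comm, mul_nsmul', h1, ← mul_nsmul', mul_comm n 2, mul_nsmul', h2, smul_zero]

end Pool.Agent.H916Z
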