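import Pool.Agent.H916Z.Quot

/-!
Auxiliary primes: the difference `g (ℓ a) - g a`.
-/

namespace Pool.Agent.H916Z

open Finset Pool.Agent.H916R2 Pool.Agent.H916T Pool.Agent.H916U

variable {p : ℕ}

/-- setting the value at `0` -/
lemma zeroOut_OD {m : ℕ} [NeZero m] (hm2 : ¬ 2 ∣ m) {Q : Type} [AddCommGroup Q] {h : ZMod m → Q}
    (hneg : ∀ a, h (-a) = - h a)
    (hdist : ∀ q d : ℕ, q.Prime → q ≠ 2 → q * d = m → ∀ a, (q : ZMod m) * a ≠ 0 →
      ∑ i ∈ range q, h (a + (i : ZMod m) * (d : ZMod m)) = h ((q : ZMod m) * a)) :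
    OD (fun a : ZMod m => if a = 0 then 0 else h a) := by
  set H : ZMod m → Q := fun a => if a = 0 then 0 else h a with hH
  have hHneg : ∀ a, H (-a) = - H a := by
    intro a
    simp only [hH, neg_eq_zero]
    split_ifs
    · simp
    · exact hneg a
  have hH0 : H 0 = 0 := by simp [hH]
  refine ⟨hHneg, hH0, ?_, ?_⟩
  · intro q d hq hq2 hqd a
    have hm : 0 < m := NeZero.pos m
    have hd : 0 < d := Nat.pos_of_ne_zero (by rintro rfl; simp at hqd; omega)
    have hqd0 : ((q : ℕ) : ZMod m) * (d : ZMod m) = 0 := by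
      have : ((q * d : ℕ) : ZMod m) = 0 := by rw [hqd]; simp
      simpa using this
    by_cases ha : (q : ZMod m) * a = 0
    · rw [ha, hH0]
      have hmv : m ∣ q * a.val := by
        rw [← ZMod.natCast_eq_zero_iff]; push_cast; rw [ZMod.natCast_zmod_val]; exact ha
      have hdv : d ∣ a.val := by
        have hmv' : q * d ∣ q * a.val := by rw [hqd]; exact hmv
        exact Nat.dvd_of_mul_dvd_mul_left hq.pos hmv'
      obtain ⟨j, hj⟩ := hdv
      have haj : a = 0 + (j : ZMod m) * (d : ZMod m) := by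
        rw [zero_add]
        calc a = ((a.val : ℕ) : ZMod m) := (ZMod.natCast_zmod_val a).symm
          _ = _ := by rw [hj]; push_cast; ring
      conv_lhs => rw [haj]
      rw [coset_sum_shift_mul (fun x => H x) hqd 0 j]
      obtain ⟨r, hr⟩ : ∃ r, q = 2 * r + 1 := by
        have := hq.eq_two_or_odd
        exact ⟨q / 2, by omega⟩
      refine Finset.sum_involution (fun i _ => if i = 0 then 0 else q - i) ?_ ?_ ?_ ?_
      · intro i hi
        have hi' := mem_range.mp hi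
        by_cases h0 : i = 0
        · subst h0; simp [hH0]
        · simp only [if_neg h0]
          have e : (0 : ZMod m) + ((q - i : ℕ) : ZMod m) * (d : ZMod m) =
              -(0 + (i : ZMod m) * (d : ZMod m)) := by
            rw [Nat.cast_sub hi'.le]
            linear_combination hqd0
          rw [e, hHneg, add_neg_cancel]
      · intro i hi hne
        have hi' := mem_range.mp hi
        have h0 : i ≠ 0 := by
          rintro rfl
          exact hne (by simp [hH0])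
        rw [if_neg h0]
        omega
      · intro i hi
        have hi' := mem_range.mp hi
        split_ifs
        · exact mem_range.mpr hq.pos
        · exact mem_range.mpr (by omega)
      · intro i hi
        have hi' := mem_range.mp hi
        by_cases h0 : i = 0
        · simp [h0]
        · have h1 : q - i ≠ 0 := by omega
          simp only [if_neg h0, if_neg h1]
          omega
    · have h1 : ∀ i ∈ range q, H (a + (i : ZMod m) * (d : ZMod m)) =
          h (a + (i : ZMod m) * (d : ZMod m)) := by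
        intro i _
        simp only [hH]
        rw [if_neg]
        intro h0
        apply ha
        linear_combination (q : ZMod m) * h0 - (i : ZMod m) * hqd0
      rw [sum_congr rfl h1, hdist q d hq hq2 hqd a ha]
      simp only [hH]
      rw [if_neg ha]
  · intro d hd
    exact absurd ⟨d, hd.symm⟩ hm2

section

variable {m ℓ M F : ℕ} [NeZero m] [NeZero M] [Fact ℓ.Prime]

/-- the points of the coset -/
noncomputable def pt (m ℓ M : ℕ) (a : ZMod m) (c : ZMod ℓ) : ZMod M := iota ℓ a + iota m c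

/-- the class of `p ^ F` -/
noncomputable def uu (p ℓ F : ℕ) (hpℓ : p.Coprime ℓ) : (ZMod ℓ)ˣ := (ZMod.unitOfCoprime p hpℓ) ^ F

lemma uu_val (hpℓ : p.Coprime ℓ) : ((uu p ℓ F hpℓ : (ZMod ℓ)ˣ) : ZMod ℓ) = (p : ZMod ℓ) ^ F := by
  unfold uu
  rw [Units.val_pow_eq_pow_val, ZMod.coe_unitOfCoprime]

lemma p_pt (hM : ℓ * m = M) (n : ℕ) (a : ZMod m) (c : ZMod ℓ) :
    (n : ZMod M) * pt m ℓ M a c = pt m ℓ M ((n : ZMod m) * a) ((n : ZMod ℓ) * c) := by
  unfold pt
  rw [mul_add, iota_natMul hM, iota_natMul (by rw [← hM, mul_comm])]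

lemma neg_pt (hM : ℓ * m = M) (a : ZMod m) (c : ZMod ℓ) :
    pt m ℓ M (-a) (-c) = -pt m ℓ M a c := by
  unfold pt
  rw [iota_neg hM, iota_neg (by rw [← hM, mul_comm])]
  ring

variable {Q : Type} [AddCommGroup Q] {g : ZMod M → Q}

lemma pt_inv (hM : ℓ * m = M) (hpℓ : p.Coprime ℓ) (hF : (p : ZMod m) ^ F = 1)
    (hg : ∀ a, g ((p : ZMod M) * a) = g a) (a : ZMod m) (c : (ZMod ℓ)ˣ) :
    g (pt m ℓ M a (((uu p ℓ F hpℓ * c : (ZMod ℓ)ˣ) : ZMod ℓ))) = g (pt m ℓ M a (c : ZMod ℓ)) := by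
  have h1 : ∀ (j : ℕ) (x : ZMod M), g ((p : ZMod M) ^ j * x) = g x := pow_invariant hg
  have h2 := h1 F (pt m ℓ M a (c : ZMod ℓ))
  have h3 := p_pt hM (p ^ F) a (c : ZMod ℓ)
  push_cast at h3
  rw [h3, hF, one_mul] at h2
  rw [Units.val_mul, uu_val]
  exact h2

/-- the divided sum -/
noncomputable def HH (g : ZMod M → Q) (hpℓ : p.Coprime ℓ) (F : ℕ) (a : ZMod m) : Q :=
  ∑ x : (ZMod ℓ)ˣ ⧸ Subgroup.zpowers (uu p ℓ F hpℓ), g (pt m ℓ M a ((x.out : (ZMod ℓ)ˣ) : ZMod ℓ))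

lemma HH_shift (hM : ℓ * m = M) (hpℓ : p.Coprime ℓ) (hF : (p : ZMod m) ^ F = 1)
    (hg : ∀ a, g ((p : ZMod M) * a) = g a) (a : ZMod m) (t : (ZMod ℓ)ˣ) :
    ∑ x : (ZMod ℓ)ˣ ⧸ Subgroup.zpowers (uu p ℓ F hpℓ),
      g (pt m ℓ M a ((t : ZMod ℓ) * ((x.out : (ZMod ℓ)ˣ) : ZMod ℓ))) = HH g hpℓ F a := by
  have h := sum_shift (u := uu p ℓ F hpℓ)
    (Φ := fun c : (ZMod ℓ)ˣ => g (pt m ℓ M a (c : ZMod ℓ))) (pt_inv hM hpℓ hF hg a) t
  simp only [Units.val_mul] at h
  exact h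

/-- the difference -/
lemma diff_eq (hM : ℓ * m = M) (hpℓ : p.Coprime ℓ) (hF : (p : ZMod m) ^ F = 1)
    (hℓ2 : ℓ ≠ 2) (hg : IOD p g) (a : ZMod m) :
    g (iota ℓ ((ℓ : ZMod m) * a)) = g (iota ℓ a) + orderOf (uu p ℓ F hpℓ) • HH g hpℓ F a := by
  classical
  have hℓ : ℓ.Prime := Fact.out
  have hM' : m * ℓ = M := by rw [← hM, mul_comm]
  have h1 := hg.od.odd ℓ m hℓ hℓ2 hM (iota ℓ a)
  rw [iota_natMul hM, ← h1]
  have h2 : ∀ i ∈ range ℓ, g (iota ℓ a + (i : ZMod M) * (m : ZMod M)) =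
      g (pt m ℓ M a (i : ZMod ℓ)) := by
    intro i _
    unfold pt
    rw [iota_natCast hM']
    push_cast
    rw [mul_comm (i : ZMod M)]
  rw [sum_congr rfl h2]
  have h3 : ∑ i ∈ range ℓ, g (pt m ℓ M a (i : ZMod ℓ)) = ∑ c : ZMod ℓ, g (pt m ℓ M a c) := by
    symm
    refine Finset.sum_nbij' (fun c => c.val) (fun i => (i : ZMod ℓ)) ?_ ?_ ?_ ?_ ?_
    · intro c _; exact mem_range.mpr (ZMod.val_lt c)
    · intro i _; exact mem_univ _
    · intro c _; exact ZMod.natCast_zmod_val c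
    · intro i hi; exact ZMod.val_cast_of_lt (mem_range.mp hi)
    · intro c _; rw [ZMod.natCast_zmod_val]
  rw [h3, ← Finset.add_sum_erase univ _ (mem_univ (0 : ZMod ℓ))]
  have h4 : pt m ℓ M a (0 : ZMod ℓ) = iota ℓ a := by
    unfold pt; rw [iota_zero, add_zero]
  rw [h4]
  congr 1
  have h5 : ∑ c ∈ univ.erase (0 : ZMod ℓ), g (pt m ℓ M a c) =
      ∑ c : (ZMod ℓ)ˣ, g (pt m ℓ M a (c : ZMod ℓ)) := by
    symm
    refine Finset.sum_bij (fun (c : (ZMod ℓ)ˣ) _ => (c : ZMod ℓ)) ?_ ?_ ?_ ?_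
    · intro c _; exact mem_erase.mpr ⟨c.ne_zero, mem_univ _⟩
    · intro c _ c' _ h; exact Units.ext h
    · intro c hc
      exact ⟨Units.mk0 c (mem_erase.mp hc).1, mem_univ _, rfl⟩
    · intro c _; rfl
  rw [h5, sum_group (pt_inv hM hpℓ hF hg.inv a)]
  rfl

lemma HH_iod (hm2 : ¬ 2 ∣ m) (hp : p.Coprime m) (hM : ℓ * m = M) (hpℓ : p.Coprime ℓ)
    (hF : (p : ZMod m) ^ F = 1) (hℓm : ¬ ℓ ∣ m) (hg : IOD p g) :
    IOD p (fun a : ZMod m => if a = 0 then 0 else HH g hpℓ F a) := by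
  have hℓ : ℓ.Prime := Fact.out
  have hneg : ∀ a : ZMod m, HH g hpℓ F (-a) = - HH g hpℓ F a := by
    intro a
    rw [← HH_shift hM hpℓ hF hg.inv (-a) (-1)]
    unfold HH
    rw [← sum_neg_distrib]
    refine sum_congr rfl fun x _ => ?_
    rw [Units.val_neg, Units.val_one, neg_one_mul, neg_pt hM, hg.od.neg]
  refine ⟨zeroOut_OD hm2 hneg ?_, ?_⟩
  · intro q d hq hq2 hqd a _
    have hqℓ : q.Coprime ℓ := by
      rw [Nat.coprime_primes hq hℓ]
      rintro rfl
      exact hℓm (Dvd.intro d hqd)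
    have hqM : q * (ℓ * d) = M := by rw [← hM, ← hqd]; ring
    rw [← HH_shift hM hpℓ hF hg.inv ((q : ZMod m) * a) (ZMod.unitOfCoprime q hqℓ)]
    unfold HH
    rw [sum_comm]
    refine sum_congr rfl fun x _ => ?_
    rw [ZMod.coe_unitOfCoprime, ← p_pt hM, ← hg.od.odd q (ℓ * d) hq hq2 hqM]
    refine sum_congr rfl fun i _ => ?_
    congr 1
    unfold pt
    rw [iota_add hM]
    have h1 : (i : ZMod m) * (d : ZMod m) = ((i * d : ℕ) : ZMod m) := by push_cast; rfl
    rw [h1, iota_natCast hM]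
    push_cast; ring
  · intro a
    have hu := H916T.isUnit_p hp
    by_cases ha : a = 0
    · simp [ha]
    · have hpa : (p : ZMod m) * a ≠ 0 := fun h => ha ((hu.mul_right_eq_zero).mp h)
      simp only [if_neg ha, if_neg hpa]
      rw [← HH_shift hM hpℓ hF hg.inv ((p : ZMod m) * a) (ZMod.unitOfCoprime p hpℓ)]
      unfold HH
      refine sum_congr rfl fun x _ => ?_
      rw [ZMod.coe_unitOfCoprime, ← p_pt hM, hg.inv]

/-- **Lemma A.** -/
theorem lemA (hm2 : ¬ 2 ∣ m) (hp : p.Coprime m) (hM : ℓ * m = M) (hpℓ : p.Coprime ℓ)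
    (hF : (p : ZMod m) ^ F = 1) (hℓ2 : ℓ ≠ 2) (hℓm : ¬ ℓ ∣ m) {s : Multiset (ZMod m)} {K n : ℕ}
    (hK : ∀ (Q : Type) [AddCommGroup Q] (h : ZMod m → Q), IOD p h → K • (s.map h).sum = 0)
    (hKn : K ∣ n * orderOf (uu p ℓ F hpℓ)) (hg : IOD p g) :
    n • (s.map fun a => g (iota ℓ ((ℓ : ZMod m) * a))).sum =
      n • (s.map fun a => g (iota ℓ a)).sum := by
  set H : ZMod m → Q := fun a => if a = 0 then 0 else HH g hpℓ F a with hH
  have h1 : ∀ a : ZMod m, g (iota ℓ ((ℓ : ZMod m) * a)) =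
      g (iota ℓ a) + orderOf (uu p ℓ F hpℓ) • H a := by
    intro a
    by_cases ha : a = 0
    · rw [ha, mul_zero]; simp [hH]
    · simp only [hH, if_neg ha]
      exact diff_eq hM hpℓ hF hℓ2 hg a
  simp only [h1]
  rw [Multiset.sum_map_add, Multiset.sum_map_nsmul, smul_add]
  obtain ⟨e, he⟩ := hKn
  have h2 := hK Q H (HH_iod hm2 hp hM hpℓ hF hℓm hg)
  rw [← mul_nsmul', he, mul_comm K e, mul_nsmul', h2, smul_zero, add_zero]

end

end Pool.Agent.H916Z
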