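import Pool.Agent.H916Z.TOp

/-!
Divisibility along the tower of an odd prime dividing the level.
-/

set_option linter.unusedSectionVars false

namespace Pool.Agent.H916Z

open Finset Pool.Agent.H916R2 Pool.Agent.H916T Pool.Agent.H916U

variable {p : ℕ}

lemma binom_one (X : ℤ) (i : ℕ) : ∃ c : ℤ, (1 + X) ^ i = 1 + i * X + X ^ 2 * c := by
  induction i with
  | zero => exact ⟨0, by simp⟩
  | succ i ih =>
    obtain ⟨c, hc⟩ := ih
    refine ⟨c + i + X * c, ?_⟩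
    rw [pow_succ, hc]
    push_cast; ring

lemma binom_two (X : ℤ) (i : ℕ) :
    ∃ c : ℤ, (1 + X) ^ i = 1 + i * X + (Nat.choose i 2 : ℤ) * X ^ 2 + X ^ 3 * c := by
  induction i with
  | zero => exact ⟨0, by simp⟩
  | succ i ih =>
    obtain ⟨c, hc⟩ := ih
    refine ⟨c + (Nat.choose i 2 : ℤ) + X * c, ?_⟩
    have h1 : Nat.choose (i + 1) 2 = i + Nat.choose i 2 := by
      rw [Nat.choose_succ_succ' i 1, Nat.choose_one_right]
    rw [pow_succ, hc, h1]
    push_cast; ring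

lemma choose_two_odd {q : ℕ} (hq : q.Prime) (hq2 : q ≠ 2) : ∃ c : ℕ, Nat.choose q 2 = q * c := by
  obtain ⟨r, hr⟩ : ∃ r, q = 2 * r + 1 := by
    have := hq.eq_two_or_odd
    exact ⟨q / 2, by omega⟩
  refine ⟨r, ?_⟩
  rw [Nat.choose_two_right, hr, Nat.add_sub_cancel]
  have : (2 * r + 1) * (2 * r) = ((2 * r + 1) * r) * 2 := by ring
  rw [this, Nat.mul_div_cancel _ (by norm_num)]

/-- saturation -/
lemma exists_pow {m q F : ℕ} {u0 : ℤ} (hq : q.Prime) (hq2 : q ≠ 2) (hqm : q ∣ m)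
    (hF : (p : ℤ) ^ F = 1 + m * u0) (hu0 : ¬ (q : ℤ) ∣ u0) (s : ℕ) :
    ∃ (k : ℕ) (u : ℤ), (p : ℤ) ^ k = 1 + (q : ℤ) ^ s * m * u ∧ ¬ (q : ℤ) ∣ u := by
  induction s with
  | zero => exact ⟨F, u0, by rw [hF]; ring, hu0⟩
  | succ s ih =>
    obtain ⟨k, u, hk, hu⟩ := ih
    obtain ⟨c, hc⟩ := binom_two ((q : ℤ) ^ s * m * u) q
    obtain ⟨c2, hc2⟩ := choose_two_odd hq hq2
    obtain ⟨m0, rfl⟩ := hqm
    refine ⟨k * q, u * (1 + (q : ℤ) ^ s * ((q * m0 : ℕ) : ℤ) * (u * c2 +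
      (q : ℤ) ^ s * m0 * u ^ 2 * c)), ?_, ?_⟩
    · rw [pow_mul, hk, hc, hc2]
      push_cast; ring
    · intro h
      have hqp : Prime (q : ℤ) := Nat.prime_iff_prime_int.mp hq
      rcases hqp.dvd_or_dvd h with h | h
      · exact hu h
      · have h1 : (q : ℤ) ∣ 1 := by
          have h2 : (q : ℤ) ∣ (q : ℤ) ^ s * ((q * m0 : ℕ) : ℤ) * (u * c2 +
              (q : ℤ) ^ s * m0 * u ^ 2 * c) :=
            ⟨(q : ℤ) ^ s * m0 * (u * c2 + (q : ℤ) ^ s * m0 * u ^ 2 * c), by push_cast; ring⟩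
          have h3 := dvd_sub h h2
          simpa using h3
        exact hqp.not_unit (isUnit_of_dvd_one h1)

section

variable {m q r M : ℕ} [NeZero m] {Q : Type} [AddCommGroup Q] {g : ZMod M → Q}

/-- The values at elements prime to `q` only depend on the class modulo `m`. -/
lemma const_on_classes (hq : q.Prime) (hqm : q ∣ m) (hM : q ^ r * m = M)
    (hsat : ∀ s : ℕ, ∃ (k : ℕ) (u : ℤ), (p : ℤ) ^ k = 1 + (q : ℤ) ^ s * m * u ∧ ¬ (q : ℤ) ∣ u)
    (hg : ∀ a, g ((p : ZMod M) * a) = g a) :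
    ∀ (j s : ℕ), s + j = r → ∀ x x' : ℤ, ¬ (q : ℤ) ∣ x → ((q : ℤ) ^ s * m) ∣ x' - x →
      g ((x : ℤ) : ZMod M) = g ((x' : ℤ) : ZMod M) := by
  have hqp : Prime (q : ℤ) := Nat.prime_iff_prime_int.mp hq
  intro j
  induction j with
  | zero =>
    intro s hs x x' _ hd
    congr 1
    rw [add_zero] at hs
    subst hs
    have h1 : ((x' - x : ℤ) : ZMod M) = 0 := by
      rw [ZMod.intCast_zmod_eq_zero_iff_dvd, ← hM]
      push_cast
      exact hd
    push_cast at h1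
    exact (sub_eq_zero.mp h1).symm
  | succ j ih =>
    intro s hs x x' hx hd
    obtain ⟨c, hc⟩ := hd
    obtain ⟨k, u, hk, hu⟩ := hsat s
    have hqf : Fact q.Prime := ⟨hq⟩
    -- solve `i * u * x ≡ c`
    obtain ⟨i, y, hi⟩ : ∃ (i : ℕ) (y : ℤ), c = i * (u * x) + q * y := by
      have h1 : ((u * x : ℤ) : ZMod q) ≠ 0 := by
        intro h
        rw [ZMod.intCast_zmod_eq_zero_iff_dvd] at h
        rcases hqp.dvd_or_dvd h with h | h
        · exact hu h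
        · exact hx h
      set i : ℕ := (((c : ℤ) : ZMod q) * ((u * x : ℤ) : ZMod q)⁻¹).val with hi
      have h2 : ((c - i * (u * x) : ℤ) : ZMod q) = 0 := by
        have h3 : ((i : ℕ) : ZMod q) = ((c : ℤ) : ZMod q) * ((u * x : ℤ) : ZMod q)⁻¹ := by
          rw [hi, ZMod.natCast_zmod_val]
        have h4 : ((c - i * (u * x) : ℤ) : ZMod q) =
            ((c : ℤ) : ZMod q) - ((i : ℕ) : ZMod q) * ((u * x : ℤ) : ZMod q) := by
          push_cast; ring
        rw [h4, h3, mul_assoc, inv_mul_cancel₀ h1, mul_one, sub_self]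
      rw [ZMod.intCast_zmod_eq_zero_iff_dvd] at h2
      obtain ⟨y, hy⟩ := h2
      exact ⟨i, y, by linear_combination hy⟩
    obtain ⟨c', hc'⟩ := binom_one ((q : ℤ) ^ s * m * u) i
    obtain ⟨m0, hm0⟩ := hqm
    have hmz : (m : ℤ) = q * m0 := by rw [hm0]; push_cast; ring
    set x'' : ℤ := (p : ℤ) ^ (k * i) * x with hx''
    have e1 : x'' = x + (i : ℤ) * ((q : ℤ) ^ s * m * u) * x +
        ((q : ℤ) ^ s * m * u) ^ 2 * c' * x := by
      rw [hx'', pow_mul, hk, hc']; ring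
    have h5 : ¬ (q : ℤ) ∣ x'' := by
      intro h
      apply hx
      have h6 : (q : ℤ) ∣ (i : ℤ) * ((q : ℤ) ^ s * m * u) * x +
          ((q : ℤ) ^ s * m * u) ^ 2 * c' * x := by
        refine ⟨(i : ℤ) * ((q : ℤ) ^ s * m0 * u) * x +
          (q : ℤ) ^ s * m0 * u * ((q : ℤ) ^ s * m * u) * c' * x, ?_⟩
        rw [hmz]; ring
      have h7 := dvd_sub h h6
      have h8 : x'' - ((i : ℤ) * ((q : ℤ) ^ s * m * u) * x +
          ((q : ℤ) ^ s * m * u) ^ 2 * c' * x) = x := by rw [e1]; ring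
      rwa [h8] at h7
    have h9 : g ((x : ℤ) : ZMod M) = g ((x'' : ℤ) : ZMod M) := by
      rw [hx'']
      push_cast
      exact (pow_invariant hg (k * i) _).symm
    rw [h9]
    refine ih (s + 1) (by omega) x'' x' h5 ?_
    refine ⟨y - (m0 : ℤ) * (q : ℤ) ^ s * u ^ 2 * c' * x, ?_⟩
    have e2 : x' = x + (q : ℤ) ^ s * m * c := by linear_combination hc
    rw [e2, e1, hi, hmz]
    ring

/-- multiplication by powers of `q` -/
lemma pow_mul_value (hq : q.Prime) (hq2 : q ≠ 2) (hqm : q ∣ m) (hM : q ^ r * m = M)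
    (hsat : ∀ s : ℕ, ∃ (k : ℕ) (u : ℤ), (p : ℤ) ^ k = 1 + (q : ℤ) ^ s * m * u ∧ ¬ (q : ℤ) ∣ u)
    (hg : IOD p g) : ∀ k ≤ r, ∀ x : ℤ, ¬ (q : ℤ) ∣ x →
      g (((q : ℤ) ^ k * x : ℤ) : ZMod M) = q ^ k • g ((x : ℤ) : ZMod M) := by
  intro k
  induction k with
  | zero => intro _ x _; simp
  | succ k ih =>
    intro hk x hx
    obtain ⟨r', hr'⟩ : ∃ r', r = k + 1 + r' := ⟨r - (k + 1), by omega⟩
    have hqM : q * (q ^ (k + r') * m) = M := by
      rw [← hM, hr']; ring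
    have h1 := hg.od.odd q (q ^ (k + r') * m) hq hq2 hqM (((q : ℤ) ^ k * x : ℤ) : ZMod M)
    have h2 : (((q : ℤ) ^ (k + 1) * x : ℤ) : ZMod M) =
        (q : ZMod M) * (((q : ℤ) ^ k * x : ℤ) : ZMod M) := by
      push_cast; ring
    rw [h2, ← h1]
    have h3 : ∀ i ∈ range q, g ((((q : ℤ) ^ k * x : ℤ) : ZMod M) +
        (i : ZMod M) * ((q ^ (k + r') * m : ℕ) : ZMod M)) = q ^ k • g ((x : ℤ) : ZMod M) := by
      intro i _
      have h4 : (((q : ℤ) ^ k * x : ℤ) : ZMod M) +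
          (i : ZMod M) * ((q ^ (k + r') * m : ℕ) : ZMod M) =
          (((q : ℤ) ^ k * (x + i * ((q : ℤ) ^ r' * m)) : ℤ) : ZMod M) := by
        push_cast; ring
      have h5 : ¬ (q : ℤ) ∣ x + i * ((q : ℤ) ^ r' * m) := by
        intro h
        apply hx
        obtain ⟨m0, hm0⟩ := hqm
        have h6 : (q : ℤ) ∣ i * ((q : ℤ) ^ r' * m) :=
          ⟨i * ((q : ℤ) ^ r' * m0), by rw [hm0]; push_cast; ring⟩
        have h7 := dvd_sub h h6
        rwa [add_sub_cancel_right] at h7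
      rw [h4, ih (by omega) _ h5]
      congr 1
      refine (const_on_classes hq hqm hM hsat hg.inv r 0 (by omega) x _ hx ?_).symm
      exact ⟨i * (q : ℤ) ^ r', by ring⟩
    rw [sum_congr rfl h3, sum_const, card_range, ← mul_nsmul', pow_succ']

end

end Pool.Agent.H916Z
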