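import Pool.Agent.H916Z.LemA

/-!
The parity step.
-/

set_option linter.unusedSectionVars false

namespace Pool.Agent.H916Z

open Finset Pool.Agent.H916R2 Pool.Agent.H916T Pool.Agent.H916U

variable {p : ℕ}

/-- congruence modulo `2` for test functions -/
def C2 (p : ℕ) {M : ℕ} (x y : ZMod M) : Prop :=
  ∃ B : Multiset (ZMod M), ∀ (Q : Type) [AddCommGroup Q] (g : ZMod M → Q), TF p g →
    g x = g y + 2 • (B.map g).sum

section C2

variable {M : ℕ}

lemma C2.refl (x : ZMod M) : C2 p x x := ⟨0, fun Q _ g _ => by simp⟩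

lemma sum_map_neg' {Q : Type} [AddCommGroup Q] {g : ZMod M → Q} (hg : ∀ a, g (-a) = - g a)
    (B : Multiset (ZMod M)) : ((B.map Neg.neg).map g).sum = - (B.map g).sum := by
  rw [Multiset.map_map]
  have : (B.map (g ∘ Neg.neg)).sum = (B.map fun a => - g a).sum := by
    congr 1
    exact Multiset.map_congr rfl fun a _ => hg a
  rw [this, Multiset.sum_map_neg]

lemma C2.symm {x y : ZMod M} (h : C2 p x y) : C2 p y x := by
  obtain ⟨B, hB⟩ := h
  refine ⟨B.map Neg.neg, fun Q _ g hg => ?_⟩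
  rw [hB Q g hg, sum_map_neg' hg.iod.od.neg, smul_neg]
  abel

lemma C2.trans {x y z : ZMod M} (h1 : C2 p x y) (h2 : C2 p y z) : C2 p x z := by
  obtain ⟨B, hB⟩ := h1
  obtain ⟨C, hC⟩ := h2
  refine ⟨B + C, fun Q _ g hg => ?_⟩
  rw [hB Q g hg, hC Q g hg, Multiset.map_add, Multiset.sum_add, smul_add]
  abel

end C2

section

variable {m M L : ℕ} [NeZero m] [NeZero M]

lemma sum_smul_multiset {Q : Type} [AddCommGroup Q] (B : Multiset (ZMod M)) (g : ZMod M → Q)
    (k : ℕ) : ((k • B).map g).sum = k • (B.map g).sum := by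
  rw [Multiset.map_nsmul, Multiset.sum_nsmul]

/-- multiplication by the class of a prime with even index -/
lemma c2_prime {ℓ F : ℕ} [Fact ℓ.Prime] (hL : L * m = M) (hℓL : ℓ ∣ L) (hpℓ : p.Coprime ℓ)
    (hF : (p : ZMod m) ^ F = 1) (hℓ2 : ℓ ≠ 2) (he : 2 ∣ orderOf (uu p ℓ F hpℓ)) (a : ZMod m) :
    C2 p (iota L ((ℓ : ZMod m) * a) : ZMod M) (iota L a) := by
  obtain ⟨e, rfl⟩ := hℓL
  obtain ⟨k, hk⟩ := he
  have hM0 : 0 < M := NeZero.pos M
  have hz : NeZero (ℓ * m) := ⟨by
    intro h0
    have : ℓ * e * m = (ℓ * m) * e := by ring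
    rw [this, h0, zero_mul] at hL
    omega⟩
  have h1 : e * (ℓ * m) = M := by rw [← hL]; ring
  have h2 : ∀ b : ZMod m, (iota e (iota ℓ b : ZMod (ℓ * m)) : ZMod M) = iota (ℓ * e) b := by
    intro b
    rw [iota_comp h1, mul_comm]
  refine ⟨k • (univ : Finset ((ZMod ℓ)ˣ ⧸ Subgroup.zpowers (uu p ℓ F hpℓ))).val.map
    (fun x => (iota e (pt m ℓ (ℓ * m) a ((x.out : (ZMod ℓ)ˣ) : ZMod ℓ)) : ZMod M)), ?_⟩
  intro Q _ g hg
  have h3 := diff_eq (m := m) (ℓ := ℓ) (M := ℓ * m) (g := fun b => g (iota e b)) rfl hpℓ hF hℓ2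
    (hg.comp_iota h1).iod a
  simp only [h2] at h3
  rw [h3, hk, sum_smul_multiset, Multiset.map_map, mul_nsmul']
  rfl

lemma gcd_unit {d x : ℕ} (hd : Nat.gcd x m = d) :
    ∃ u : (ZMod m)ˣ, (x : ZMod m) = (u : ZMod m) * (d : ZMod m) := by
  obtain ⟨d', hd', u, hu, hx⟩ := ZMod.eq_unit_mul_divisor (x : ZMod m)
  obtain ⟨u, rfl⟩ := hu
  refine ⟨u, ?_⟩
  rw [hx]
  congr 2
  have h1 : (x : ZMod m) = (((u : ZMod m).val * d' : ℕ) : ZMod m) := by
    push_cast; rw [ZMod.natCast_zmod_val]; exact hx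
  rw [ZMod.natCast_eq_natCast_iff] at h1
  have h2 : Nat.gcd x m = Nat.gcd ((u : ZMod m).val * d') m := h1.gcd_eq
  have h3 : Nat.Coprime (u : ZMod m).val m := ZMod.val_coe_unit_coprime u
  rw [← hd, h2, Nat.Coprime.gcd_mul_left_cancel _ h3]
  exact (Nat.gcd_eq_left hd').symm

/-- all units act trivially modulo `2` -/
def AllUnits (p m L M : ℕ) : Prop :=
  ∀ (t : (ZMod m)ˣ) (a : ZMod m), C2 p (iota L ((t : ZMod m) * a) : ZMod M) (iota L a)

lemma c2_sum (hU : AllUnits p m L M) (hL : L * m = M) {q d o : ℕ} (hq : q.Prime) (hq2 : q ≠ 2)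
    (hod : o * d = m) (hqo : q * q ∣ o) :
    C2 p (iota L ((d : ℕ) : ZMod m) : ZMod M) (iota L ((q * d : ℕ) : ZMod m)) := by
  have hm : 0 < m := NeZero.pos m
  obtain ⟨o', ho'⟩ := hqo
  have hqm : q * (q * o' * d) = m := by rw [← hod, ho']; ring
  -- the elements of the coset are unit multiples
  have hu : ∀ i : ℕ, ∃ u : (ZMod m)ˣ, (d : ZMod m) + (i : ZMod m) * ((q * o' * d : ℕ) : ZMod m) =
      (u : ZMod m) * (d : ZMod m) := by
    intro i
    have h1 : Nat.gcd (d + i * (q * o' * d)) m = d := by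
      have h2 : d + i * (q * o' * d) = (1 + i * (q * o')) * d := by ring
      rw [h2, ← hod, Nat.gcd_mul_right]
      have h3 : Nat.Coprime (1 + i * (q * o')) o := by
        rw [ho']
        have h4 : Nat.Coprime (1 + i * (q * o')) (q * o') := by
          rw [Nat.coprime_add_mul_right_left]
          exact Nat.coprime_one_left _
        exact Nat.Coprime.mul_right (Nat.Coprime.mul_right
          (Nat.Coprime.coprime_dvd_right (Dvd.intro _ rfl) h4)
          (Nat.Coprime.coprime_dvd_right (Dvd.intro _ rfl) h4))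
          (Nat.Coprime.coprime_dvd_right (Dvd.intro_left _ rfl) h4)
      rw [Nat.Coprime.gcd_eq_one h3, one_mul]
    obtain ⟨u, hu⟩ := gcd_unit h1
    refine ⟨u, ?_⟩
    rw [← hu]
    push_cast; ring
  choose u hu using hu
  choose B hB using fun i => hU (u i) (d : ZMod m)
  obtain ⟨r, hr⟩ : ∃ r, q = 2 * r + 1 := by
    have := hq.eq_two_or_odd
    exact ⟨q / 2, by omega⟩
  apply C2.symm
  refine ⟨r • {(iota L (d : ZMod m) : ZMod M)} + ∑ i ∈ range q, B i, ?_⟩
  intro Q _ g hg
  have hg' : TF p (fun b : ZMod m => g (iota L b)) := hg.comp_iota hL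
  have h1 := hg'.iod.od.odd q (q * o' * d) hq hq2 hqm (d : ZMod m)
  have h2 : ((q * d : ℕ) : ZMod m) = (q : ZMod m) * (d : ZMod m) := by push_cast; rfl
  rw [h2, ← h1]
  have h3 : ∀ i ∈ range q, g (iota L ((d : ZMod m) + (i : ZMod m) * ((q * o' * d : ℕ) : ZMod m))) =
      g (iota L (d : ZMod m)) + 2 • ((B i).map g).sum := by
    intro i _
    rw [hu i]
    exact hB i Q g hg
  rw [sum_congr rfl h3, sum_add_distrib, sum_const, card_range, ← Finset.smul_sum]
  have h4 : ∀ T : Finset ℕ, ((∑ i ∈ T, B i).map g).sum = ∑ i ∈ T, ((B i).map g).sum := by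
    intro T
    induction T using Finset.induction_on with
    | empty => simp
    | insert a T ha ih => rw [Finset.sum_insert ha, Finset.sum_insert ha, Multiset.map_add,
        Multiset.sum_add, ih]
  rw [Multiset.map_add, Multiset.sum_add, sum_smul_multiset, h4, Multiset.map_singleton,
    Multiset.sum_singleton, smul_add, ← mul_nsmul', hr, add_nsmul, one_nsmul]
  abel

lemma c2_rad (hm2 : ¬ 2 ∣ m) (hU : AllUnits p m L M) (hL : L * m = M) :
    ∀ (n o d : ℕ), o = n → o * d = m →
      C2 p (iota L ((d : ℕ) : ZMod m) : ZMod M)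
        (iota L ((m / ∏ q ∈ o.primeFactors, q : ℕ) : ZMod m)) := by
  have hm : 0 < m := NeZero.pos m
  intro n
  induction n using Nat.strong_induction_on with
  | _ n ih =>
  intro o d hon hod
  have ho0 : 0 < o := Nat.pos_of_ne_zero (by rintro rfl; simp at hod; omega)
  by_cases hsq : Squarefree o
  · rw [Nat.prod_primeFactors_of_squarefree hsq, ← hod, Nat.mul_div_cancel_left d ho0]
    exact C2.refl _
  · rw [Nat.squarefree_iff_prime_squarefree] at hsq
    push Not at hsq
    obtain ⟨q, hq, hqo⟩ := hsq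
    have hq2 : q ≠ 2 := by
      rintro rfl
      apply hm2
      exact dvd_trans (dvd_trans (Dvd.intro _ rfl) hqo) (Dvd.intro _ hod)
    have h1 := c2_sum hU hL hq hq2 hod hqo
    obtain ⟨o', ho'⟩ := hqo
    have ho'0 : 0 < o' := Nat.pos_of_ne_zero (by rintro rfl; simp at ho'; omega)
    have h2 := ih (q * o') (by
      rw [← hon, ho', mul_assoc]
      have : 1 < q := hq.one_lt
      have h3 : 0 < q * o' := Nat.mul_pos hq.pos ho'0
      calc q * o' = 1 * (q * o') := (one_mul _).symm
        _ < q * (q * o') := Nat.mul_lt_mul_of_pos_right this h3) (q * o') (q * d) rfl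
      (by rw [← hod, ho']; ring)
    have h3 : (q * o').primeFactors = o.primeFactors := by
      rw [ho', mul_assoc, Nat.primeFactors_mul hq.ne_zero (Nat.mul_pos hq.pos ho'0).ne',
        Nat.primeFactors_mul hq.ne_zero ho'0.ne']
      ext x
      simp
    rw [h3] at h2
    exact h1.trans h2

/-- elements with the same prime support are congruent modulo `2` -/
theorem c2_support (hm2 : ¬ 2 ∣ m) (hU : AllUnits p m L M) (hL : L * m = M) (a b : ZMod m)
    (h : (addOrderOf a).primeFactors = (addOrderOf b).primeFactors) :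
    C2 p (iota L a : ZMod M) (iota L b) := by
  have hm : 0 < m := NeZero.pos m
  have key : ∀ a : ZMod m, C2 p (iota L a : ZMod M)
      (iota L ((m / ∏ q ∈ (addOrderOf a).primeFactors, q : ℕ) : ZMod m)) := by
    intro a
    obtain ⟨d, hd, u, hu, ha⟩ := ZMod.eq_unit_mul_divisor a
    obtain ⟨u, rfl⟩ := hu
    obtain ⟨o, ho⟩ := hd
    have hd0 : 0 < d := Nat.pos_of_ne_zero (by rintro rfl; simp at ho; omega)
    have h1 : addOrderOf a = o := by
      have h2 : addOrderOf a = addOrderOf ((d : ℕ) : ZMod m) := by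
        have h3 : ∀ k : ℕ, k • a = 0 ↔ k • ((d : ℕ) : ZMod m) = 0 := by
          intro k
          rw [nsmul_eq_mul, nsmul_eq_mul, ha]
          constructor
          · intro h
            have : (u : ZMod m) * ((k : ZMod m) * (d : ZMod m)) = 0 := by
              rw [← h]; ring
            exact (u.isUnit.mul_right_eq_zero).mp this
          · intro h
            have : (k : ZMod m) * ((u : ZMod m) * (d : ZMod m)) =
              (u : ZMod m) * ((k : ZMod m) * (d : ZMod m)) := by ring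
            rw [this, h, mul_zero]
        apply Nat.dvd_antisymm
        · rw [addOrderOf_dvd_iff_nsmul_eq_zero, h3]
          exact addOrderOf_nsmul_eq_zero _
        · rw [addOrderOf_dvd_iff_nsmul_eq_zero, ← h3]
          exact addOrderOf_nsmul_eq_zero _
      rw [h2, ZMod.addOrderOf_coe _ hm.ne', ho, Nat.gcd_eq_right (Dvd.intro _ rfl),
        Nat.mul_div_cancel_left o hd0]
    rw [h1]
    have h4 := hU u (d : ZMod m)
    rw [← ha] at h4
    exact h4.trans (c2_rad hm2 hU hL o o d rfl (by rw [ho]; ring))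
  have h1 := key a
  rw [h] at h1
  exact h1.trans (key b).symm

open scoped Classical in
/-- pairing -/
theorem pair_up (E : ZMod m → ZMod m → Prop) (hE : Equivalence E)
    (hR : ∀ a b, E a b → C2 p (iota L a : ZMod M) (iota L b)) :
    ∀ (n : ℕ) (s : Multiset (ZMod m)), Multiset.card s = n →
      (∀ a, Even (s.countP (fun b => E a b))) →
      ∃ B : Multiset (ZMod M), ∀ (Q : Type) [AddCommGroup Q] (g : ZMod M → Q), TF p g →
        (s.map fun a => g (iota L a)).sum = 2 • (B.map g).sum := by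
  intro n
  induction n using Nat.strong_induction_on with
  | _ n ih =>
  intro s hs hcount
  rcases Multiset.empty_or_exists_mem s with rfl | ⟨a, ha⟩
  · exact ⟨0, fun Q _ g _ => by simp⟩
  obtain ⟨s1, hs1⟩ := Multiset.exists_cons_of_mem ha
  have h1 := hcount a
  rw [hs1, Multiset.countP_cons, if_pos (hE.refl a)] at h1
  have h2 : 0 < s1.countP (fun b => E a b) := by
    rcases Nat.eq_zero_or_pos (s1.countP (fun b => E a b)) with h | h
    · rw [h] at h1; exact absurd h1 (by decide)
    · exact h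
  obtain ⟨b, hb, hab⟩ := Multiset.countP_pos.mp h2
  obtain ⟨s2, hs2⟩ := Multiset.exists_cons_of_mem hb
  have hc : Multiset.card s2 + 2 = n := by
    rw [← hs, hs1, hs2]; simp
  have h3 : ∀ c, Even (s2.countP (fun x => E c x)) := by
    intro c
    have h4 := hcount c
    rw [hs1, hs2, Multiset.countP_cons, Multiset.countP_cons] at h4
    have h5 : E c a ↔ E c b := ⟨fun h => hE.trans h hab, fun h => hE.trans h (hE.symm hab)⟩
    by_cases h6 : E c a
    · rw [if_pos h6, if_pos (h5.mp h6)] at h4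
      rw [Nat.even_add_one, Nat.even_add_one, not_not] at h4
      exact h4
    · rw [if_neg h6, if_neg (fun h => h6 (h5.mpr h))] at h4
      simpa using h4
  obtain ⟨B, hB⟩ := ih (Multiset.card s2) (by omega) s2 rfl h3
  obtain ⟨C, hC⟩ := hR b a (hE.symm hab)
  refine ⟨(iota L a : ZMod M) ::ₘ (C + B), fun Q _ g hg => ?_⟩
  rw [hs1, hs2, Multiset.map_cons, Multiset.map_cons, Multiset.sum_cons, Multiset.sum_cons,
    hB Q g hg, hC Q g hg, Multiset.map_cons, Multiset.sum_cons, Multiset.map_add,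
    Multiset.sum_add, smul_add, smul_add, two_nsmul (g (iota L a))]
  abel

end

end Pool.Agent.H916Z
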