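import Pool.Agent.H916Z.NT3b

/-!
# The fourth root of 2 is not in a cyclotomic field (helper89, part of task NT4)
-/

set_option autoImplicit false
set_option linter.style.haveILetI false

namespace Pool.Agent.H916Z

open NumberField IntermediateField Polynomial Module

/-- in a cyclotomic field of conductor divisible by 8 the number 2 is not a fourth power -/
theorem not_four_cyclotomic (M : ℕ) (hM8 : 8 ∣ M) (hM : 0 < M) (L : Type) [Field L] [NumberField L]
    [IsCyclotomicExtension {M} ℚ L] (y : L) : y ^ 4 ≠ (2 : L) := by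
  intro hy
  have : NeZero M := ⟨hM.ne'⟩
  have : IsGalois ℚ L := IsCyclotomicExtension.isGalois {M} ℚ L
  have hcomm := IsCyclotomicExtension.isMulCommutative {M} ℚ L
  have hζ := IsCyclotomicExtension.zeta_spec M ℚ L
  set ζ := IsCyclotomicExtension.zeta M ℚ L with hζdef
  have hirr : Irreducible (Polynomial.cyclotomic M ℚ) := Polynomial.cyclotomic.irreducible_rat hM
  let c : L ≃ₐ[ℚ] L := IsCyclotomicExtension.fromZetaAut (hζ.inv) hirr
  have hc : c ζ = ζ⁻¹ := IsCyclotomicExtension.fromZetaAut_spec (hζ.inv) hirr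
  obtain ⟨m, hm⟩ := hM8
  have hz : IsPrimitiveRoot (ζ ^ m) 8 := hζ.pow hM (by rw [hm]; ring)
  set z := ζ ^ m with hzdef
  have hz0 : z ≠ 0 := hz.ne_zero (by norm_num)
  have hcz : c z = z⁻¹ := by rw [hzdef, map_pow, hc, inv_pow]
  have h20 : (2 : L) ≠ 0 := two_ne_zero
  have hy0 : y ≠ 0 := by
    rintro rfl
    rw [zero_pow (by norm_num)] at hy
    exact h20 hy.symm
  have hz8 : z ^ 8 = 1 := hz.pow_eq_one
  -- conjugates of eighth roots of 4
  have key : ∀ (σ : L ≃ₐ[ℚ] L) (x : L), x ^ 8 = 4 → ∃ k : ℕ, σ x = z ^ k * x := by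
    intro σ x hx
    have hx0 : x ≠ 0 := by
      rintro rfl
      rw [zero_pow (by norm_num)] at hx
      have : (4 : L) ≠ 0 := by
        have := mul_ne_zero h20 h20
        norm_num at this ⊢
      exact this hx.symm
    have h4 : (4 : L) ≠ 0 := by
      have := mul_ne_zero h20 h20
      norm_num at this ⊢
    have h1 : (σ x / x) ^ 8 = 1 := by
      rw [div_pow, ← map_pow, hx, map_ofNat, div_self h4]
    obtain ⟨k, _, hk⟩ := hz.eq_pow_of_pow_eq_one h1
    exact ⟨k, by rw [hk, div_mul_cancel₀ _ hx0]⟩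
  -- c y = i^k y
  have hi : IsPrimitiveRoot (z ^ 2) 4 := hz.pow (by norm_num) (by norm_num)
  have h1 : (c y / y) ^ 4 = 1 := by
    rw [div_pow, ← map_pow, hy, map_ofNat, div_self h20]
  obtain ⟨k, _, hk⟩ := hi.eq_pow_of_pow_eq_one h1
  have hcy : c y = (z ^ 2) ^ k * y := by rw [hk, div_mul_cancel₀ _ hy0]
  set x := z ^ k * y with hx
  have hx8 : x ^ 8 = 4 := by
    rw [hx, mul_pow, ← pow_mul, mul_comm k 8, pow_mul, hz8, one_pow, one_mul,
      show (8 : ℕ) = 4 * 2 from rfl, pow_mul, hy]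
    norm_num
  have hx0 : x ≠ 0 := mul_ne_zero (pow_ne_zero _ hz0) hy0
  have hcx : c x = x := by
    have e1 : (z ^ 2) ^ k = z ^ k * z ^ k := by rw [← pow_mul, two_mul, pow_add]
    have e2 : z ^ k ≠ 0 := pow_ne_zero _ hz0
    rw [hx, map_mul, map_pow, hcz, hcy, inv_pow, e1]
    field_simp
  have hfix : ∀ σ : L ≃ₐ[ℚ] L, σ (x ^ 2) = x ^ 2 := by
    intro σ
    obtain ⟨k', hk'⟩ := key σ x hx8
    have h1 : c (σ x) = σ (c x) := by
      have := hcomm.is_comm.comm c σ
      exact DFunLike.congr_fun this x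
    rw [hcx, hk', map_mul, map_pow, hcz, hcx] at h1
    have h2 : (z⁻¹) ^ k' = z ^ k' := mul_right_cancel₀ hx0 h1
    have h3 : z ^ k' * z ^ k' = 1 := by
      nth_rewrite 1 [← h2]
      rw [inv_pow, inv_mul_cancel₀ (pow_ne_zero _ hz0)]
    rw [map_pow, hk', mul_pow, sq (z ^ k'), h3, one_mul]
  obtain ⟨r, hr⟩ := (IsGalois.mem_range_algebraMap_iff_fixed (F := ℚ) (x ^ 2)).2 hfix
  have hr4 : r ^ 4 = 4 := by
    apply (algebraMap ℚ L).injective
    rw [map_pow, hr, ← pow_mul, map_ofNat]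
    exact hx8
  have hr2 : (r ^ 2 - 2) * (r ^ 2 + 2) = 0 := by
    have : (r ^ 2 - 2) * (r ^ 2 + 2) = r ^ 4 - 4 := by ring
    rw [this, hr4]; norm_num
  rcases mul_eq_zero.1 hr2 with h | h
  · refine not_pow_rat 2 2 Nat.prime_two Nat.prime_two r ?_
    push_cast
    linarith
  · have := sq_nonneg r
    linarith

lemma not_four_transfer (M : ℕ) (hM8 : 8 ∣ M) (hM : 0 < M) (L : Type) [Field L] [CharZero L]
    [A : Algebra ℚ L] [FiniteDimensional ℚ L] [IsCyclotomicExtension {M} ℚ L] (y : L) :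
    y ^ 4 ≠ (2 : L) := by
  obtain rfl : A = DivisionRing.toRatAlgebra := Subsingleton.elim _ _
  haveI hnf : NumberField L := ⟨⟩
  exact not_four_cyclotomic M hM8 hM L y

end Pool.Agent.H916Z
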