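import Pool.Agent.H916Z.NT4a

/-!
# The field `Q(zeta_m, 2^(1/4))` (helper89, part of task NT4)
-/

set_option autoImplicit false
set_option linter.style.haveILetI false

namespace Pool.Agent.H916Z

open NumberField IntermediateField Polynomial Module

section

variable {F : Type} [Field F] [CharZero F] {Om : Type} [Field Om] [Algebra F Om]

variable (F) in
/-- the field generated by a root of unity and a fourth root of 2 -/
noncomputable def K2 (z y : Om) : IntermediateField F Om :=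
  IntermediateField.adjoin F {z, y}

omit [CharZero F] in
lemma K2_z_mem (z y : Om) : z ∈ K2 F z y := IntermediateField.subset_adjoin _ _ (by simp)

omit [CharZero F] in
lemma K2_y_mem (z y : Om) : y ∈ K2 F z y := IntermediateField.subset_adjoin _ _ (by simp)

variable [CharZero Om] [IsAlgClosure F Om]

lemma K2_normal (m : ℕ) (hm : 0 < m) (h4 : 4 ∣ m) (z y : Om) (hz : IsPrimitiveRoot z m)
    (hy : y ^ 4 = (2 : Om)) : Normal F (K2 F z y) := by
  haveI : Normal F Om := IsAlgClosure.normal F Om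
  haveI : NeZero m := ⟨hm.ne'⟩
  have h20 : (2 : Om) ≠ 0 := two_ne_zero
  have hy0 : y ≠ 0 := by
    rintro rfl
    rw [zero_pow (by norm_num)] at hy
    exact h20 hy.symm
  rw [IntermediateField.normal_iff_forall_map_le]
  intro σ
  rw [K2, IntermediateField.adjoin_map, IntermediateField.adjoin_le_iff]
  rintro _ ⟨x, hx, rfl⟩
  change σ x ∈ K2 F z y
  rcases hx with rfl | rfl
  · obtain ⟨i, _, hi⟩ := hz.eq_pow_of_pow_eq_one (ξ := σ x)
      (by rw [← map_pow, hz.pow_eq_one, map_one])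
    rw [← hi]
    exact pow_mem (K2_z_mem x y) i
  · have h1 : (σ x / x) ^ 4 = 1 := by
      rw [div_pow, ← map_pow, hy, map_ofNat, div_self h20]
    obtain ⟨k, hk⟩ := h4
    have h2 : IsPrimitiveRoot (z ^ k) 4 := hz.pow hm (by rw [hk]; ring)
    obtain ⟨j, _, hj⟩ := h2.eq_pow_of_pow_eq_one h1
    have h3 : σ x = ((z ^ k) ^ j) * x := by
      rw [hj]
      field_simp
    rw [h3]
    exact mul_mem (pow_mem (pow_mem (K2_z_mem z x) _) _) (K2_y_mem z x)

omit [CharZero F] [CharZero Om] in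
lemma K2_fin (z y : Om) : FiniteDimensional F (K2 F z y) := by
  unfold K2
  have : Finite ({z, y} : Set Om) := Set.toFinite _
  exact IntermediateField.finiteDimensional_adjoin fun x _ => isInt' x

omit [CharZero Om] in
lemma K2_degree (m : ℕ) (hm : 0 < m) (z y : Om) (hz : IsPrimitiveRoot z m)
    (hy : y ^ 4 = (2 : Om)) (hirrN : Irreducible (Polynomial.cyclotomic m F))
    (hpow : ∀ b : IntermediateField.adjoin F {z}, b ^ 4 ≠ (2 : IntermediateField.adjoin F {z})) :
    2 * m.totient ≤ finrank F (K2 F z y) := by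
  haveI : NeZero m := ⟨hm.ne'⟩
  set L : IntermediateField F Om := IntermediateField.adjoin F {z} with hL
  haveI hcyc : IsCyclotomicExtension {m} F L := hz.intermediateField_adjoin_isCyclotomicExtension F
  haveI : FiniteDimensional F L := IsCyclotomicExtension.finiteDimensional {m} F L
  have hfL : finrank F L = m.totient := IsCyclotomicExtension.finrank L hirrN
  set M : IntermediateField L Om := IntermediateField.adjoin L {y} with hM
  have hyint : IsIntegral L y := isInt L y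
  haveI : FiniteDimensional L M := IntermediateField.adjoin.finiteDimensional hyint
  have hfM : 2 ≤ finrank L M := by
    have h0 : 0 < finrank L M := Module.finrank_pos
    have h1 : finrank L M ≠ 1 := by
      intro h1
      rw [IntermediateField.finrank_eq_one_iff] at h1
      have hyM : y ∈ M := IntermediateField.subset_adjoin _ _ (by simp)
      rw [h1, IntermediateField.mem_bot] at hyM
      obtain ⟨b, hb⟩ := hyM
      refine hpow b ?_
      apply Subtype.val_injective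
      have hb' : (b : Om) = y := hb
      change (b : Om) ^ 4 = 2
      rw [hb', hy]
    omega
  have hfM' : finrank F M = m.totient * finrank L M := by
    rw [← hfL, Module.finrank_mul_finrank F L M]
  have hfd := K2_fin (F := F) z y
  have hle : M.restrictScalars F ≤ K2 F z y := by
    rw [hM, IntermediateField.restrictScalars_adjoin, IntermediateField.adjoin_le_iff,
      Set.union_subset_iff]
    constructor
    · have : L ≤ K2 F z y := by
        rw [hL, IntermediateField.adjoin_le_iff, Set.singleton_subset_iff]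
        exact K2_z_mem z y
      exact this
    · rw [Set.singleton_subset_iff]
      exact K2_y_mem z y
  have hfin : finrank F M ≤ finrank F (K2 F z y) := by
    have h1 : Module.Finite F (Subalgebra.toSubmodule (K2 F z y).toSubalgebra) := hfd
    have := Submodule.finrank_mono (R := F)
      (s := Subalgebra.toSubmodule (M.restrictScalars F).toSubalgebra)
      (t := Subalgebra.toSubmodule (K2 F z y).toSubalgebra) hle
    exact this
  calc 2 * m.totient ≤ finrank L M * m.totient := Nat.mul_le_mul_right _ hfM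
    _ = finrank F M := by rw [hfM', mul_comm]
    _ ≤ _ := hfin

lemma adj_top2 (z y : Om) :
    Algebra.adjoin F (Subtype.val ⁻¹' ({z, y} : Set Om) : Set (K2 F z y)) = ⊤ := by
  set K := K2 F z y with hK
  set T : Set Om := {z, y} with hT
  have hTK : T ⊆ K := by
    intro x hx
    exact IntermediateField.subset_adjoin _ _ hx
  set S : Set K := Subtype.val ⁻¹' T with hSdef
  have h1 : (Algebra.adjoin F S).map K.val = K.toSubalgebra := by
    rw [AlgHom.map_adjoin]
    have : (K.val '' S) = T := by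
      rw [hSdef]
      exact (Subtype.image_preimage_val (K : Set Om) T).trans (Set.inter_eq_right.mpr hTK)
    rw [this, hK, K2]
    exact (IntermediateField.adjoin_toSubalgebra_of_isAlgebraic
      fun x _ => (isInt' (F := F) x).isAlgebraic).symm
  rw [eq_top_iff]
  rintro x -
  have h2 : (x : Om) ∈ (Algebra.adjoin F S).map K.val := by
    rw [h1]
    exact x.2
  obtain ⟨x', hx', hxx⟩ := h2
  have : x' = x := Subtype.val_injective hxx
  rw [← this]
  exact hx'

end

lemma hom2_aux (Om : Type) [Field Om] [CharZero Om] [Algebra ℚ Om] [IsAlgClosure ℚ Om]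
    (m : ℕ) (hm : 0 < m) (h4 : 4 ∣ m) (z y : Om) (hz : IsPrimitiveRoot z m)
    (hy : y ^ 4 = (2 : Om))
    (hpow : ∀ b : IntermediateField.adjoin ℚ {z},
      b ^ 4 ≠ (2 : IntermediateField.adjoin ℚ {z})) :
    ∃ (K : Type) (_ : Field K) (_ : NumberField K) (B : ℕ), ∀ ℓ : ℕ, ℓ.Prime → B < ℓ →
      m ∣ ℓ - 1 → (∃ y0 : ZMod ℓ, y0 ^ 4 = 2) → 2 * m.totient ≤ Nat.card (𝓞 K →+* ZMod ℓ) := by
  haveI : NeZero m := ⟨hm.ne'⟩
  have hdeg := K2_degree (F := ℚ) m hm z y hz hy (Polynomial.cyclotomic.irreducible_rat hm) hpow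
  have hnormal := K2_normal (F := ℚ) m hm h4 z y hz hy
  have hfd := K2_fin (F := ℚ) z y
  set K := K2 ℚ z y with hK
  set T : Set Om := {z, y} with hT
  have hzint : IsIntegral ℤ z := hz.isIntegral hm
  have hyint : IsIntegral ℤ y := by
    refine IsIntegral.of_pow (by norm_num : 0 < 4) ?_
    rw [hy]
    exact isIntegral_natCast 2
  have hTint : ∀ x ∈ T, IsIntegral ℤ x := by
    intro x hx
    rcases hx with rfl | rfl
    · exact hzint
    · exact hyint
  set S : Set K := Subtype.val ⁻¹' T with hSdef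
  set ι : K →+* Om := SubringClass.subtype K with hι
  have hSint : ∀ x ∈ S, IsIntegral ℤ x := by
    intro x hx
    have h1 : IsIntegral ℤ (x : Om) := hTint _ hx
    exact (isIntegral_algHom_iff ι.toIntAlgHom Subtype.val_injective).mp h1
  obtain ⟨hnf, B, hB⟩ := final_transfer K (A := K.algebra') S (adj_top2 (F := ℚ) z y) hSint
  refine ⟨K, inferInstance, hnf, max B 2, fun ℓ hℓ hBℓ hmℓ ⟨y0, hy0⟩ => ?_⟩
  haveI : Fact ℓ.Prime := ⟨hℓ⟩
  refine hdeg.trans ?_
  obtain ⟨Fd, _, _, ⟨ψ⟩⟩ := exists_res Om ℓ hℓ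
  set j : 𝓞 K →+* integralClosure ℤ Om :=
    (ι.comp (algebraMap (𝓞 K) K)).codRestrict (integralClosure ℤ Om)
      (fun x => by
        have h1 : IsIntegral ℤ (x : K) := x.isIntegral_coe
        exact h1.map ι.toIntAlgHom) with hj
  have hjx : ∀ x : 𝓞 K, ((j x : integralClosure ℤ Om) : Om) = ((x : K) : Om) := fun x => rfl
  refine hB ℓ hℓ ((le_max_left _ _).trans_lt hBℓ) Fd (ψ.comp j) fun x hx => ?_
  have hℓ1 : 1 ≤ ℓ := hℓ.one_lt.le
  rw [RingHom.comp_apply]
  rcases hx with hx | hx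
  · have h1 : j x ^ ℓ = j x := by
      refine pow_eq_self_of _ _ m ℓ ?_ hℓ1 hmℓ
      apply Subtype.ext
      rw [SubmonoidClass.coe_pow, hjx, hx, hz.pow_eq_one]
      rfl
    rw [← map_pow, h1]
  · have h1 : (ψ (j x)) ^ 4 = ((2 : ℕ) : Fd) := by
      rw [← map_pow]
      have : j x ^ 4 = ((2 : ℕ) : integralClosure ℤ Om) := by
        apply Subtype.ext
        rw [SubmonoidClass.coe_pow, hjx, hx, hy]
        rfl
      rw [this, map_natCast]
    refine root_frob Fd ℓ 2 4 ?_ (by norm_num) (h4.trans hmℓ) y0 (by rw [hy0]; norm_num) _ h1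
    intro h
    have h2 := Nat.le_of_dvd (by norm_num) h
    have h3 := (le_max_right B 2).trans_lt hBℓ
    omega

lemma hom2_aux2 (Om : Type) [Field Om] [CharZero Om] [Algebra ℚ Om] [IsAlgClosure ℚ Om]
    (m : ℕ) (hm : 0 < m) (h8 : 8 ∣ m) :
    ∃ (K : Type) (_ : Field K) (_ : NumberField K) (B : ℕ), ∀ ℓ : ℕ, ℓ.Prime → B < ℓ →
      m ∣ ℓ - 1 → (∃ y0 : ZMod ℓ, y0 ^ 4 = 2) → 2 * m.totient ≤ Nat.card (𝓞 K →+* ZMod ℓ) := by
  haveI : IsAlgClosed Om := IsAlgClosure.isAlgClosed ℚ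
  haveI : NeZero m := ⟨hm.ne'⟩
  obtain ⟨z, hz⟩ : ∃ z : Om, IsPrimitiveRoot z m :=
    HasEnoughRootsOfUnity.exists_primitiveRoot Om m
  obtain ⟨y, hy⟩ : ∃ y : Om, y ^ 4 = (2 : Om) := IsAlgClosed.exists_pow_nat_eq _ (by norm_num)
  have hcyc := hz.intermediateField_adjoin_isCyclotomicExtension ℚ
  have hfd := fd_adj (F := ℚ) z
  have h4 : 4 ∣ m := (by norm_num : 4 ∣ 8).trans h8
  exact hom2_aux Om m hm h4 z y hz hy fun b =>
    @not_four_transfer m h8 hm (IntermediateField.adjoin ℚ {z}) _ _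
      (IntermediateField.algebra' _) hfd hcyc b

/-- (K0) a number field with at least `2 φ(m)` homomorphisms to `F_ℓ` if `ℓ ≡ 1 mod m` and 2 is a
fourth power modulo `ℓ` -/
lemma hom2 (m : ℕ) (hm : 0 < m) (h8 : 8 ∣ m) :
    ∃ (K : Type) (_ : Field K) (_ : NumberField K) (B : ℕ), ∀ ℓ : ℕ, ℓ.Prime → B < ℓ →
      m ∣ ℓ - 1 → (∃ y0 : ZMod ℓ, y0 ^ 4 = 2) → 2 * m.totient ≤ Nat.card (𝓞 K →+* ZMod ℓ) :=
  @hom2_aux2 (AlgebraicClosure ℚ) _ _ (AlgebraicClosure.instAlgebra ℚ) (acl ℚ) m hm h8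

lemma nf_transfer (K : Type) [Field K] [CharZero K] [A : Algebra ℚ K] [FiniteDimensional ℚ K] :
    NumberField K := by
  obtain rfl : A = DivisionRing.toRatAlgebra := Subsingleton.elim _ _
  exact ⟨⟩

lemma hom1_aux (Om : Type) [Field Om] [CharZero Om] [Algebra ℚ Om] [IsAlgClosure ℚ Om]
    (m : ℕ) (hm : 0 < m) (z y : Om) (hz : IsPrimitiveRoot z m) (hy : y ^ 4 = (2 : Om)) :
    ∃ (K : Type) (_ : Field K) (_ : NumberField K) (B : ℕ), ∀ ℓ : ℕ, ℓ.Prime → B < ℓ →
      0 < Nat.card (𝓞 K →+* ZMod ℓ) → m ∣ ℓ - 1 ∧ ∃ y0 : ZMod ℓ, y0 ^ 4 = 2 := by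
  haveI : NeZero m := ⟨hm.ne'⟩
  have hfd := K2_fin (F := ℚ) z y
  set K := K2 ℚ z y with hK
  have hnf := nf_transfer K (A := K.algebra')
  refine ⟨K, inferInstance, hnf, m, fun ℓ hℓ hBℓ hcard => ?_⟩
  haveI : Fact ℓ.Prime := ⟨hℓ⟩
  have hne : Nonempty (𝓞 K →+* ZMod ℓ) := by
    by_contra hcon
    rw [not_nonempty_iff] at hcon
    rw [Nat.card_of_isEmpty] at hcard
    exact lt_irrefl 0 hcard
  obtain ⟨φ⟩ := hne
  set ι : K →+* Om := SubringClass.subtype K with hι
  have hzint : IsIntegral ℤ (⟨z, K2_z_mem z y⟩ : K) := by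
    have h1 : IsIntegral ℤ z := hz.isIntegral hm
    exact (isIntegral_algHom_iff ι.toIntAlgHom Subtype.val_injective).mp h1
  have hyint : IsIntegral ℤ (⟨y, K2_y_mem z y⟩ : K) := by
    have h1 : IsIntegral ℤ y := by
      refine IsIntegral.of_pow (by norm_num : 0 < 4) ?_
      rw [hy]
      exact isIntegral_natCast 2
    exact (isIntegral_algHom_iff ι.toIntAlgHom Subtype.val_injective).mp h1
  set zz : 𝓞 K := ⟨⟨z, K2_z_mem z y⟩, hzint⟩ with hzz
  set yy : 𝓞 K := ⟨⟨y, K2_y_mem z y⟩, hyint⟩ with hyy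
  have hzK : IsPrimitiveRoot (⟨z, K2_z_mem z y⟩ : K) m :=
    IsPrimitiveRoot.of_map_of_injective (f := ι) hz Subtype.val_injective
  have hzO : IsPrimitiveRoot zz m :=
    IsPrimitiveRoot.of_map_of_injective (f := algebraMap (𝓞 K) K) hzK
      (FaithfulSMul.algebraMap_injective (𝓞 K) K)
  have hyy4 : yy ^ 4 = 2 := by
    apply RingOfIntegers.coe_injective
    rw [map_pow, map_ofNat]
    apply Subtype.val_injective
    change y ^ 4 = 2
    exact hy
  constructor
  · -- order of the image of zz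
    have hm0 : ((m : ℕ) : ZMod ℓ) ≠ 0 := by
      rw [Ne, ZMod.natCast_eq_zero_iff]
      intro h
      have := Nat.le_of_dvd hm h
      omega
    haveI : NeZero ((m : ℕ) : ZMod ℓ) := ⟨hm0⟩
    have hroot : (Polynomial.cyclotomic m (𝓞 K)).IsRoot zz := hzO.isRoot_cyclotomic hm
    have hroot2 : (Polynomial.cyclotomic m (ZMod ℓ)).IsRoot (φ zz) := by
      have h1 := hroot.map (f := φ)
      rwa [Polynomial.map_cyclotomic] at h1
    have hprim : IsPrimitiveRoot (φ zz) m := (Polynomial.isRoot_cyclotomic_iff).1 hroot2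
    have h1 : (φ zz) ^ (ℓ - 1) = 1 := by
      refine ZMod.pow_card_sub_one_eq_one ?_
      exact hprim.ne_zero hm.ne'
    exact hprim.dvd_of_pow_eq_one _ h1
  · exact ⟨φ yy, by rw [← map_pow, hyy4, map_ofNat]⟩

lemma hom1_aux2 (Om : Type) [Field Om] [CharZero Om] [Algebra ℚ Om] [IsAlgClosure ℚ Om]
    (m : ℕ) (hm : 0 < m) :
    ∃ (K : Type) (_ : Field K) (_ : NumberField K) (B : ℕ), ∀ ℓ : ℕ, ℓ.Prime → B < ℓ →
      0 < Nat.card (𝓞 K →+* ZMod ℓ) → m ∣ ℓ - 1 ∧ ∃ y0 : ZMod ℓ, y0 ^ 4 = 2 := by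
  haveI : IsAlgClosed Om := IsAlgClosure.isAlgClosed ℚ
  haveI : NeZero m := ⟨hm.ne'⟩
  obtain ⟨z, hz⟩ : ∃ z : Om, IsPrimitiveRoot z m :=
    HasEnoughRootsOfUnity.exists_primitiveRoot Om m
  obtain ⟨y, hy⟩ : ∃ y : Om, y ^ 4 = (2 : Om) := IsAlgClosed.exists_pow_nat_eq _ (by norm_num)
  exact hom1_aux Om m hm z y hz hy

/-- (K1) a number field which has homomorphisms to `F_ℓ` only if `ℓ ≡ 1 mod m` and 2 is a fourth
power modulo `ℓ` -/
lemma hom1 (m : ℕ) (hm : 0 < m) :
    ∃ (K : Type) (_ : Field K) (_ : NumberField K) (B : ℕ), ∀ ℓ : ℕ, ℓ.Prime → B < ℓ →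
      0 < Nat.card (𝓞 K →+* ZMod ℓ) → m ∣ ℓ - 1 ∧ ∃ y0 : ZMod ℓ, y0 ^ 4 = 2 :=
  @hom1_aux2 (AlgebraicClosure ℚ) _ _ (AlgebraicClosure.instAlgebra ℚ) (acl ℚ) m hm

end Pool.Agent.H916Z
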