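import Pool.Agent.H916Z.Basic

/-!
Sums over a finite commutative group of functions invariant under a cyclic subgroup.
-/

namespace Pool.Agent.H916Z

open Finset Pool.Agent.H916R2 Pool.Agent.H916T Pool.Agent.H916U

section

variable {G : Type} [CommGroup G] [Fintype G] {Q : Type} [AddCommGroup Q]

noncomputable instance instFintypeQuot (u : G) : Fintype (G ⧸ Subgroup.zpowers u) :=
  Fintype.ofFinite _

lemma inv_zpowers {u : G} {Φ : G → Q} (hΦ : ∀ c, Φ (u * c) = Φ c) {n : G}
    (hn : n ∈ Subgroup.zpowers u) (c : G) : Φ (n * c) = Φ c := by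
  let S : Subgroup G :=
    { carrier := {n | ∀ c, Φ (n * c) = Φ c}
      mul_mem' := by
        intro a b ha hb c
        rw [mul_assoc, ha, hb]
      one_mem' := by intro c; rw [one_mul]
      inv_mem' := by
        intro a ha c
        have := ha (a⁻¹ * c)
        rw [mul_inv_cancel_left] at this
        exact this.symm }
  have h1 : Subgroup.zpowers u ≤ S := by
    rw [Subgroup.zpowers_le]
    exact hΦ
  exact h1 hn c

lemma sum_out {u : G} {Φ : G → Q} (hΦ : ∀ c, Φ (u * c) = Φ c) (c : G) :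
    Φ ((QuotientGroup.mk c : G ⧸ Subgroup.zpowers u).out) = Φ c := by
  obtain ⟨n, hn⟩ := QuotientGroup.mk_out_eq_mul (Subgroup.zpowers u) c
  rw [hn, mul_comm]
  exact inv_zpowers hΦ n.2 c

lemma sum_shift {u : G} {Φ : G → Q} (hΦ : ∀ c, Φ (u * c) = Φ c) (t : G) :
    ∑ x : G ⧸ Subgroup.zpowers u, Φ (t * x.out) = ∑ x : G ⧸ Subgroup.zpowers u, Φ x.out := by
  rw [← Equiv.sum_comp (Equiv.mulLeft (QuotientGroup.mk t : G ⧸ Subgroup.zpowers u))
    (fun x => Φ x.out)]
  refine sum_congr rfl fun x _ => ?_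
  have h1 : (Equiv.mulLeft (QuotientGroup.mk t : G ⧸ Subgroup.zpowers u)) x =
      QuotientGroup.mk (t * x.out) := by
    rw [Equiv.coe_mulLeft, QuotientGroup.mk_mul, QuotientGroup.out_eq']
  rw [h1, sum_out hΦ]

lemma sum_group {u : G} {Φ : G → Q} (hΦ : ∀ c, Φ (u * c) = Φ c) :
    ∑ c, Φ c = orderOf u • ∑ x : G ⧸ Subgroup.zpowers u, Φ x.out := by
  classical
  have h1 : ∑ c, Φ c = ∑ x : G ⧸ Subgroup.zpowers u,
      ∑ c ∈ univ.filter (fun c => (QuotientGroup.mk c : G ⧸ Subgroup.zpowers u) = x), Φ c := by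
    rw [Finset.sum_fiberwise]
  rw [h1, Finset.smul_sum]
  refine sum_congr rfl fun x _ => ?_
  have h2 : ∀ c ∈ univ.filter (fun c => (QuotientGroup.mk c : G ⧸ Subgroup.zpowers u) = x),
      Φ c = Φ x.out := by
    intro c hc
    rw [mem_filter] at hc
    rw [← hc.2, sum_out hΦ]
  rw [sum_congr rfl h2, sum_const]
  congr 1
  have h3 : (univ.filter (fun c => (QuotientGroup.mk c : G ⧸ Subgroup.zpowers u) = x)).card =
      Fintype.card (Subgroup.zpowers u) := by
    symm
    refine Finset.card_bij (fun (n : Subgroup.zpowers u) _ => x.out * (n : G)) ?_ ?_ ?_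
    · intro n _
      rw [mem_filter]
      refine ⟨mem_univ _, ?_⟩
      rw [QuotientGroup.mk_mul_of_mem _ n.2, QuotientGroup.out_eq']
    · intro a _ b _ h
      exact Subtype.ext (mul_left_cancel h)
    · intro c hc
      rw [mem_filter] at hc
      refine ⟨⟨(x.out)⁻¹ * c, ?_⟩, mem_univ _, ?_⟩
      · rw [← QuotientGroup.eq, QuotientGroup.out_eq']
        exact hc.2.symm
      · simp
  rw [h3, Fintype.card_zpowers]

end

end Pool.Agent.H916Z
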