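import Pool.Agent.H916Z.LemA

/-!
The operators `T n`.
-/

set_option linter.unusedSectionVars false

namespace Pool.Agent.H916Z

open Finset Pool.Agent.H916R2 Pool.Agent.H916T Pool.Agent.H916U

variable {p m : ℕ} [NeZero m] {Q : Type} [AddCommGroup Q]

/-- sum over the fibres of the multiplication by `n` -/
noncomputable def T (n : ℕ) (u : ZMod m → Q) (y : ZMod m) : Q :=
  ∑ w ∈ univ.filter (fun w => (n : ZMod m) * w = y), u w

lemma T_one (u : ZMod m → Q) : T 1 u = u := by
  funext y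
  unfold T
  have h1 : univ.filter (fun w : ZMod m => ((1 : ℕ) : ZMod m) * w = y) = {y} := by
    ext w
    simp
  rw [h1, sum_singleton]

lemma T_mul (a b : ℕ) (u : ZMod m → Q) : T a (T b u) = T (a * b) u := by
  funext y
  unfold T
  rw [← Finset.sum_fiberwise_of_maps_to (s := univ.filter (fun w : ZMod m =>
    ((a * b : ℕ) : ZMod m) * w = y)) (t := univ.filter (fun w : ZMod m => (a : ZMod m) * w = y))
    (g := fun x => (b : ZMod m) * x)]
  · refine sum_congr rfl fun w hw => ?_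
    rw [mem_filter] at hw
    refine sum_congr ?_ fun _ _ => rfl
    ext x
    simp only [mem_filter, mem_univ, true_and]
    constructor
    · intro h
      refine ⟨?_, h⟩
      rw [← hw.2, ← h]; push_cast; ring
    · exact fun h => h.2
  · intro x hx
    rw [mem_filter] at hx ⊢
    refine ⟨mem_univ _, ?_⟩
    rw [← hx.2]; push_cast; ring

lemma T_sub (n : ℕ) (u v : ZMod m → Q) : T n (fun w => u w - v w) = fun y => T n u y - T n v y := by
  funext y
  unfold T
  rw [sum_sub_distrib]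

lemma T_nsmul (n k : ℕ) (u : ZMod m → Q) : T n (fun w => k • u w) = fun y => k • T n u y := by
  funext y
  unfold T
  rw [Finset.smul_sum]

lemma T_sum {ι : Type} (s : Finset ι) (n : ℕ) (u : ι → ZMod m → Q) :
    T n (fun w => ∑ i ∈ s, u i w) = fun y => ∑ i ∈ s, T n (u i) y := by
  funext y
  unfold T
  rw [sum_comm]

lemma T_neg {n : ℕ} {u : ZMod m → Q} (hu : ∀ w, u (-w) = - u w) (y : ZMod m) :
    T n u (-y) = - T n u y := by
  unfold T
  rw [← sum_neg_distrib]
  refine Finset.sum_nbij' (fun w => -w) (fun w => -w) ?_ ?_ ?_ ?_ ?_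
  · intro w hw
    rw [mem_filter] at hw ⊢
    refine ⟨mem_univ _, ?_⟩
    rw [mul_neg, hw.2, neg_neg]
  · intro w hw
    rw [mem_filter] at hw ⊢
    refine ⟨mem_univ _, ?_⟩
    rw [mul_neg, hw.2]
  · intro w _; exact neg_neg w
  · intro w _; exact neg_neg w
  · intro w _; rw [hu, neg_neg]

lemma T_unit {n : ℕ} {u : ZMod m → Q} {t : ZMod m} (ht : IsUnit t) (hu : ∀ w, u (t * w) = u w)
    (y : ZMod m) : T n u (t * y) = T n u y := by
  unfold T
  obtain ⟨t, rfl⟩ := ht
  symm
  refine Finset.sum_nbij' (fun w => (t : ZMod m) * w) (fun w => ((t⁻¹ : (ZMod m)ˣ) : ZMod m) * w)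
    ?_ ?_ ?_ ?_ ?_
  · intro w hw
    rw [mem_filter] at hw ⊢
    refine ⟨mem_univ _, ?_⟩
    rw [← hw.2]; ring
  · intro w hw
    rw [mem_filter] at hw ⊢
    refine ⟨mem_univ _, ?_⟩
    have : (n : ZMod m) * (((t⁻¹ : (ZMod m)ˣ) : ZMod m) * w) =
      ((t⁻¹ : (ZMod m)ˣ) : ZMod m) * ((n : ZMod m) * w) := by ring
    rw [this, hw.2, ← mul_assoc, Units.inv_mul, one_mul]
  · intro w _
    rw [← mul_assoc, Units.inv_mul, one_mul]
  · intro w _
    rw [← mul_assoc, Units.mul_inv, one_mul]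
  · intro w _; exact (hu w).symm

lemma T_coset {q d : ℕ} (hqd : q * d = m) (u : ZMod m → Q) (a : ZMod m) :
    T q u ((q : ZMod m) * a) = ∑ i ∈ range q, u (a + (i : ZMod m) * (d : ZMod m)) := by
  have hm : 0 < m := NeZero.pos m
  have hd : 0 < d := Nat.pos_of_ne_zero (by rintro rfl; simp at hqd; omega)
  have hq : 0 < q := Nat.pos_of_ne_zero (by rintro rfl; simp at hqd; omega)
  have hqd0 : ((q : ℕ) : ZMod m) * (d : ZMod m) = 0 := by
    have : ((q * d : ℕ) : ZMod m) = 0 := by rw [hqd]; simp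
    simpa using this
  unfold T
  symm
  refine Finset.sum_bij (fun i _ => a + (i : ZMod m) * (d : ZMod m)) ?_ ?_ ?_ ?_
  · intro i _
    rw [mem_filter]
    refine ⟨mem_univ _, ?_⟩
    linear_combination (i : ZMod m) * hqd0
  · intro i hi j hj h
    have hi' := mem_range.mp hi
    have hj' := mem_range.mp hj
    have h1 : ((i * d : ℕ) : ZMod m) = ((j * d : ℕ) : ZMod m) := by
      push_cast; exact add_left_cancel h
    rw [ZMod.natCast_eq_natCast_iff', Nat.mod_eq_of_lt, Nat.mod_eq_of_lt] at h1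
    · exact Nat.eq_of_mul_eq_mul_right hd h1
    · rw [← hqd]; exact Nat.mul_lt_mul_of_pos_right hj' hd
    · rw [← hqd]; exact Nat.mul_lt_mul_of_pos_right hi' hd
  · intro w hw
    rw [mem_filter] at hw
    have h1 : m ∣ q * (w - a).val := by
      rw [← ZMod.natCast_eq_zero_iff]; push_cast; rw [ZMod.natCast_zmod_val]
      linear_combination hw.2
    have hdv : d ∣ (w - a).val := by
      have hmv' : q * d ∣ q * (w - a).val := by rw [hqd]; exact h1
      exact Nat.dvd_of_mul_dvd_mul_left hq hmv'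
    obtain ⟨j, hj⟩ := hdv
    refine ⟨j, ?_, ?_⟩
    · rw [mem_range]
      have h2 := ZMod.val_lt (w - a)
      rw [hj, ← hqd, mul_comm q d] at h2
      exact Nat.lt_of_mul_lt_mul_left h2
    · have h2 : w - a = ((j : ZMod m) * (d : ZMod m)) := by
        calc w - a = (((w - a).val : ℕ) : ZMod m) := (ZMod.natCast_zmod_val _).symm
          _ = _ := by rw [hj]; push_cast; ring
      rw [← h2]; ring
  · intro i _; rfl

/-- antisymmetric functions have vanishing fibre sums -/
lemma T_anti {n : ℕ} {e : ZMod m} (he : (n : ZMod m) * e = n) (hee : e * e = 1)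
    (φ : ZMod m → Q) : T n (fun w => φ w - φ (e * w)) = fun _ => 0 := by
  funext y
  unfold T
  refine Finset.sum_involution (fun w _ => e * w) ?_ ?_ ?_ ?_
  · intro w _
    rw [← mul_assoc, hee, one_mul]
    abel
  · intro w _ hne h
    apply hne
    rw [h, sub_self]
  · intro w hw
    rw [mem_filter] at hw ⊢
    refine ⟨mem_univ _, ?_⟩
    rw [← mul_assoc, he, hw.2]
  · intro w _
    rw [← mul_assoc, hee, one_mul]

/-- **The abstract form of Lemma B.** -/
theorem exists_divided {q v : ℕ} (hm2 : ¬ 2 ∣ m) (hp : p.Coprime m) (hq : q.Prime)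
    (hqm : q ∣ m) (u G : ZMod m → Q)
    (hu0 : ∀ a, u ((q : ZMod m) * a) = 0) (hu1 : ∀ a, u (-a) = - u a)
    (hu2 : ∀ a, u ((p : ZMod m) * a) = u a)
    (hu3 : ∀ ℓ d : ℕ, ℓ.Prime → ℓ ≠ 2 → ℓ ≠ q → ℓ * d = m → ∀ a,
      ∑ i ∈ range ℓ, u (a + (i : ZMod m) * (d : ZMod m)) = u ((ℓ : ZMod m) * a))
    (hu4 : T (q ^ v) u = fun _ => 0) (hG0 : G 0 = 0) (hG4 : T (q ^ v) G = fun _ => 0)
    (hG3 : ∀ d : ℕ, q * d = m → ∀ a,
      ∑ i ∈ range q, G (a + (i : ZMod m) * (d : ZMod m)) = G ((q : ZMod m) * a)) {N : ℕ}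
    (hN : ∀ w, (∀ a, w ≠ (q : ZMod m) * a) → N • u w = G w) :
    ∃ h : ZMod m → Q, IOD p h ∧ ∀ y, N • h y = G y := by
  classical
  set h : ZMod m → Q := fun y => ∑ k ∈ range v, T (q ^ k) u y with hh
  have hneg : ∀ a, h (-a) = - h a := by
    intro a
    simp only [hh]
    rw [← sum_neg_distrib]
    exact sum_congr rfl fun k _ => T_neg hu1 a
  have hinv : ∀ a, h ((p : ZMod m) * a) = h a := by
    intro a
    simp only [hh]
    exact sum_congr rfl fun k _ => T_unit (H916T.isUnit_p hp) hu2 a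
  have hrel : ∀ y, N • h y = G y := by
    have h1 : (fun w => N • u w) = fun w => G w - T q G w := by
      funext w
      by_cases hw : ∃ a, w = (q : ZMod m) * a
      · obtain ⟨a, rfl⟩ := hw
        obtain ⟨d, hd⟩ := hqm
        rw [hu0, smul_zero, T_coset hd.symm, hG3 d hd.symm, sub_self]
      · push Not at hw
        rw [hN w hw]
        have h2 : T q G w = 0 := by
          unfold T
          apply sum_eq_zero
          intro x hx
          rw [mem_filter] at hx
          exact absurd hx.2.symm (hw x)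
        rw [h2, sub_zero]
    intro y
    simp only [hh]
    rw [Finset.smul_sum]
    have h2 : ∀ k ∈ range v, N • T (q ^ k) u y = T (q ^ k) G y - T (q ^ (k + 1)) G y := by
      intro k _
      have h3 := congrFun (T_nsmul (q ^ k) N u) y
      rw [h1, T_sub, T_mul, ← pow_succ] at h3
      exact h3.symm
    rw [sum_congr rfl h2, Finset.sum_range_sub', pow_zero, T_one, hG4, sub_zero]
  have hdist : ∀ ℓ d : ℕ, ℓ.Prime → ℓ ≠ 2 → ℓ * d = m → ∀ a, (ℓ : ZMod m) * a ≠ 0 →
      ∑ i ∈ range ℓ, h (a + (i : ZMod m) * (d : ZMod m)) = h ((ℓ : ZMod m) * a) := by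
    intro ℓ d hℓ hℓ2 hℓd a _
    rw [← T_coset hℓd]
    have h0 : T ℓ h ((ℓ : ZMod m) * a) = ∑ k ∈ range v, T ℓ (T (q ^ k) u) ((ℓ : ZMod m) * a) := by
      have := congrFun (T_sum (range v) ℓ (fun k => T (q ^ k) u)) ((ℓ : ZMod m) * a)
      exact this
    rw [h0]
    by_cases hℓq : ℓ = q
    · subst hℓq
      have h1 : ∀ k ∈ range v, T ℓ (T (ℓ ^ k) u) ((ℓ : ZMod m) * a) =
          T (ℓ ^ (k + 1)) u ((ℓ : ZMod m) * a) := by
        intro k _
        rw [T_mul, pow_succ']
      rw [sum_congr rfl h1]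
      have h2 := Finset.sum_range_succ (fun k => T (ℓ ^ k) u ((ℓ : ZMod m) * a)) v
      have h3 := Finset.sum_range_succ' (fun k => T (ℓ ^ k) u ((ℓ : ZMod m) * a)) v
      rw [h2, hu4, pow_zero, T_one, hu0, add_zero, add_zero] at h3
      exact h3.symm
    · simp only [hh]
      refine sum_congr rfl fun k _ => ?_
      rw [T_mul, mul_comm ℓ, ← T_mul]
      conv_lhs => unfold T
      conv_rhs => unfold T
      refine sum_congr rfl fun w hw => ?_
      rw [mem_filter] at hw
      -- w is a multiple of ℓ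
      have hcop : Nat.Coprime (q ^ k) ℓ :=
        Nat.Coprime.pow_left _ ((Nat.coprime_primes hq hℓ).mpr (Ne.symm hℓq))
      obtain ⟨w', hw'⟩ : ∃ w', w = (ℓ : ZMod m) * w' := by
        have h1 := Nat.gcd_eq_gcd_ab (q ^ k) ℓ
        rw [hcop.gcd_eq_one] at h1
        have h2 : (1 : ZMod m) = ((q ^ k : ℕ) : ZMod m) * ((Nat.gcdA (q ^ k) ℓ : ℤ) : ZMod m) +
            (ℓ : ZMod m) * ((Nat.gcdB (q ^ k) ℓ : ℤ) : ZMod m) := by
          have h3 := congrArg (Int.cast : ℤ → ZMod m) h1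
          push_cast at h3 ⊢
          exact h3
        refine ⟨a * ((Nat.gcdA (q ^ k) ℓ : ℤ) : ZMod m) +
          w * ((Nat.gcdB (q ^ k) ℓ : ℤ) : ZMod m), ?_⟩
        linear_combination w * h2 + ((Nat.gcdA (q ^ k) ℓ : ℤ) : ZMod m) * hw.2
      have h4 := T_coset hℓd u w'
      rw [hu3 ℓ d hℓ hℓ2 hℓq hℓd, ← hw'] at h4
      exact h4
  refine ⟨fun a => if a = 0 then 0 else h a, ⟨zeroOut_OD hm2 hneg hdist, ?_⟩, ?_⟩
  · intro a
    have hu := H916T.isUnit_p hp
    by_cases ha : a = 0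
    · simp [ha]
    · have hpa : (p : ZMod m) * a ≠ 0 := fun h => ha ((hu.mul_right_eq_zero).mp h)
      simp only [if_neg ha, if_neg hpa]
      exact hinv a
  · intro y
    by_cases hy : y = 0
    · simp [hy, hG0]
    · simp only [if_neg hy]
      exact hrel y

end Pool.Agent.H916Z
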